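import Pool.Agent.Y874.TP2.Stm2
import Pool.Agent.Y874.TP.Lift

/-! Project TP2: the invariant of diagrams with removed triple points (adapted from project TP). -/

namespace Pool.Agent.Y874.TP2

open Pool.Agent.Y468.SR
open Pool.Agent.Y874.TP

theorem cm_congr {P P' : List Pass} {m : ℕ → ℕ} (h : ∀ r, r ∈ P ↔ r ∈ P') (hm : CM P m) :
    CM P' m := fun p hp => hm p ((h p).2 hp)

theorem invM_of {E E' : Code} {m : ℕ → ℕ} (hP : ∀ r, r ∈ passes E' ↔ r ∈ passes E)
    (hC : ∀ (G : Type) [Group G] (o u : ℕ → G), (∀ b, CN (bv (vals o u E') b)) →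
      ∀ b, CN (bv (vals o u E) b)) (h : InvM E' m) : InvM E m := by
  obtain ⟨hm, hc, hn⟩ := h
  exact ⟨matching_congr hP hm, cm_congr hP hc, fun G _ o u hv =>
    hC G o u (hn G o u (valid_congr (fun r => (hP r).symm) hv))⟩

theorem invM_perm {E E' : Code} {m : ℕ → ℕ} (h : E.Perm E') (hi : InvM E m) : InvM E' m := by
  refine invM_of (fun r => ?_) (fun G _ o u hn b => ?_) hi
  · exact (passes_perm h).mem_iff
  · exact (hn b).perm (bv_perm (h.map _) b)

theorem invC_perm {E E' : Code} (h : E.Perm E') (hi : InvC E) : InvC E' := by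
  obtain ⟨m, hm⟩ := hi
  exact ⟨m, invM_perm h hm⟩

theorem invM_rotate {x y : List Pass} {b : ℕ} {R : Code} {m : ℕ → ℕ}
    (hi : InvM ((x ++ y, b) :: R) m) : InvM ((y ++ x, b) :: R) m := by
  refine invM_of (fun r => ?_) (fun G _ o u hn a => ?_) hi
  · simp only [passes_cons, List.mem_append]; tauto
  · have := hn a
    simp only [vals, List.map_cons, bv_cons] at this ⊢
    split_ifs at this ⊢ with h
    · have e := this.conj_head (wval o u y)
      simpa [mul_assoc] using e
    · exact this

/-- `D` together with the circles `Ts` has the invariant -/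
structure Inv3 (D : Code) (Ts : List Tri) : Prop where
  wf : WF (passes (D ++ TC Ts))
  ok : ∀ T ∈ Ts, T.Ok ∧ T.Col
  dg : ∀ e ∈ Ts.flatMap tprs, ¬e.IsDiag
  nd : (Ts.flatMap tprs).Nodup
  inv : InvC (D ++ TC Ts)

/-- the circles can be given crossings with new names -/
theorem freshen (hren : S_REN) {D : Code} {Ts : List Tri} (hD : WF (passes D)) (h : Inv3 D Ts)
    (F : List Pass) : ∃ Ts', Inv3 D Ts' ∧ Ts'.flatMap tprs = Ts.flatMap tprs ∧
      ∀ p ∈ F, ∀ q ∈ passes (TC Ts'), q.crossing ≠ p.crossing := by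
  classical
  obtain ⟨K, hK⟩ := exists_bound (passes D ++ F)
  set f : ℕ → ℕ := fun c => if ∃ p ∈ passes D, p.crossing = c then c else
    Nat.pair (colour c) (K + c) with hf
  have f1 : ∀ p ∈ passes D, f p.crossing = p.crossing := by
    intro p hp; rw [hf]; simp only; rw [if_pos ⟨p, hp, rfl⟩]
  have f2 : ∀ p ∈ passes (TC Ts), f p.crossing = Nat.pair (colour p.crossing) (K + p.crossing) := by
    intro p hp
    rw [hf]; simp only
    rw [if_neg]
    rintro ⟨q, hq, h1⟩
    exact sep hD h.wf hq hp h1.symm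
  have f3 : ∀ p ∈ passes (TC Ts), ∀ q ∈ passes D ++ F, f p.crossing ≠ q.crossing := by
    intro p hp q hq he
    have := hK q hq
    rw [← he, f2 p hp, Nat.unpair_pair] at this
    simp only at this
    omega
  have hinj : ∀ p ∈ passes (D ++ TC Ts), ∀ q ∈ passes (D ++ TC Ts),
      f p.crossing = f q.crossing → p.crossing = q.crossing := by
    intro p hp q hq he
    rw [passes_append', List.mem_append] at hp hq
    rcases hp with hp | hp <;> rcases hq with hq | hq
    · rwa [f1 p hp, f1 q hq] at he
    · rw [f1 p hp] at he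
      exact absurd he.symm (f3 q hq p (by simp [hp]))
    · rw [f1 q hq] at he
      exact absurd he (f3 p hp q (by simp [hq]))
    · rw [f2 p hp, f2 q hq, Nat.pair_eq_pair] at he
      omega
  have hcol : ∀ p ∈ passes (D ++ TC Ts), colour (f p.crossing) = colour p.crossing := by
    intro p hp
    rw [passes_append', List.mem_append] at hp
    rcases hp with hp | hp
    · rw [f1 p hp]
    · rw [f2 p hp, colour, Nat.unpair_pair]
  have hcolT : ∀ T ∈ Ts, ∀ c ∈ T.names, colour (f c) = colour c := by
    intro T hT c hc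
    obtain ⟨p, hp, rfl⟩ := exists_pass hT hc
    exact hcol p (by rw [passes_append']; simp [hp])
  have hDren : renamed f D = D := by
    unfold renamed
    conv_rhs => rw [← List.map_id D]
    refine List.map_congr_left fun C hC => ?_
    have : (C.1.map fun p => (⟨f p.crossing, p.isOver, p.isPos⟩ : Pass)) = C.1 := by
      conv_rhs => rw [← List.map_id C.1]
      refine List.map_congr_left fun p hp => ?_
      rw [f1 p (mem_passes.2 ⟨C, hC, hp⟩)]; rfl
    rw [this]; rfl
  have hE : renamed f (D ++ TC Ts) = D ++ TC (Ts.map (Tri.rename f)) := by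
    rw [renamed_append, hDren, TC_rename]
  have hcols : ∀ T ∈ Ts, tprs (T.rename f) = tprs T := by
    intro T hT
    have := hcolT T hT
    simp only [Tri.names, List.mem_cons, List.not_mem_nil, or_false, forall_eq_or_imp,
      forall_eq] at this
    simp only [tprs, kap, lc, Tri.pa₁, Tri.pb₁, Tri.pc₁, Pass.mate, Tri.rename, this.1,
      this.2.2.1, this.2.2.2.2.1]
  have hcols' : (Ts.map (Tri.rename f)).flatMap tprs = Ts.flatMap tprs := by
    rw [List.flatMap_map]
    rw [List.flatMap_def, List.flatMap_def]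
    congr 1
    exact List.map_congr_left hcols
  refine ⟨Ts.map (Tri.rename f), ⟨?_, ?_, ?_, ?_, ?_⟩, hcols', ?_⟩
  · rw [← hE, passes_renamed]
    exact h.wf.ren hinj
  · intro T' hT'
    obtain ⟨T, hT, rfl⟩ := List.mem_map.1 hT'
    refine ⟨(h.ok T hT).1, ?_⟩
    have h1 := (h.ok T hT).2
    have := hcolT T hT
    simp only [Tri.names, List.mem_cons, List.not_mem_nil, or_false, forall_eq_or_imp,
      forall_eq] at this
    obtain ⟨k1, k2, k3, k4, k5, k6⟩ := this
    unfold Tri.Col Tri.rename
    simp only [k1, k2, k3, k4, k5, k6]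
    exact h1
  · rw [hcols']; exact h.dg
  · rw [hcols']; exact h.nd
  · rw [← hE]
    exact (hren f _ hinj hcol).1 h.inv
  · intro p hp q hq
    rw [TC_rename] at hq
    obtain ⟨q', hq', rfl⟩ := mem_renamed.1 hq
    exact f3 q' hq' p (by simp [hp])

end Pool.Agent.Y874.TP2
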