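import Pool.Agent.Y874.TP2.Stm2
import Pool.Agent.Y220.TP.Cut

/-! Cutting; copy of the last theorem of `Y220/TP/Cut.lean` (helper220) for project TP2. -/

namespace Pool.Agent.Y874.TP2.CT

open Pool.Agent.Y468.SR Pool.Agent.Y874.TP Pool.Agent.Y220.TP

theorem cut : S_CUT := by
  intro p q y z b b' S m hW hI h0 h1 h2 hbb hS
  obtain ⟨hm, hcm, hN⟩ := hI
  set P := passes ((p :: (y ++ q :: z), b) :: S) with hP
  have hpP : p ∈ P := by simp [hP]
  have hqP : q ∈ P := by simp [hP]
  have hyP : ∀ r ∈ y, r ∈ P := fun r hr => by simp [hP, hr]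
  have hzP : ∀ r ∈ z, r ∈ P := fun r hr => by simp [hP, hr]
  have hSP : ∀ C ∈ S, ∀ r ∈ C.1, r ∈ P := fun C hC r hr => by
    rw [hP, passes_cons]
    exact List.mem_append_right _ (mem_passes.2 ⟨C, hC, hr⟩)
  have hpq : p.crossing ≠ q.crossing := by rw [h1]; exact Ne.symm h0
  have hmq : m q.crossing = p.crossing := by rw [h1]; exact matching_invol hm hpP
  have eq_of : ∀ r ∈ P, ∀ r' ∈ P, r.crossing = r'.crossing → r.isOver = r'.isOver → r = r' :=
    fun r hr r' hr' hc ho => List.inj_on_of_nodup_map hW.2 hr hr' (by simp [hc, ho])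
  have hnd : (p :: ((y ++ q :: z) ++ passes S)).Nodup := by
    have := WF.nodup hW
    simpa [hP] using this
  have hnd' : (p ∉ y ∧ p ∉ z ∧ q ∉ y ∧ q ∉ z) ∧ p ∉ passes S ∧ q ∉ passes S := by
    rw [List.nodup_cons, List.append_assoc, List.nodup_append] at hnd
    obtain ⟨h3, h4, h5, h6⟩ := hnd
    rw [List.cons_append, List.nodup_cons] at h5
    exact ⟨⟨fun h => h3 (by simp [h]), fun h => h3 (by simp [h]), fun h => h6 q h q (by simp) rfl,
      fun h => h5.1 (by simp [h])⟩, fun h => h3 (by simp [h]), fun h => h5.1 (by simp [h])⟩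
  obtain ⟨⟨hpy, hpz, hqy, hqz⟩, hpS, hqS⟩ := hnd'
  -- the twisted labels
  have hv2 := valid_tw (valid_map (emb (F := FreeGroup (ℕ × Bool))) (valid_letter hm)) hm h1.symm
    hmq hpq (tt (FreeGroup (ℕ × Bool))) p.isOver
  set o' := tw p.crossing q.crossing (tt (FreeGroup (ℕ × Bool))) p.isOver fun c => emb (fo m c)
    with ho'
  set u' := tw p.crossing q.crossing (tt (FreeGroup (ℕ × Bool))) (!p.isOver) fun c => emb (fu m c)
    with hu'
  have hval : ∀ w : List Pass, (∀ r ∈ w, r ∈ P) → p ∉ w → q ∉ w →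
      wval o' u' w = emb (wval (fo m) (fu m) w) := by
    intro w hw hpw hqw
    rw [← wval_map]
    refine wval_congr fun r hr => ?_
    rw [ho', hu', val_tw]
    split_ifs with k1 k2 k3
    · exact absurd (eq_of r (hw r hr) p hpP k2 k1 ▸ hr) hpw
    · exact absurd (eq_of r (hw r hr) q hqP k3 (k1.trans h2.symm) ▸ hr) hqw
    · rfl
    · rfl
  have hvp : val o' u' p = tt _ := by
    rw [ho', hu', val_tw, if_pos rfl, if_pos rfl]
  have hvq : val o' u' q = (tt _)⁻¹ := by
    rw [ho', hu', val_tw, if_pos h2, if_neg hpq.symm, if_pos rfl]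
  have h3 := hN _ o' u' hv2 b
  have e3 : vals o' u' ((p :: (y ++ q :: z), b) :: S) =
      (wval o' u' (p :: (y ++ q :: z)), b) :: vals o' u' S := rfl
  rw [e3, bv_cons, if_pos rfl] at h3
  simp only [wval_cons, wval_append] at h3
  rw [hvp, hvq, hval y hyP hpy hqy, hval z hzP hpz hqz, ← mul_assoc, ← mul_assoc, twist_eq] at h3
  have e4 : bv (vals o' u' S) b = (bv (vals (fo m) (fu m) S) b).map emb := by
    refine bv_map _ _ _ _ _ S b fun C hC => ?_
    exact hval C.1 (hSP C hC) (fun h => hpS (mem_passes.2 ⟨C, hC, h⟩))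
      (fun h => hqS (mem_passes.2 ⟨C, hC, h⟩))
  rw [e4] at h3
  obtain ⟨r, h4, h5⟩ := h3.head
  obtain ⟨he, S', h6, h7, h8⟩ := split_pc hbb (wval (fo m) (fu m)) S hS r h4
  have h9 : wval (fo m) (fu m) z * r.a = 1 := by
    have := congrArg Wr.a h5
    simpa [mul_a, one_a] using this
  have h10 : wval (fo m) (fu m) y * r.b = 1 := by
    have := congrArg Wr.b h5
    simpa [mul_b, one_b] using this
  have c1 : CN (wval (fo m) (fu m) z :: bv (vals (fo m) (fu m) S') b) := CN.of_head h7 h9
  have c2 : CN (wval (fo m) (fu m) y :: bv (vals (fo m) (fu m) S') b') := CN.of_head h8 h10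
  -- the new passages
  have hmem : ∀ r, r ∈ P ↔ r ∈ passes ((p :: q :: z, b) :: (y, b') :: S') := by
    intro r
    simp only [hP, passes_cons, passes_eq h6, List.mem_append, List.mem_cons]
    tauto
  refine ⟨S', fst_eq h6, h6.imp fun _ _ h => h.2, ?_, ?_, ?_⟩
  · exact matching_congr hmem hm
  · intro r hr
    exact hcm r ((hmem r).2 hr)
  · intro G _ o u hv k
    have hv' : Valid P m o u := valid_congr (fun r => (hmem r).symm) hv
    obtain ⟨φ, hφ⟩ := univ hv'
    have e5 : ∀ k, bv (vals o u S') k = (bv (vals (fo m) (fu m) S') k).map φ := by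
      intro k
      refine bv_map _ _ _ _ _ S' k fun C hC => ?_
      refine (hφ C.1 fun r hr => ?_).symm
      rw [hmem]
      simp only [passes_cons, List.mem_append]
      exact Or.inr (Or.inr (mem_passes.2 ⟨C, hC, hr⟩))
    have e6 : vals o u ((p :: q :: z, b) :: (y, b') :: S') =
        (wval o u (p :: q :: z), b) :: (wval o u y, b') :: vals o u S' := rfl
    have e7 : wval o u (p :: q :: z) = φ (wval (fo m) (fu m) z) := by
      simp only [wval_cons]
      obtain ⟨-, k2⟩ := hv' p hpP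
      obtain ⟨k3, k4⟩ := k2 h0
      rw [← h1] at k3 k4
      rw [← mul_assoc, (val_pair p q h2.symm k3 k4).1, one_mul]
      exact (hφ z hzP).symm
    rw [e6, bv_cons, bv_cons]
    by_cases hk : k = b
    · subst hk
      rw [if_pos rfl, if_neg hbb.symm, e7, e5]
      exact (pc_map φ c1).of_eq (map_one φ)
    · by_cases hk' : k = b'
      · subst hk'
        rw [if_neg hbb, if_pos rfl, e5, ← hφ y hyP]
        exact (pc_map φ c2).of_eq (map_one φ)
      · rw [if_neg (Ne.symm hk), if_neg (Ne.symm hk'), bv_eq h6 o u hk hk']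
        have h11 := hN G o u hv' k
        have e8 : vals o u ((p :: (y ++ q :: z), b) :: S) =
            (wval o u (p :: (y ++ q :: z)), b) :: vals o u S := rfl
        rw [e8, bv_cons, if_neg (Ne.symm hk)] at h11
        exact h11

end Pool.Agent.Y874.TP2.CT
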