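import Pool.Agent.Y874.TP.Defs

/-!
# Movies without monogons and bigons

Crossings are named by pairs of natural numbers, coded by one natural number; the first member of the
pair is the colour of the double curve to which the crossing belongs. The colour is kept by all moves.
Branch points are allowed on double curves of even colours only. The preimage of the double curves in
the surface consists of curves named `(k, true)` (in the upper sheet) and `(k, false)` (in the lower
sheet), `k` being the colour, which are one curve, named `(k, true)`, if the colour `k` is even.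
-/

namespace Pool.Agent.Y874.TP2

open Pool.Agent.Y468.SR
open Pool.Agent.Y874.TP (colour TriAt NullV Tri TC)

/-- the curve in the surface to which the over-passage (`o = true`) or the under-passage of the
crossing belongs -/
def lc (c : ℕ) (o : Bool) : ℕ × Bool := (colour c, o || colour c % 2 == 0)

/-- Reidemeister moves of types I and II. Moves of type I (branch points of the projected surface) take
place only on double curves of even colour; the two crossings of a move of type II have one colour. -/
inductive CReid : List (Pass ⊕ ℕ) → List (Pass ⊕ ℕ) → Prop
  | one (A B : List (Pass ⊕ ℕ)) (p : Pass) (hc : colour p.crossing % 2 = 0) :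
      CReid (A ++ two p p.mate ++ B) (A ++ B)
  | twoSame (A B C : List (Pass ⊕ ℕ)) (p q : Pass) (h : p.crossing ≠ q.crossing)
      (ho : p.isOver = q.isOver) (hs : q.isPos = !p.isPos)
      (hc : colour p.crossing = colour q.crossing) :
      CReid (A ++ two p q ++ B ++ two p.mate q.mate ++ C) (A ++ B ++ C)
  | twoOpp (A B C : List (Pass ⊕ ℕ)) (p q : Pass) (h : p.crossing ≠ q.crossing)
      (ho : p.isOver = q.isOver) (hs : q.isPos = !p.isPos)
      (hc : colour p.crossing = colour q.crossing) :
      CReid (A ++ two p q ++ B ++ two q.mate p.mate ++ C) (A ++ B ++ C)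

/-- The steps of a movie other than moves of type III, with births allowed, keeping the colours. -/
inductive CStep : Code → Code → Prop
  | perm (D D' : Code) (h : D.Perm D') : CStep D D'
  | rename (f : ℕ → ℕ) (D : Code) (hf : ∀ p ∈ passes D, ∀ q ∈ passes D,
      f p.crossing = f q.crossing → p.crossing = q.crossing)
      (hc : ∀ p ∈ passes D, colour (f p.crossing) = colour p.crossing) : CStep D (renamed f D)
  | rotate (x y : List Pass) (b : ℕ) (R : Code) : CStep ((x ++ y, b) :: R) ((y ++ x, b) :: R)
  | reid (D D' : Code) (h : CReid (enc D) (enc D')) : CStep D D'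
  | reidInv (D D' : Code) (h : CReid (enc D') (enc D)) : CStep D D'
  | death (b : ℕ) (R : Code) (hb : ∀ C ∈ R, C.2 ≠ b) : CStep (([], b) :: R) R
  | birth (b : ℕ) (R : Code) (hb : ∃ C ∈ R, C.2 = b) : CStep R (([], b) :: R)
  | split (x y : List Pass) (b b' : ℕ) (R : Code) (hb : b ≠ b') :
      CStep ((x ++ y, b) :: R.map fun C => (C.1, if C.2 = b' then b else C.2))
        ((x, b) :: (y, b') :: R)
  | merge (x y : List Pass) (b : ℕ) (R : Code) :
      CStep ((x, b) :: (y, b) :: R) ((x ++ y, b) :: R)

/-- the pairs of curves crossing one another, in the top, middle and bottom sheet, at the triple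
point with the crossings `x` (top and middle), `y` (top and bottom), `z` (middle and bottom) -/
def prs (x y z : ℕ) : List (Sym2 (ℕ × Bool)) :=
  [s(lc x true, lc y true), s(lc x false, lc z true), s(lc y false, lc z false)]

/-- `SMovie D T`: the classical link `D` bounds disjoint discs (or planar surfaces, one for each
label) by a movie ending with the empty diagram, in which births are allowed, such that in the
surfaces no curve of double points crosses itself and any two of these curves cross at most once
(at triple points of the projection, i.e. at moves of type III); `T` is the list of the pairs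
of curves crossing one another. -/
inductive SMovie : Code → List (Sym2 (ℕ × Bool)) → Prop
  | nil : SMovie [] []
  | step {D D' : Code} {T : List (Sym2 (ℕ × Bool))} (h : Classical D) (hs : CStep D D')
      (hm : SMovie D' T) : SMovie D T
  | three {D D' : Code} {T : List (Sym2 (ℕ × Bool))} (h : Classical D) (A B C E : List (Pass ⊕ ℕ))
      (X Y Z t m b : Pass × Pass) (x y z : ℕ) (hT : TriAt x y z t m b)
      (hP : List.Perm [X, Y, Z] [t, m, b])
      (hD : enc D = A ++ two X.1 X.2 ++ B ++ two Y.1 Y.2 ++ C ++ two Z.1 Z.2 ++ E)
      (hD' : enc D' = A ++ two X.2 X.1 ++ B ++ two Y.2 Y.1 ++ C ++ two Z.2 Z.1 ++ E)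
      (hd : ∀ e ∈ prs x y z, ¬e.IsDiag) (hn : (prs x y z ++ T).Nodup) (hm : SMovie D' T) :
      SMovie D (prs x y z ++ T)

/-! ### Diagrams with removed triple points -/

/-- the matching keeps the colours, and only crossings of even colour are matched with themselves -/
def CM (P : List Pass) (m : ℕ → ℕ) : Prop :=
  ∀ p ∈ P, colour (m p.crossing) = colour p.crossing ∧
    (colour p.crossing % 2 ≠ 0 → m p.crossing ≠ p.crossing)

def InvM (E : Code) (m : ℕ → ℕ) : Prop := Matching (passes E) m ∧ CM (passes E) m ∧ NullV E m

def InvC (E : Code) : Prop := ∃ m, InvM E m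

/-- the curve to which the passage belongs -/
def kap (p : Pass) : ℕ × Bool := lc p.crossing p.isOver

/-- orientation of the curves -/
def sg (p : Pass) : ℤ := if p.isOver = p.isPos then 1 else -1

/-- the other end of the edge starting with the passage -/
def part (m : ℕ → ℕ) (p : Pass) : Pass :=
  if m p.crossing = p.crossing then p.mate else ⟨m p.crossing, p.isOver, !p.isPos⟩

/-- the pairs of curves crossing one another in the three sheets of the triple point -/
def tprs (T : Tri) : List (Sym2 (ℕ × Bool)) :=
  [s(kap T.pa₁, kap T.pb₁), s(kap T.pa₁.mate, kap T.pc₁), s(kap T.pb₁.mate, kap T.pc₁.mate)]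

end Pool.Agent.Y874.TP2
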