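import Pool.Agent.Y874.TP2.StepB

/-! Pictures: the junction lemma. -/

namespace Pool.Agent.Y874.TP2

variable {X K : Type}

theorem flatten_map_reverse (L : List (List X)) : (L.map List.reverse).flatten.Perm L.flatten := by
  induction L with
  | nil => exact List.Perm.refl _
  | cons W L ih =>
    rw [List.map_cons, List.flatten_cons, List.flatten_cons]
    exact W.reverse_perm.append ih

namespace Pic
variable {P : Pic X K}

/-- the mirror image -/
def mirror (P : Pic X K) : Pic X K :=
  { P with B := P.B.map List.reverse, Q := P.Q.map List.reverse }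

theorem mirror_mirror (P : Pic X K) : P.mirror.mirror = P := by
  obtain ⟨B, Q, σ, sg, κ⟩ := P
  simp [mirror, Function.comp_def]

theorem mem_mirror_B {W : List X} : W ∈ P.mirror.B ↔ W.reverse ∈ P.B := by
  unfold mirror
  constructor
  · intro h
    obtain ⟨W', h1, rfl⟩ := List.mem_map.1 h
    simpa using h1
  · intro h
    exact List.mem_map.2 ⟨W.reverse, h, by simp⟩

theorem mem_mirror_Q {W : List X} : W ∈ P.mirror.Q ↔ W.reverse ∈ P.Q := by
  unfold mirror
  constructor
  · intro h
    obtain ⟨W', h1, rfl⟩ := List.mem_map.1 h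
    simpa using h1
  · intro h
    exact List.mem_map.2 ⟨W.reverse, h, by simp⟩

theorem mirror_flatB {x : X} : x ∈ P.mirror.B.flatten ↔ x ∈ P.B.flatten :=
  (flatten_map_reverse P.B).mem_iff

theorem mirror_flatQ {x : X} : x ∈ P.mirror.Q.flatten ↔ x ∈ P.Q.flatten :=
  (flatten_map_reverse P.Q).mem_iff

theorem mirror_dart {x : X} : P.mirror.dart x ↔ P.dart x := by
  unfold dart; rw [mirror_flatB, mirror_flatQ]

theorem opp_rev {q : List X} {a b : X} : Opp q.reverse a b ↔ Opp q a b :=
  ⟨fun h => by simpa using h.reverse, fun h => h.reverse⟩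

theorem mirror_flow {f : X → ℤ} : P.mirror.Flow f ↔ P.Flow f := by
  unfold Flow
  refine and_congr ?_ ?_
  · refine forall_congr' fun x => ?_
    rw [mirror_dart]; rfl
  · constructor
    · intro h q hq
      have := h q.reverse (mem_mirror_Q.2 (by simpa using hq))
      simpa [List.map_reverse, List.sum_reverse] using this
    · intro h q hq
      have := h q.reverse (mem_mirror_Q.1 hq)
      simpa [List.map_reverse, List.sum_reverse] using this

theorem mirror_good (hG : P.Good) : P.mirror.Good where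
  nd := by
    have h : (P.mirror.B.flatten ++ P.mirror.Q.flatten).Perm (P.B.flatten ++ P.Q.flatten) :=
      (flatten_map_reverse P.B).append (flatten_map_reverse P.Q)
    exact h.nodup_iff.2 hG.nd
  four := by
    intro q hq
    obtain ⟨x₀, x₁, x₂, x₃, e, h1, h2, h3, h4, h5⟩ := hG.four _ (mem_mirror_Q.1 hq)
    refine ⟨x₃, x₂, x₁, x₀, ?_, ?_, ?_, h4.symm, h3.symm, ?_⟩
    · rw [← q.reverse_reverse, e]; simp
    · change P.sg x₁ = -P.sg x₃
      rw [h2]; ring
    · change P.sg x₀ = -P.sg x₂
      rw [h1]; ring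
    · change P.κ x₃ ≠ P.κ x₂
      rw [h3, h4]; exact Ne.symm h5
  dartσ := fun x hx => mirror_dart.2 (hG.dartσ x (mirror_dart.1 hx))
  invσ := fun x hx => hG.invσ x (mirror_dart.1 hx)
  sg1 := fun x hx => hG.sg1 x (mirror_dart.1 hx)
  sgσ := fun x hx => hG.sgσ x (mirror_dart.1 hx)
  κσ := fun x hx => hG.κσ x (mirror_dart.1 hx)
  once := by
    intro q hq q' hq' a ha b hb a' ha' b' hb' h1 h2 h3
    have := hG.once _ (mem_mirror_Q.1 hq) _ (mem_mirror_Q.1 hq') a (by simpa using ha) b
      (by simpa using hb) a' (by simpa using ha') b' (by simpa using hb') h1 h2 h3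
    exact List.reverse_injective this
  sum0 := by
    intro f hf W hW
    have := hG.sum0 f (mirror_flow.1 hf) _ (mem_mirror_B.1 hW)
    simpa [List.map_reverse, List.sum_reverse] using this
  om0 := by
    intro f g hf hg
    have h := hG.om0 f g (mirror_flow.1 hf) (mirror_flow.1 hg)
    have e : ∀ L : List (List X), ((L.map List.reverse).map (om f g)).sum =
        -(L.map (om f g)).sum := by
      intro L
      induction L with
      | nil => simp
      | cons W L ih => simp only [List.map_cons, List.sum_cons, ih, om_reverse]; ring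
    have e2 : P.mirror.B ++ P.mirror.Q = (P.B ++ P.Q).map List.reverse := by simp [mirror]
    rw [e2, e, h, neg_zero]

theorem mirror_walk {x z : X} {L : List X} (h : P.Walk x L z) : P.mirror.Walk x L z := by
  induction h with
  | done x h => exact Walk.done (P := P.mirror) x (mirror_flatB.2 h)
  | step x x' z q L hq ho _ ih =>
    exact Walk.step (P := P.mirror) x x' z q.reverse L (mem_mirror_Q.2 (by simpa using hq))
      ho.reverse ih

theorem mirror_closed {S : Set X} (h : P.Closed S) : P.mirror.Closed S :=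
  ⟨fun d hd => mirror_dart.2 (h.1 d hd), h.2.1, fun q hq d e ho hd =>
    h.2.2 q.reverse (mem_mirror_Q.1 hq) d e ho.reverse hd⟩

theorem mirror_TD {x z : X} {M : List X} (h : P.TD x z M) : P.mirror.TD x z M.reverse := by
  obtain ⟨q, hq, y, y', L, S, S', hxq, ho, hκ, hw, hyL, hS, hx, hκS, hMS, hS', hz, hκS', hMS'⟩ := h
  exact ⟨q.reverse, mem_mirror_Q.2 (by simpa using hq), y, y', L, S, S', List.mem_reverse.2 hxq,
    ho.reverse, hκ, mirror_walk hw, hyL, mirror_closed hS, hx, hκS,
    fun d hd => hMS d (List.mem_reverse.1 hd), mirror_closed hS', hz, hκS',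
    fun d hd => hMS' d (List.mem_reverse.1 hd)⟩

theorem mirror_mem {A M C : List X} {x z : X} (h : (A ++ x :: (M ++ z :: C)) ∈ P.B) :
    (C.reverse ++ z :: (M.reverse ++ x :: A.reverse)) ∈ P.mirror.B := by
  rw [mem_mirror_B]
  simpa using h

theorem mirror_cfg {n : ℕ} (h : P.Cfg n) : P.mirror.Cfg n := by
  obtain ⟨A, x, M, z, C, h1, h2⟩ := h
  refine ⟨C.reverse, z, M.reverse, x, A.reverse, by simpa using h1, ?_⟩
  rcases h2 with ⟨hW, S, hS, hx, hz, hκ, hb, hs⟩ | ⟨hW, h2 | h2⟩
  · refine Or.inl ⟨mirror_mem hW, S, mirror_closed hS, hz, hx, fun d hd => ?_, fun d hd hB => ?_, ?_⟩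
    · exact (hκ d hd).trans (hκ z hz).symm
    · exact (hb d hd (mirror_flatB.1 hB)).symm
    · change P.sg x = -P.sg z
      rw [hs]; ring
  · exact Or.inr ⟨mirror_mem hW, Or.inr (mirror_TD h2)⟩
  · exact Or.inr ⟨mirror_mem hW, Or.inl (mirror_TD h2)⟩

theorem mirror_junc (hG : P.Good) (h : P.mirror.Junc) : P.Junc := by
  obtain ⟨W, hW, A, x, y, C, e, h⟩ := h
  have hW' := mem_mirror_B.1 hW
  refine ⟨W.reverse, hW', C.reverse, y, x, A.reverse, by rw [e]; simp, ?_⟩
  rcases h with h | ⟨q, hq, h⟩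
  · left
    have h' : P.σ x = y := h
    rw [← h', hG.invσ x (dartB hW' (by rw [e]; simp))]
  · right
    refine ⟨q.reverse, mem_mirror_Q.1 hq, ?_⟩
    refine cycL_reverse ?_
    rw [List.reverse_reverse]
    exact h

theorem step (w1 : S_W1) (w2 : S_W2) (w3 : S_W3) (w4 : S_W4) (hG : P.Good) {n : ℕ}
    (h : P.Cfg n) : P.Junc ∨ ∃ m < n, P.Cfg m := by
  obtain ⟨A, x, M, z, C, rfl, h | ⟨hW, h | h⟩⟩ := h
  · exact stepHD w1 w2 w4 hG h
  · exact stepTD w1 w2 w3 w4 hG hW h
  · rcases stepTD w1 w2 w3 w4 (mirror_good hG) (mirror_mem hW) (mirror_TD h) with h | ⟨m, h1, h2⟩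
    · exact Or.inl (mirror_junc hG h)
    · refine Or.inr ⟨m, by simpa using h1, ?_⟩
      have := mirror_cfg h2
      rwa [mirror_mirror] at this

theorem exists_cfg (w1 : S_W1) (w2 : S_W2) (hG : P.Good) (h : ∃ W ∈ P.B, W ≠ []) :
    ∃ n, P.Cfg n := by
  obtain ⟨W, hW, hne⟩ := h
  obtain ⟨x, hx⟩ := List.exists_mem_of_ne_nil _ hne
  have hxB : x ∈ P.B.flatten := List.mem_flatten.2 ⟨W, hW, hx⟩
  have hn := hG.nodupB hW
  rcases w1 X K P hG x (Or.inl hxB) with ⟨L, z, hw⟩ | ⟨S, -, h1, -, h2⟩
  · obtain ⟨a1, a2, a3, a4, a5, a6, a7, a8⟩ := w2 X K P hG x L z (Or.inl hxB) hw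
    have hc := closed_walk w2 hG hxB hw
    have hxz : x ≠ z := by
      intro h
      rw [← h] at a4
      have := hG.sg0 (Or.inl hxB)
      omega
    have hzW : z ∈ W := by
      by_contra hzW
      have h0 := hG.sum0 _ (fl_flow hG hc) W hW
      obtain ⟨A, C, rfl⟩ := List.append_of_mem hx
      rw [List.nodup_append, List.nodup_cons] at hn
      rw [List.map_append, List.sum_append, List.map_cons, List.sum_cons, sum_zero, sum_zero,
        fl_mem (S := {e | e ∈ L}) a1] at h0
      · have := hG.sg0 (Or.inl hxB)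
        omega
      · intro d hd
        refine fl_not (S := {e | e ∈ L}) fun h => ?_
        rcases a7 d h (List.mem_flatten.2 ⟨_, hW, by simp [hd]⟩) with rfl | rfl
        · exact hn.2.1.1 hd
        · exact hzW (by simp [hd])
      · intro d hd
        refine fl_not (S := {e | e ∈ L}) fun h => ?_
        rcases a7 d h (List.mem_flatten.2 ⟨_, hW, by simp [hd]⟩) with rfl | rfl
        · exact hn.2.2 _ hd _ (by simp) rfl
        · exact hzW (by simp [hd])
    obtain ⟨A, C, rfl⟩ := List.append_of_mem hx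
    have hz' : z ∈ A ∨ z ∈ C := by
      simp only [List.mem_append, List.mem_cons] at hzW
      rcases hzW with h | h | h
      · exact Or.inl h
      · exact absurd h.symm hxz
      · exact Or.inr h
    rcases hz' with hz' | hz'
    · obtain ⟨A₁, A₂, rfl⟩ := List.append_of_mem hz'
      refine ⟨_, A₁, z, A₂, x, C, rfl, Or.inl ⟨by simpa using hW, {e | e ∈ L}, hc, a2, a1,
        fun d hd => (a5 d hd).2.trans (a5 z a2).2.symm, fun d hd hB => (a7 d hd hB).symm, ?_⟩⟩
      rw [a4]; ring
    · obtain ⟨C₁, C₂, rfl⟩ := List.append_of_mem hz'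
      exact ⟨_, A, x, C₁, z, C₂, rfl, Or.inl ⟨by simpa using hW, {e | e ∈ L}, hc, a1, a2,
        fun d hd => (a5 d hd).2, fun d hd hB => a7 d hd hB, a4⟩⟩
  · exact absurd hxB (h2 x h1)

end Pic

theorem junction (w1 : S_W1) (w2 : S_W2) (w3 : S_W3) (w4 : S_W4) : S_PJ := by
  intro X K P hG h
  obtain ⟨n, hn⟩ := Pic.exists_cfg w1 w2 hG h
  induction n using Nat.strong_induction_on with
  | _ n ih =>
    rcases Pic.step w1 w2 w3 w4 hG hn with h' | ⟨m, h1, h2⟩
    · exact h'
    · exact ih m h1 h2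

end Pool.Agent.Y874.TP2
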