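import Pool.Agent.Y874.TP2.Stm2
import Pool.Agent.Y874.TP2.Junction
import Pool.Agent.Y759.TP2.Inst
import Pool.Agent.Y761.TP2.Flow
import Pool.Agent.Y948.TP2.W1
import Pool.Agent.Y710.TP2.W234
import Pool.Agent.Y874.TP.Basic

/-! The junction lemma for diagrams. -/

namespace Pool.Agent.Y874.TP2

open Pool.Agent.Y468.SR
open Pool.Agent.Y874.TP

theorem pj : S_PJ := junction Pool.Agent.Y948.TP2.w1 Pool.Agent.Y710.TP2.w2 Pool.Agent.Y710.TP2.w3
  Pool.Agent.Y710.TP2.w4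

theorem junc : S_JUNC := by
  intro D Ts m hn hD hW hI hcol hd hnd hne
  have hG := Pool.Agent.Y759.TP2.inst Pool.Agent.Y761.TP2.flow D Ts m hn hW hI hcol hd hnd
  have hex : ∃ W ∈ (pic D Ts m).B, W ≠ [] := by
    obtain ⟨p, hp⟩ := List.exists_mem_of_ne_nil _ hne
    obtain ⟨C, hC, hp⟩ := mem_passes.1 hp
    exact ⟨C.1, List.mem_map_of_mem hC, List.ne_nil_of_mem hp⟩
  obtain ⟨W, hWm, A, x, y, C', e, h⟩ := pj _ _ (pic D Ts m) hG hex
  obtain ⟨C, hC, rfl⟩ := List.mem_map.1 hWm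
  refine ⟨C, hC, A, C', x, y, e, ?_⟩
  have hxD : x ∈ passes D := mem_passes.2 ⟨C, hC, by rw [e]; simp⟩
  have hyD : y ∈ passes D := mem_passes.2 ⟨C, hC, by rw [e]; simp⟩
  rcases h with h | ⟨q, hq, h⟩
  · left
    have h' : part m x = y := h
    unfold part at h'
    split_ifs at h' with hm
    · left
      exact ⟨hm, by rw [← h']; rfl, by rw [← h']; rfl⟩
    · right
      exact ⟨hm, by rw [← h'], by rw [← h']⟩
  · right
    obtain ⟨Cq, hCq, rfl⟩ := List.mem_map.1 hq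
    obtain ⟨T, hT, hCT⟩ := List.mem_flatMap.1 hCq
    have hmem : ∀ p : Pass, p ∈ passes D → part m p ∈ Cq.1 →
        (part m p).crossing = m p.crossing ∧ (part m p).isOver = p.isOver := by
      intro p hp hpq
      unfold part at hpq ⊢
      split_ifs at hpq ⊢ with hm
      · exfalso
        have h1 : p.mate ∈ passes (TC Ts) := mem_passes.2 ⟨Cq, hCq, hpq⟩
        exact sep hD hW (hD.1 p hp) h1 rfl
      · exact ⟨rfl, rfl⟩
    have hcyc : ∀ (r p : Pass) (W : List Pass), CycL r p W → r ∈ W ∧ p ∈ W := by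
      rintro r p W (⟨u, v, rfl⟩ | ⟨u, rfl⟩) <;> simp
    obtain ⟨m1, m2⟩ := hcyc _ _ _ h
    obtain ⟨c1, c2⟩ := hmem x hxD m2
    obtain ⟨c3, c4⟩ := hmem y hyD m1
    refine ⟨T, hT, Cq.1, ?_, part m x, part m y, h, c1, c2, c3, c4⟩
    simp only [Tri.code, List.mem_cons, List.not_mem_nil, or_false] at hCT
    rcases hCT with rfl | rfl | rfl <;> simp

end Pool.Agent.Y874.TP2
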