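import Pool.Agent.Y874.TP2.Stm2
import Pool.Agent.Y968.TP.Out

/-! Removal of triple points; adapted from `Y968/TP` (helper968) for project TP2. -/

namespace Pool.Agent.Y874.TP2.OT

open Pool.Agent.Y468.SR Pool.Agent.Y874.TP Pool.Agent.Y968.TP

theorem tr_cm {P P' : List Pass} {m : ℕ → ℕ} {K : ℕ → Prop} {σ ρ : ℕ → ℕ}
    (t : Tr P P' m K σ ρ) (hm : Matching P m) (hc : CM P m)
    (hρ : ∀ d s, Occ P d s → K d → colour (ρ d) = colour d) : CM P' (fun c => ρ (m (σ c))) := by
  rw [matching_iff] at hm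
  intro q hq
  obtain ⟨h1, h2, h3⟩ := t.h1 q.crossing q.isPos ⟨q, hq, rfl, rfl⟩
  obtain ⟨s', h4, h5, h6⟩ := hm _ _ h1
  have h7 := t.h3 _ _ h1 h2
  obtain ⟨q', hq', e1, e2⟩ := h1
  obtain ⟨c1, c2⟩ := hc q' hq'
  rw [e1] at c1 c2
  have e3 : colour (σ q.crossing) = colour q.crossing := by
    rw [← hρ _ _ ⟨q', hq', e1, e2⟩ h2, h3]
  refine ⟨?_, fun h8 h9 => ?_⟩
  · show colour (ρ (m (σ q.crossing))) = colour q.crossing
    rw [hρ _ _ h4 h7, c1, e3]
  · have h10 : m (σ q.crossing) = σ q.crossing := by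
      have := (t.h2 _ _ h4 h7).2
      rw [← this]
      exact congrArg σ h9
    exact c2 (by rw [e3]; exact h8) h10

theorem cfg_col {D O : Code} {T : Tri} {m : ℕ → ℕ} {p r : Pass} {na nb : ℕ} {l2 : List Pass}
    (h : Cfg D O T m p r na nb l2) (hCol : T.Col) (hca : colour na = colour T.c₁)
    (hcb : colour nb = colour T.c₁) (hCM : CM (passes (D ++ (T.code ++ O))) m) (d : ℕ) :
    colour (sub4 T.a₂ T.b₂ (cA T) (cB T) p.crossing r.crossing na nb d) = colour d := by
  have hp : p ∈ passes (D ++ (T.code ++ O)) := by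
    rw [passes_append]
    exact List.mem_append_left _ (h.perm4.symm.subset (by simp))
  have hr : r ∈ passes (D ++ (T.code ++ O)) := by
    rw [passes_append]
    exact List.mem_append_left _ (h.perm4.symm.subset (by simp))
  have k1 := (hCM p hp).1
  have k2 := (hCM r hr).1
  rw [h.hma] at k1
  rw [h.hmb] at k2
  unfold sub4
  split_ifs with h1 h2 h3 h4
  · rw [h1, hCol.1, k1]
  · rw [h2, hCol.2.1, k2]
  · rw [h3, hca]
    unfold cA
    split_ifs
    · exact hCol.2.2.symm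
    · rfl
  · rw [h4, hcb]
    unfold cB
    split_ifs
    · rfl
    · exact hCol.2.2.symm
  · rfl

theorem out_inv : S_OUT := by
  intro D O T m p r C a c na nb hOk hCol hei hD hW hI hC hsplit hma hpo hmb hro hne hnew hca hcb
  obtain ⟨hM, hCM, hN⟩ := hI
  have hp : p ∈ passes D := mem_passes.2 ⟨C, hC, by simp [hsplit]⟩
  have hr : r ∈ passes D := mem_passes.2 ⟨C, hC, by simp [hsplit]⟩
  obtain ⟨l2, h⟩ := exists_cfg hOk hei hD hW hM hp hr hma hpo hmb hro hne hnew
  refine ⟨h.wf', _, h.tr.matching hM, tr_cm h.tr hM hCM (fun d s _ _ => cfg_col h hCol hca hcb hCM d), ?_⟩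
  intro G _ o u hv b
  have h1 := hN G _ _ (h.valid hv) b
  rw [vals_append, vals_append, bv_append, bv_append, h.valsO, h.valsD hC hsplit] at h1
  rw [vals_append, bv_append]
  refine Pool.Agent.Y968.TP.cn_ones ?_ h1
  intro g hg
  simp only [Tri.code, vals, List.map_cons, List.map_nil, h.wi, h.wj, h.wk, bv, List.mem_map, List.mem_filter,
    List.mem_cons, List.not_mem_nil, or_false] at hg
  obtain ⟨⟨g', b'⟩, ⟨h2, -⟩, rfl⟩ := hg
  rcases h2 with h2 | h2 | h2 <;> exact congrArg Prod.fst h2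

end Pool.Agent.Y874.TP2.OT
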