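import Pool.Agent.Y79.TP.WordG
import Pool.Agent.Y874.TP2.Match

/-! Project TP, job THREE: a move of type III is undone at the cost of three circles. -/

set_option autoImplicit false

namespace Pool.Agent.Y874.TP2.TH

open Pool.Agent.Y468.SR Pool.Agent.Y874.TP Pool.Agent.Y79.TP

/-! ### labels -/

theorem nl_some {α : Type} {R : List (α ⊕ ℕ)} {β : ℕ} (h : Sum.inr β ∈ R) :
    ∃ γ, Sum.inr γ ∈ R ∧ nl R = some γ := by
  induction R with
  | nil => exact absurd h (by simp)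
  | cons a R ih =>
    rcases a with x | b
    · obtain ⟨γ, h1, h2⟩ := ih (by simpa using h)
      exact ⟨γ, List.mem_cons_of_mem _ h1, by simpa [nl] using h2⟩
    · exact ⟨b, by simp, by simp [nl]⟩

theorem enc_last {D : Code} {L R : List (Pass ⊕ ℕ)} {p : Pass} (h : enc D = L ++ Sum.inl p :: R) :
    ∃ β, Sum.inr β ∈ R := by
  rcases List.eq_nil_or_concat D with rfl | ⟨D₀, C, rfl⟩
  · simp at h
  · rcases List.eq_nil_or_concat R with rfl | ⟨R₀, a, rfl⟩
    · exfalso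
      have h' : (enc D₀ ++ C.1.map Sum.inl) ++ [Sum.inr C.2] = L ++ [Sum.inl p] := by
        simpa using h
      have := (List.append_inj' h' rfl).2
      simp at this
    · have h' : (enc D₀ ++ C.1.map Sum.inl) ++ [Sum.inr C.2] = (L ++ Sum.inl p :: R₀) ++ [a] := by
        simpa using h
      have h2 := (List.append_inj' h' rfl).2
      simp only [List.cons.injEq, and_true] at h2
      exact ⟨C.2, by simp [← h2]⟩

theorem inr_mem_enc {D : Code} {β : ℕ} (h : Sum.inr β ∈ enc D) : β ∈ D.map Prod.snd := by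
  induction D with
  | nil => simp at h
  | cons C D ih =>
    simp only [enc_cons, List.mem_append, List.mem_map, List.mem_cons] at h
    rcases h with ⟨p, _, hp⟩ | h | h
    · exact absurd hp (by simp)
    · simp only [Sum.inr.injEq] at h
      simp [h]
    · simp only [List.map_cons, List.mem_cons]
      exact Or.inr (ih h)

/-! ### circles -/

/-- value of the circle of a pair of passages -/
def circ {G : Type} [Group G] (o u o' u' : ℕ → G) (P : Pass × Pass) : G :=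
  val o' u' P.2 * val o' u' P.1 * (val o u P.1 * val o u P.2)⁻¹

theorem word4_val {G : Type} [Group G] (o u o' u' : ℕ → G) (τ : Bool) (p₁ p₂ q₁ q₂ p q : Pass)
    (h1 : val o u p₁ = (val o u p)⁻¹) (h2 : val o u p₂ = val o' u' p)
    (h3 : val o u q₁ = (val o u q)⁻¹) (h4 : val o u q₂ = val o' u' q) :
    wval o u (word4 τ p₁ p₂ q₁ q₂) = circ o u o' u' (if τ then (p, q) else (q, p)) := by
  cases τ
  · simp [word4, circ, h1, h2, h3, h4, mul_assoc]
  · simp [word4, circ, h1, h2, h3, h4, mul_assoc]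

theorem shuf2 (e : Bool) (a b c a' b' c' : Prop) :
    ((a ∧ e = true ∧ a') ∨ (b ∧ e = true ∧ b')) ∨
      ((a ∧ e = false ∧ a') ∨ (c ∧ e = true ∧ c')) ∨
      ((b ∧ e = false ∧ b') ∨ (c ∧ e = false ∧ c')) ↔ (a ∧ a') ∨ (b ∧ b') ∨ (c ∧ c') := by
  cases e
  · simp only [Bool.false_eq_true, false_and, and_false, true_and, or_false, false_or]
  · simp only [Bool.true_eq_false, false_and, and_false, true_and, or_false, false_or]
    tauto

theorem six_mem {t m b : Pass × Pass} {x y z : ℕ} {sx sy sz τ μ β : Bool}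
    (ht : t = if τ then (⟨x, true, sx⟩, ⟨y, true, sy⟩) else (⟨y, true, sy⟩, ⟨x, true, sx⟩))
    (hm : m = if μ then (⟨x, false, sx⟩, ⟨z, true, sz⟩) else (⟨z, true, sz⟩, ⟨x, false, sx⟩))
    (hb : b = if β then (⟨y, false, sy⟩, ⟨z, false, sz⟩) else (⟨z, false, sz⟩, ⟨y, false, sy⟩))
    (q : Pass) : q ∈ [t.1, t.2, m.1, m.2, b.1, b.2] ↔ (q.crossing = x ∧ q.isPos = sx) ∨
      (q.crossing = y ∧ q.isPos = sy) ∨ (q.crossing = z ∧ q.isPos = sz) := by
  have et : (q = t.1 ∨ q = t.2) ↔ (q = ⟨x, true, sx⟩ ∨ q = ⟨y, true, sy⟩) := by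
    rw [ht]; cases τ
    · exact or_comm
    · exact Iff.rfl
  have em : (q = m.1 ∨ q = m.2) ↔ (q = ⟨x, false, sx⟩ ∨ q = ⟨z, true, sz⟩) := by
    rw [hm]; cases μ
    · exact or_comm
    · exact Iff.rfl
  have eb : (q = b.1 ∨ q = b.2) ↔ (q = ⟨y, false, sy⟩ ∨ q = ⟨z, false, sz⟩) := by
    rw [hb]; cases β
    · exact or_comm
    · exact Iff.rfl
  have e2 : q ∈ [t.1, t.2, m.1, m.2, b.1, b.2] ↔
      (q = t.1 ∨ q = t.2) ∨ (q = m.1 ∨ q = m.2) ∨ (q = b.1 ∨ q = b.2) := by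
    simp only [List.mem_cons, List.not_mem_nil, or_false, or_assoc]
  rw [e2, et, em, eb]
  clear et em eb e2 ht hm hb t m b
  obtain ⟨c, e, σ⟩ := q
  simp only [Pass.mk.injEq]
  exact shuf2 e _ _ _ _ _ _

theorem mem_lab {A B C E : List (Pass ⊕ ℕ)} {X Y Z : Pass × Pass} {l : ℕ} {D : Code}
    (hD : enc D = A ++ two X.1 X.2 ++ B ++ two Y.1 Y.2 ++ C ++ two Z.1 Z.2 ++ E)
    (h : Sum.inr l ∈ B ∨ Sum.inr l ∈ C ∨ Sum.inr l ∈ E) : l ∈ D.map Prod.snd := by
  refine inr_mem_enc ?_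
  rw [hD]
  simp only [List.mem_append]
  rcases h with h | h | h
  · exact Or.inl (Or.inl (Or.inl (Or.inl (Or.inr h))))
  · exact Or.inl (Or.inl (Or.inr h))
  · exact Or.inr h

theorem mem_swap {α : Type} {a b c d : List α} {X Y Z : α × α} {e : List α} (p : α) :
    (p ∈ a ++ [X.2, X.1] ++ b ++ [Y.2, Y.1] ++ c ++ [Z.2, Z.1] ++ d ++ e) ↔
      p ∈ a ++ [X.1, X.2] ++ b ++ [Y.1, Y.2] ++ c ++ [Z.1, Z.2] ++ d ++ e := by
  have h : ∀ X : α × α, [X.2, X.1].Perm [X.1, X.2] := fun X => List.Perm.swap _ _ _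
  exact List.Perm.mem_iff (((((((((List.Perm.refl a).append (h X)).append (List.Perm.refl b)).append
    (h Y)).append (List.Perm.refl c)).append (h Z)).append (List.Perm.refl d)).append
    (List.Perm.refl e)))

theorem mem_word4 (p : Pass) (e : Bool) (p₁ p₂ q₁ q₂ : Pass) : p ∈ word4 e p₁ p₂ q₁ q₂ ↔
    (p = p₁ ∨ p = p₂) ∨ (p = q₁ ∨ p = q₂) := by
  cases e
  · simp only [word4, Bool.false_eq_true, if_false, List.mem_cons, List.not_mem_nil, or_false]
    constructor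
    · rintro (h | h | h | h)
      · exact Or.inl (Or.inr h)
      · exact Or.inr (Or.inr h)
      · exact Or.inl (Or.inl h)
      · exact Or.inr (Or.inl h)
    · rintro ((h | h) | (h | h))
      · exact Or.inr (Or.inr (Or.inl h))
      · exact Or.inl h
      · exact Or.inr (Or.inr (Or.inr h))
      · exact Or.inr (Or.inl h)
  · simp only [word4, if_true, List.mem_cons, List.not_mem_nil, or_false]
    constructor
    · rintro (h | h | h | h)
      · exact Or.inr (Or.inr h)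
      · exact Or.inl (Or.inr h)
      · exact Or.inr (Or.inl h)
      · exact Or.inl (Or.inl h)
    · rintro ((h | h) | (h | h))
      · exact Or.inr (Or.inr (Or.inr h))
      · exact Or.inr (Or.inl h)
      · exact Or.inr (Or.inr (Or.inl h))
      · exact Or.inl h

theorem two_pass (p : Pass) (c : ℕ) (σ : Bool) : (p.crossing = c ∧ p.isPos = σ) ↔
    (p = ⟨c, true, σ⟩ ∨ p = ⟨c, false, σ⟩) := by
  obtain ⟨d, e, ρ⟩ := p
  cases e <;> simp

theorem shuf (d o a1 a2 b1 b2 c1 c2 a1' a2' b1' b2' c1' c2' : Prop) :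
    (d ∨ ((a1 ∨ a2) ∨ (b1 ∨ b2)) ∨ ((a1' ∨ a2') ∨ (c1 ∨ c2)) ∨ ((b1' ∨ b2') ∨ (c1' ∨ c2')) ∨ o) ↔
    ((d ∨ o) ∨ (a1 ∨ a1') ∨ (a2 ∨ a2') ∨ (b1 ∨ b1') ∨ (b2 ∨ b2') ∨ (c1 ∨ c1') ∨ (c2 ∨ c2')) := by
  constructor
  · rintro (h | ((h | h) | (h | h)) | ((h | h) | (h | h)) | ((h | h) | (h | h)) | h) <;> simp [h]
  · rintro ((h | h) | (h | h) | (h | h) | (h | h) | (h | h) | (h | h) | (h | h)) <;> simp [h]

theorem core {D D' O : Code} {A B C E : List (Pass ⊕ ℕ)} {X Y Z t m b : Pass × Pass}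
    {x y z x₁ x₂ y₁ y₂ z₁ z₂ : ℕ} {sx sy sz τ μ β : Bool} (hxy : x ≠ y) (hyz : y ≠ z) (hxz : x ≠ z)
    (h₁ : xor sx (xor τ μ) = xor sy (xor τ β)) (h₂ : xor sy (xor τ β) = xor sz (xor μ β))
    (ht : t = if τ then (⟨x, true, sx⟩, ⟨y, true, sy⟩) else (⟨y, true, sy⟩, ⟨x, true, sx⟩))
    (hm : m = if μ then (⟨x, false, sx⟩, ⟨z, true, sz⟩) else (⟨z, true, sz⟩, ⟨x, false, sx⟩))
    (hb : b = if β then (⟨y, false, sy⟩, ⟨z, false, sz⟩) else (⟨z, false, sz⟩, ⟨y, false, sy⟩))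
    (hPerm : List.Perm [X, Y, Z] [t, m, b])
    (hD : enc D = A ++ two X.1 X.2 ++ B ++ two Y.1 Y.2 ++ C ++ two Z.1 Z.2 ++ E)
    (hD' : enc D' = A ++ two X.2 X.1 ++ B ++ two Y.2 Y.1 ++ C ++ two Z.2 Z.1 ++ E)
    (hW : WF (passes (D ++ O)))
    (hnd : [x₁, x₂, y₁, y₂, z₁, z₂].Nodup)
    (hnew : ∀ c ∈ [x₁, x₂, y₁, y₂, z₁, z₂], ∀ p ∈ passes (D ++ O), p.crossing ≠ c)
    (cx1 : colour x₁ = colour x) (cx2 : colour x₂ = colour x) (cy1 : colour y₁ = colour y)
    (cy2 : colour y₂ = colour y) (cz1 : colour z₁ = colour z) (cz2 : colour z₂ = colour z)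
    (hI : InvC (D' ++ O)) :
    ∃ T : Tri, T.Ok ∧ T.ta = true ∧ T.tb = true ∧ T.tc = true ∧
    T.a₁ = x₁ ∧ T.a₂ = x₂ ∧ T.b₁ = y₁ ∧ T.b₂ = y₂ ∧ T.c₁ = z₁ ∧ T.c₂ = z₂ ∧
    InvC (D ++ (T.code ++ O)) := by
  obtain ⟨m', hm', hc', hV⟩ := hI
  -- labels
  obtain ⟨β₀, hβ₀⟩ : ∃ β, Sum.inr β ∈ E :=
    enc_last (D := D) (L := A ++ two X.1 X.2 ++ B ++ two Y.1 Y.2 ++ C ++ [Sum.inl Z.1]) (p := Z.2)
      (by rw [hD]; simp [two])
  obtain ⟨lZ, hZm, hZ⟩ := nl_some hβ₀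
  obtain ⟨lY, hYm, hY⟩ := nl_some (R := C ++ (two Z.2 Z.1 ++ E)) (β := β₀) (by simp [hβ₀])
  obtain ⟨lX, hXm, hX⟩ := nl_some (R := B ++ (two Y.2 Y.1 ++ (C ++ (two Z.2 Z.1 ++ E)))) (β := β₀)
    (by simp [hβ₀])
  have mZ : lZ ∈ D.map Prod.snd := inr_mem_enc (by rw [hD]; simp [hZm])
  have mY : lY ∈ D.map Prod.snd := by
    refine mem_lab hD ?_
    simp only [two, List.mem_append, List.mem_cons, reduceCtorEq, List.not_mem_nil, or_false,
      false_or] at hYm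
    exact Or.inr hYm
  have mX : lX ∈ D.map Prod.snd := by
    refine mem_lab hD ?_
    simp only [two, List.mem_append, List.mem_cons, reduceCtorEq, List.not_mem_nil, or_false,
      false_or] at hXm
    exact hXm
  obtain ⟨k', hk1, hk2⟩ := lift_perm hPerm [(X, lX), (Y, lY), (Z, lZ)] rfl
  obtain ⟨li, lj, lk, rfl⟩ : ∃ li lj lk, k' = [(t, li), (m, lj), (b, lk)] := by
    rcases k' with _ | ⟨⟨a1, l1⟩, _ | ⟨⟨a2, l2⟩, _ | ⟨⟨a3, l3⟩, _ | ⟨a4, k⟩⟩⟩⟩
    · simp at hk2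
    · simp at hk2
    · simp at hk2
    · simp only [List.map_cons, List.map_nil, List.cons.injEq, and_true] at hk2
      obtain ⟨rfl, rfl, rfl⟩ := hk2
      exact ⟨_, _, _, rfl⟩
    · simp at hk2
  have hlab : ∀ a ∈ [(X, lX), (Y, lY), (Z, lZ)], a.2 ∈ D.map Prod.snd := by
    intro a ha
    simp only [List.mem_cons, List.not_mem_nil, or_false] at ha
    rcases ha with rfl | rfl | rfl
    · exact mX
    · exact mY
    · exact mZ
  have mli : li ∈ D.map Prod.snd := hlab (t, li) (hk1.mem_iff.2 (by simp))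
  have mlj : lj ∈ D.map Prod.snd := hlab (m, lj) (hk1.mem_iff.2 (by simp))
  have mlk : lk ∈ D.map Prod.snd := hlab (b, lk) (hk1.mem_iff.2 (by simp))
  -- passages
  obtain ⟨rest, hrest⟩ : ∃ rest, rest = pl A ++ pl B ++ pl C ++ pl E ++ passes O := ⟨_, rfl⟩
  have pD : passes D = pl A ++ [X.1, X.2] ++ pl B ++ [Y.1, Y.2] ++ pl C ++ [Z.1, Z.2] ++ pl E := by
    rw [← pl_enc, hD]; simp
  have pD' : passes D' = pl A ++ [X.2, X.1] ++ pl B ++ [Y.2, Y.1] ++ pl C ++ [Z.2, Z.1] ++ pl E := by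
    rw [← pl_enc, hD']; simp
  have pO : passes (D ++ O) = passes D ++ passes O := by simp [passes]
  have pO' : passes (D' ++ O) = passes D' ++ passes O := by simp [passes]
  have hperm : (passes (D ++ O)).Perm ([X.1, X.2, Y.1, Y.2, Z.1, Z.2] ++ rest) := by
    rw [pO, pD, hrest, List.perm_iff_count]
    intro q
    simp only [List.count_append, List.count_cons, List.count_nil]
    omega
  have hkm : ∀ q, q ∈ [X.1, X.2, Y.1, Y.2, Z.1, Z.2] ↔ (q.crossing = x ∧ q.isPos = sx) ∨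
      (q.crossing = y ∧ q.isPos = sy) ∨ (q.crossing = z ∧ q.isPos = sz) := by
    intro q
    have e1 : ([X.1, X.2, Y.1, Y.2, Z.1, Z.2]).Perm [t.1, t.2, m.1, m.2, b.1, b.2] := by
      have := List.Perm.flatMap_right (fun P : Pass × Pass => [P.1, P.2]) hPerm
      simpa using this
    rw [e1.mem_iff]
    exact six_mem ht hm hb q
  have hx : ∀ e, (⟨x, e, sx⟩ : Pass) ∈ passes (D ++ O) := fun e =>
    hperm.mem_iff.2 (List.mem_append.2 (Or.inl ((hkm _).2 (Or.inl ⟨rfl, rfl⟩))))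
  have hy : ∀ e, (⟨y, e, sy⟩ : Pass) ∈ passes (D ++ O) := fun e =>
    hperm.mem_iff.2 (List.mem_append.2 (Or.inl ((hkm _).2 (Or.inr (Or.inl ⟨rfl, rfl⟩)))))
  have hz : ∀ e, (⟨z, e, sz⟩ : Pass) ∈ passes (D ++ O) := fun e =>
    hperm.mem_iff.2 (List.mem_append.2 (Or.inl ((hkm _).2 (Or.inr (Or.inr ⟨rfl, rfl⟩)))))
  have hW2 : WF ([X.1, X.2, Y.1, Y.2, Z.1, Z.2] ++ rest) := WF.perm hperm hW
  have hr : ∀ q ∈ rest, q.crossing ≠ x ∧ q.crossing ≠ y ∧ q.crossing ≠ z := by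
    intro q hq
    refine ⟨?_, ?_, ?_⟩
    · exact hW2.ne_crossing (p := ⟨x, true, sx⟩) ((hkm _).2 (Or.inl ⟨rfl, rfl⟩))
        ((hkm _).2 (Or.inl ⟨rfl, rfl⟩)) hq
    · exact hW2.ne_crossing (p := ⟨y, true, sy⟩) ((hkm _).2 (Or.inr (Or.inl ⟨rfl, rfl⟩)))
        ((hkm _).2 (Or.inr (Or.inl ⟨rfl, rfl⟩))) hq
    · exact hW2.ne_crossing (p := ⟨z, true, sz⟩) ((hkm _).2 (Or.inr (Or.inr ⟨rfl, rfl⟩)))
        ((hkm _).2 (Or.inr (Or.inr ⟨rfl, rfl⟩))) hq
  have h6 : ∀ p ∈ passes (D ++ O), (p.crossing = x → p.isPos = sx) ∧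
      (p.crossing = y → p.isPos = sy) ∧ (p.crossing = z → p.isPos = sz) := by
    intro p hp
    rcases List.mem_append.1 (hperm.mem_iff.1 hp) with hp | hp
    · rcases (hkm p).1 hp with ⟨a1, a2⟩ | ⟨a1, a2⟩ | ⟨a1, a2⟩
      · exact ⟨fun _ => a2, fun h => absurd (a1.symm.trans h) hxy,
          fun h => absurd (a1.symm.trans h) hxz⟩
      · exact ⟨fun h => absurd (h.symm.trans a1) hxy, fun _ => a2,
          fun h => absurd (a1.symm.trans h) hyz⟩
      · exact ⟨fun h => absurd (h.symm.trans a1) hxz, fun h => absurd (h.symm.trans a1) hyz,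
          fun _ => a2⟩
    · obtain ⟨a1, a2, a3⟩ := hr p hp
      exact ⟨fun h => absurd h a1, fun h => absurd h a2, fun h => absurd h a3⟩
  have hP : ∀ p, p ∈ passes (D' ++ O) ↔ p ∈ passes (D ++ O) := by
    intro p
    rw [pO, pO', pD, pD']
    exact mem_swap p
  -- the triple point
  obtain ⟨T, hTd⟩ : ∃ T : Tri, T = ⟨x₁, x₂, y₁, y₂, z₁, z₂, true, true, true, sx, sy, sz, τ, μ, β,
    li, lj, lk⟩ := ⟨_, rfl⟩
  have hN : ∀ p, p ∈ passes (D ++ (T.code ++ O)) ↔ p ∈ passes (D ++ O) ∨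
      (p.crossing = x₁ ∧ p.isPos = !sx) ∨ (p.crossing = x₂ ∧ p.isPos = sx) ∨
      (p.crossing = y₁ ∧ p.isPos = !sy) ∨ (p.crossing = y₂ ∧ p.isPos = sy) ∨
      (p.crossing = z₁ ∧ p.isPos = !sz) ∨ (p.crossing = z₂ ∧ p.isPos = sz) := by
    intro p
    have e1 : passes (D ++ (T.code ++ O)) = passes D ++ (T.wi ++ (T.wj ++ (T.wk ++ passes O))) := by
      simp [passes, Tri.code]
    rw [e1, pO]
    simp only [List.mem_append, Tri.wi, Tri.wj, Tri.wk, mem_word4, two_pass]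
    rw [hTd]
    simp only [Tri.pa₁, Tri.pa₂, Tri.pb₁, Tri.pb₂, Tri.pc₁, Tri.pc₂, Pass.mate, Bool.not_true]
    exact shuf _ _ _ _ _ _ _ _ _ _ _ _ _ _
  obtain ⟨M1, M2, M3, M4, M5, M6, M7, M8⟩ := match_new (N := passes (D ++ (T.code ++ O)))
    hxy hyz hxz hP h6 hx hy hz hnd hnew cx1 cx2 cy1 cy2 cz1 cz2 hm' hc' hN
  have nx1 : x₁ ≠ x := fun h => hnew x₁ (by simp) _ (hx true) h.symm
  have ny1 : y₁ ≠ y := fun h => hnew y₁ (by simp) _ (hy true) h.symm
  have nz1 : z₁ ≠ z := fun h => hnew z₁ (by simp) _ (hz true) h.symm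
  refine ⟨T, ?_, by rw [hTd], by rw [hTd], by rw [hTd], by rw [hTd], by rw [hTd], by rw [hTd],
    by rw [hTd], by rw [hTd], by rw [hTd], _, M1, M2, ?_⟩
  · rw [hTd]
    simp only [Tri.Ok]
    refine ⟨Or.inl trivial, ?_, ?_⟩
    · revert h₁ h₂
      cases sx <;> cases sy <;> cases sz <;> cases τ <;> cases μ <;> cases β <;> simp
    · revert h₁ h₂
      cases sx <;> cases sy <;> cases sz <;> cases τ <;> cases μ <;> cases β <;> simp
  intro G _ o u hv bb
  obtain ⟨s, hs⟩ : ∃ s, s = sb x y z x₂ y₂ z₂ := ⟨_, rfl⟩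
  rw [← hs] at M3 M5
  have sx0 : s x = x₂ := by rw [hs]; simp [sb]
  have sy0 : s y = y₂ := by rw [hs]; simp [sb, hxy.symm]
  have sz0 : s z = z₂ := by rw [hs]; simp [sb, hxz.symm, hyz.symm]
  obtain ⟨o', ho'⟩ : ∃ o' : ℕ → G, o' = fun c => o (s c) := ⟨_, rfl⟩
  obtain ⟨u', hu'⟩ : ∃ u' : ℕ → G, u' = fun c => u (s c) := ⟨_, rfl⟩
  have hv' : Valid (passes (D' ++ O)) m' o' u' := by
    intro p hp
    have hp1 := (hP p).1 hp
    have h := hv _ (M4 p hp1)
    simp only [sP] at h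
    rw [← hs, M3 p hp1] at h
    rw [ho', hu']
    refine ⟨fun h' => h.1 (by rw [h']), fun h' => h.2 ?_⟩
    have := M5 p hp1 h'
    rwa [M3 p hp1] at this
  have h0 := hV G o' u' hv' bb
  have hag : ∀ q ∈ rest, val o' u' q = val o u q := by
    intro q hq
    obtain ⟨a1, a2, a3⟩ := hr q hq
    have : s q.crossing = q.crossing := by rw [hs]; simp [sb, a1, a2, a3]
    simp only [val, ho', hu', this]
  have hagl : ∀ F : List (Pass ⊕ ℕ), (∀ q ∈ pl F, q ∈ rest) →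
      F.map (Sum.map (val o' u') id) = F.map (Sum.map (val o u) id) := by
    intro F
    induction F with
    | nil => intro _; rfl
    | cons a F ih =>
      intro h
      rcases a with q | c
      · simp only [List.map_cons, Sum.map_inl]
        rw [hag q (h q (by simp)), ih fun r hr' => h r (by simp [hr'])]
      · simp only [List.map_cons, Sum.map_inr]
        rw [ih fun r hr' => h r (by simpa using hr')]
  have hA := hagl A (fun q hq => by rw [hrest]; simp [hq])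
  have hB := hagl B (fun q hq => by rw [hrest]; simp [hq])
  have hC := hagl C (fun q hq => by rw [hrest]; simp [hq])
  have hE := hagl E (fun q hq => by rw [hrest]; simp [hq])
  have hvO : vals o' u' O = vals o u O := by
    have e1 : ∀ o u : ℕ → G, vals o u O = ev o u (enc O) 1 := fun o u => (ev_enc o u O).symm
    rw [e1, e1]
    refine ev_congr _ (fun p hp => hag p ?_) 1
    rw [pl_enc] at hp
    rw [hrest]
    simp [hp]
  have hvD : vals o u D = eg ((enc D).map (Sum.map (val o u) id)) 1 := by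
    rw [← ev_eq_eg]; exact (ev_enc o u D).symm
  have hvD' : vals o' u' D' = eg ((enc D').map (Sum.map (val o' u') id)) 1 := by
    rw [← ev_eq_eg]; exact (ev_enc o' u' D').symm
  rw [vals_append, bv_append, hvO, hvD', hD'] at h0
  simp only [List.map_append, hA, hB, hC, hE, List.append_assoc] at h0
  have htwo : ∀ (o u : ℕ → G) (p q : Pass), (two p q).map (Sum.map (val o u) id) =
      [Sum.inl (val o u p), Sum.inl (val o u q)] := by
    intro o u p q; simp [two]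
  simp only [htwo] at h0
  obtain ⟨wA, ewA⟩ : ∃ w, w = A.map (Sum.map (val o u) id) := ⟨_, rfl⟩
  obtain ⟨wB, ewB⟩ : ∃ w, w = B.map (Sum.map (val o u) id) := ⟨_, rfl⟩
  obtain ⟨wC, ewC⟩ : ∃ w, w = C.map (Sum.map (val o u) id) := ⟨_, rfl⟩
  obtain ⟨wE, ewE⟩ : ∃ w, w = E.map (Sum.map (val o u) id) := ⟨_, rfl⟩
  rw [← ewA, ← ewB, ← ewC, ← ewE] at h0
  have nE : nl wE = some lZ := by rw [ewE, nl_map]; exact hZ
  have nC : nl (wC ++ ([Sum.inl (val o' u' Z.2), Sum.inl (val o' u' Z.1)] ++ wE)) = some lY := by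
    rw [← hY, ← nl_map (val o' u') (C ++ (two Z.2 Z.1 ++ E)), List.map_append, List.map_append,
      htwo, hC, hE, ewC, ewE]
  have nB : nl (wB ++ ([Sum.inl (val o' u' Y.2), Sum.inl (val o' u' Y.1)] ++
      (wC ++ ([Sum.inl (val o' u' Z.2), Sum.inl (val o' u' Z.1)] ++ wE)))) = some lX := by
    rw [← hX, ← nl_map (val o' u') (B ++ (two Y.2 Y.1 ++ (C ++ (two Z.2 Z.1 ++ E)))),
      List.map_append, List.map_append, List.map_append, List.map_append, htwo, htwo, hB, hC, hE,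
      ewB, ewC, ewE]
  have g1 := pair wA _ _ _ (val o u X.1) (val o u X.2) nB _ bb h0
  have r1 : wA ++ ([Sum.inl (val o u X.1), Sum.inl (val o u X.2)] ++ (wB ++
      ([Sum.inl (val o' u' Y.2), Sum.inl (val o' u' Y.1)] ++
      (wC ++ ([Sum.inl (val o' u' Z.2), Sum.inl (val o' u' Z.1)] ++ wE))))) =
      (wA ++ ([Sum.inl (val o u X.1), Sum.inl (val o u X.2)] ++ wB)) ++
      ([Sum.inl (val o' u' Y.2), Sum.inl (val o' u' Y.1)] ++
      (wC ++ ([Sum.inl (val o' u' Z.2), Sum.inl (val o' u' Z.1)] ++ wE))) := by simp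
  rw [r1] at g1
  have g2 := pair _ _ _ _ (val o u Y.1) (val o u Y.2) nC _ bb g1
  have r2 : (wA ++ ([Sum.inl (val o u X.1), Sum.inl (val o u X.2)] ++ wB)) ++
      ([Sum.inl (val o u Y.1), Sum.inl (val o u Y.2)] ++
      (wC ++ ([Sum.inl (val o' u' Z.2), Sum.inl (val o' u' Z.1)] ++ wE))) =
      (wA ++ ([Sum.inl (val o u X.1), Sum.inl (val o u X.2)] ++ (wB ++
      ([Sum.inl (val o u Y.1), Sum.inl (val o u Y.2)] ++ wC)))) ++
      ([Sum.inl (val o' u' Z.2), Sum.inl (val o' u' Z.1)] ++ wE) := by simp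
  rw [r2] at g2
  have g3 := pair _ _ _ _ (val o u Z.1) (val o u Z.2) nE _ bb g2
  have r3 : (wA ++ ([Sum.inl (val o u X.1), Sum.inl (val o u X.2)] ++ (wB ++
      ([Sum.inl (val o u Y.1), Sum.inl (val o u Y.2)] ++ wC)))) ++
      ([Sum.inl (val o u Z.1), Sum.inl (val o u Z.2)] ++ wE) =
      (enc D).map (Sum.map (val o u) id) := by
    rw [hD]
    simp only [List.map_append, htwo, ← ewA, ← ewB, ← ewC, ← ewE, List.append_assoc]
  rw [r3, ← hvD] at g3
  rw [vals_append, vals_append, bv_append, bv_append]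
  -- the values of the circles
  have vx : ∀ e σ σ', val o u ⟨x₁, e, σ⟩ = (val o u ⟨x, e, σ'⟩)⁻¹ := by
    intro e σ σ'
    have h := (hv ⟨x, true, sx⟩ ((hN _).2 (Or.inl (hx true)))).2 (by simp only; rw [M6]; exact nx1)
    simp only [M6] at h
    cases e
    · simp [val, h.2]
    · simp [val, h.1]
  have vy : ∀ e σ σ', val o u ⟨y₁, e, σ⟩ = (val o u ⟨y, e, σ'⟩)⁻¹ := by
    intro e σ σ'
    have h := (hv ⟨y, true, sy⟩ ((hN _).2 (Or.inl (hy true)))).2 (by simp only; rw [M7]; exact ny1)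
    simp only [M7] at h
    cases e
    · simp [val, h.2]
    · simp [val, h.1]
  have vz : ∀ e σ σ', val o u ⟨z₁, e, σ⟩ = (val o u ⟨z, e, σ'⟩)⁻¹ := by
    intro e σ σ'
    have h := (hv ⟨z, true, sz⟩ ((hN _).2 (Or.inl (hz true)))).2 (by simp only; rw [M8]; exact nz1)
    simp only [M8] at h
    cases e
    · simp [val, h.2]
    · simp [val, h.1]
  have wx : ∀ e σ σ', val o u ⟨x₂, e, σ⟩ = val o' u' ⟨x, e, σ'⟩ := by
    intro e σ σ'
    simp [val, ho', hu', sx0]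
  have wy : ∀ e σ σ', val o u ⟨y₂, e, σ⟩ = val o' u' ⟨y, e, σ'⟩ := by
    intro e σ σ'
    simp [val, ho', hu', sy0]
  have wz : ∀ e σ σ', val o u ⟨z₂, e, σ⟩ = val o' u' ⟨z, e, σ'⟩ := by
    intro e σ σ'
    simp [val, ho', hu', sz0]
  have hcode : vals o u T.code = [(t, li), (m, lj), (b, lk)].map
      (fun a : (Pass × Pass) × ℕ => (circ o u o' u' a.1, a.2)) := by
    have c1 : wval o u T.wi = circ o u o' u' t := by
      rw [ht, hTd]
      exact word4_val o u o' u' τ _ _ _ _ _ _ (vx _ _ _) (wx _ _ _) (vy _ _ _) (wy _ _ _)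
    have c2 : wval o u T.wj = circ o u o' u' m := by
      rw [hm, hTd]
      exact word4_val o u o' u' μ _ _ _ _ _ _ (vx _ _ _) (wx _ _ _) (vz _ _ _) (wz _ _ _)
    have c3 : wval o u T.wk = circ o u o' u' b := by
      rw [hb, hTd]
      exact word4_val o u o' u' β _ _ _ _ _ _ (vy _ _ _) (wy _ _ _) (vz _ _ _) (wz _ _ _)
    have e1 : vals o u T.code = [(wval o u T.wi, T.li), (wval o u T.wj, T.lj),
      (wval o u T.wk, T.lk)] := rfl
    rw [e1, c1, c2, c3, hTd]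
    rfl
  have hfin : (bv (vals o u T.code) bb).Perm (bv [(circ o u o' u' Z, lZ)] bb ++
      (bv [(circ o u o' u' Y, lY)] bb ++ bv [(circ o u o' u' X, lX)] bb)) := by
    rw [hcode, ← bv_append, ← bv_append]
    refine bv_perm ((hk1.map _).symm.trans ?_) bb
    simp only [List.map_cons, List.map_nil, List.cons_append, List.nil_append]
    exact (List.Perm.swap _ _ _).trans (((List.Perm.swap _ _ _).cons _).trans
      (List.Perm.swap _ _ _))
  refine CN.perm ?_ g3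
  refine List.Perm.append_left _ ?_
  rw [← List.append_assoc, ← List.append_assoc]
  refine List.Perm.append_right _ ?_
  rw [List.append_assoc]
  exact hfin.symm

/-- TP-THREE -/
theorem three : S_THREE := by
  intro D D' O A B C E X Y Z t m b x y z x₁ x₂ y₁ y₂ z₁ z₂ hT hPerm hD hD' hW hnd hnew cx1 cx2 cy1
    cy2 cz1 cz2 hI
  cases hT with
  | mk sx sy sz τ μ β hxy hyz hxz h₁ h₂ =>
    exact core hxy hyz hxz h₁ h₂ rfl rfl rfl hPerm hD hD' hW hnd hnew cx1 cx2 cy1 cy2 cz1 cz2 hI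

end Pool.Agent.Y874.TP2.TH
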