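import Pool.Agent.Y874.TP2.Reduce
import Pool.Agent.Y874.TP2.JuncCode
import Pool.Agent.Y874.TP2.Reid
import Pool.Agent.Y874.TP2.Cut
import Pool.Agent.Y874.TP2.Ren
import Pool.Agent.Y874.TP2.Three
import Pool.Agent.Y874.TP2.Out
import Pool.Agent.Y333.TP.Mid
import Pool.Agent.Y210.TP.Move
import Pool.Agent.Y514.TP.OutP

/-! Project TP2: assembly. -/

namespace Pool.Agent.Y874.TP2

open Pool.Agent.Y468.SR

theorem movie_of_smovie {D : Code} {T : List (Sym2 (ℕ × Bool))} (h : SMovie D T)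
    (hn : (D.map Prod.snd).Nodup) : Movie true false D [] :=
  ribbon_of_smovie RD.reid RN.ren TH.three CT.cut OT.out_inv Pool.Agent.Y333.TP.mid_planar
    Pool.Agent.Y514.TP.out_planar Pool.Agent.Y210.TP.move junc h hn

end Pool.Agent.Y874.TP2
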