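import Pool.Agent.Y874.TP2.Pic

/-! Pictures: elementary lemmas. -/

namespace Pool.Agent.Y874.TP2

variable {X K : Type}

theorem om_zero {f g : X → ℤ} {W : List X} (h : ∀ d ∈ W, f d = 0) : om f g W = 0 := by
  induction W with
  | nil => rfl
  | cons x W ih =>
    have h1 : (W.map f).sum = 0 := by
      refine List.sum_eq_zero fun y hy => ?_
      obtain ⟨d, hd, rfl⟩ := List.mem_map.1 hy
      exact h d (by simp [hd])
    simp only [om, ih fun d hd => h d (by simp [hd]), h x (by simp), h1]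
    ring

theorem om_swap {f g : X → ℤ} {W : List X} : om g f W = -om f g W := by
  induction W with
  | nil => simp [om]
  | cons x W ih => simp only [om, ih]; ring

theorem om_zero' {f g : X → ℤ} {W : List X} (h : ∀ d ∈ W, g d = 0) : om f g W = 0 := by
  rw [om_swap, om_zero h, neg_zero]

theorem om_append {f g : X → ℤ} (A B : List X) : om f g (A ++ B) =
    om f g A + om f g B + (A.map f).sum * (B.map g).sum - (A.map g).sum * (B.map f).sum := by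
  induction A with
  | nil => simp [om]
  | cons x A ih =>
    simp only [List.cons_append, om, ih, List.map_append, List.sum_append, List.map_cons,
      List.sum_cons]
    ring

theorem sum_zero {f : X → ℤ} {W : List X} (h : ∀ d ∈ W, f d = 0) : (W.map f).sum = 0 := by
  refine List.sum_eq_zero fun y hy => ?_
  obtain ⟨d, hd, rfl⟩ := List.mem_map.1 hy
  exact h d hd

theorem om_key {f g : X → ℤ} {A M C : List X} {x z : X} (hA : ∀ d ∈ A, f d = 0)
    (hM : ∀ d ∈ M, f d = 0) (hC : ∀ d ∈ C, f d = 0) (hz : f z = -f x) :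
    om f g (A ++ x :: (M ++ z :: C)) = f x * (2 * (M.map g).sum + g x + g z) := by
  rw [om_append, om, om_append, om]
  simp only [om_zero hA, om_zero hM, om_zero hC, List.map_cons, List.map_append, List.sum_cons,
    List.sum_append, sum_zero hA, sum_zero hM, sum_zero hC, hz]
  ring

theorem om_reverse {f g : X → ℤ} (W : List X) : om f g W.reverse = -om f g W := by
  induction W with
  | nil => simp [om]
  | cons x W ih =>
    rw [List.reverse_cons, om_append, ih]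
    simp only [om, List.map_cons, List.map_nil, List.sum_cons, List.sum_nil, List.map_reverse,
      List.sum_reverse]
    ring

theorem sum_single {α : Type} (F : α → ℤ) (l₁ l₂ : List α) (a : α) (h₁ : ∀ b ∈ l₁, F b = 0)
    (h₂ : ∀ b ∈ l₂, F b = 0) : ((l₁ ++ a :: l₂).map F).sum = F a := by
  rw [List.map_append, List.sum_append, List.map_cons, List.sum_cons, sum_zero h₁, sum_zero h₂]
  ring

theorem flatten_other {B₁ B₂ : List (List X)} {W : List X}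
    (hn : (B₁ ++ W :: B₂).flatten.Nodup) : ∀ W', W' ∈ B₁ ∨ W' ∈ B₂ → ∀ d ∈ W', d ∉ W := by
  rw [List.flatten_append, List.flatten_cons, List.nodup_append, List.nodup_append] at hn
  obtain ⟨-, ⟨-, -, h3⟩, h4⟩ := hn
  rintro W' (h | h) d hd hdW
  · exact h4 d (List.mem_flatten.2 ⟨W', h, hd⟩) d (by simp [hdW]) rfl
  · exact h3 d hdW d (List.mem_flatten.2 ⟨W', h, hd⟩) rfl

theorem cycL_reverse {r p : X} {W : List X} (h : CycL r p W.reverse) : CycL p r W := by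
  rcases h with ⟨u, v, h⟩ | ⟨u, h⟩
  · left
    refine ⟨v.reverse, u.reverse, ?_⟩
    rw [← W.reverse_reverse, h]; simp
  · right
    refine ⟨u.reverse, ?_⟩
    rw [← W.reverse_reverse, h]; simp

theorem Opp.symm {q : List X} {a b : X} (h : Opp q a b) : Opp q b a := by
  obtain ⟨x₀, x₁, x₂, x₃, hq, h⟩ := h
  refine ⟨x₀, x₁, x₂, x₃, hq, ?_⟩
  rcases h with ⟨h1, h2⟩ | ⟨h1, h2⟩ | ⟨h1, h2⟩ | ⟨h1, h2⟩
  · exact Or.inr (Or.inl ⟨h2, h1⟩)
  · exact Or.inl ⟨h2, h1⟩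
  · exact Or.inr (Or.inr (Or.inr ⟨h2, h1⟩))
  · exact Or.inr (Or.inr (Or.inl ⟨h2, h1⟩))

theorem Opp.mem {q : List X} {a b : X} (h : Opp q a b) : a ∈ q := by
  obtain ⟨x₀, x₁, x₂, x₃, rfl, h⟩ := h
  rcases h with ⟨rfl, rfl⟩ | ⟨rfl, rfl⟩ | ⟨rfl, rfl⟩ | ⟨rfl, rfl⟩ <;> simp

theorem Opp.reverse {q : List X} {a b : X} (h : Opp q a b) : Opp q.reverse a b := by
  obtain ⟨x₀, x₁, x₂, x₃, rfl, h⟩ := h
  refine ⟨x₃, x₂, x₁, x₀, by simp, ?_⟩
  rcases h with ⟨h1, h2⟩ | ⟨h1, h2⟩ | ⟨h1, h2⟩ | ⟨h1, h2⟩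
  · exact Or.inr (Or.inr (Or.inr ⟨h1, h2⟩))
  · exact Or.inr (Or.inr (Or.inl ⟨h1, h2⟩))
  · exact Or.inr (Or.inl ⟨h1, h2⟩)
  · exact Or.inl ⟨h1, h2⟩

namespace Pic
variable {P : Pic X K}

theorem Good.nodupQ (hG : P.Good) {q : List X} (hq : q ∈ P.Q) : q.Nodup := by
  have := (List.nodup_append.1 hG.nd).2.1
  exact (List.nodup_flatten.1 this).1 q hq

theorem Good.nodupB (hG : P.Good) {W : List X} (hW : W ∈ P.B) : W.Nodup := by
  have := (List.nodup_append.1 hG.nd).1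
  exact (List.nodup_flatten.1 this).1 W hW

theorem Good.disj (hG : P.Good) {x : X} {q : List X} (hq : q ∈ P.Q) (hx : x ∈ q) :
    x ∉ P.B.flatten := fun h =>
  (List.nodup_append.1 hG.nd).2.2 x h x (List.mem_flatten.2 ⟨q, hq, hx⟩) rfl

theorem dartQ {x : X} {q : List X} (hq : q ∈ P.Q) (hx : x ∈ q) : P.dart x :=
  Or.inr (List.mem_flatten.2 ⟨q, hq, hx⟩)

theorem dartB {x : X} {W : List X} (hW : W ∈ P.B) (hx : x ∈ W) : P.dart x :=
  Or.inl (List.mem_flatten.2 ⟨W, hW, hx⟩)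

theorem Good.uniqQ (hG : P.Good) {x : X} {q q' : List X} (hq : q ∈ P.Q) (hq' : q' ∈ P.Q)
    (hx : x ∈ q) (hx' : x ∈ q') : q = q' := by
  have hn := (List.nodup_append.1 hG.nd).2.1
  obtain ⟨Q₁, Q₂, h⟩ := List.append_of_mem hq
  rw [h] at hn hq'
  by_contra hne
  rcases List.mem_append.1 hq' with h1 | h1
  · exact flatten_other hn q' (Or.inl h1) x hx' hx
  · rcases List.mem_cons.1 h1 with h1 | h1
    · exact hne h1.symm
    · exact flatten_other hn q' (Or.inr h1) x hx' hx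

theorem Good.sg0 (hG : P.Good) {x : X} (hx : P.dart x) : P.sg x ≠ 0 := by
  rcases hG.sg1 x hx with h | h <;> rw [h] <;> decide

theorem Good.sgsg (hG : P.Good) {x : X} (hx : P.dart x) : P.sg x * P.sg x = 1 := by
  rcases hG.sg1 x hx with h | h <;> rw [h] <;> decide

theorem Good.σne (hG : P.Good) {x : X} (hx : P.dart x) : P.σ x ≠ x := by
  intro h
  have := hG.sgσ x hx
  rw [h] at this
  have := hG.sg0 hx
  omega

/-- the four darts of a crossing of curves -/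
theorem Good.frame (hG : P.Good) {q : List X} (hq : q ∈ P.Q) {a : X} (ha : a ∈ q) :
    ∃ a' b b', Opp q a a' ∧ Opp q b b' ∧ P.κ a' = P.κ a ∧ P.κ b' = P.κ b ∧ P.κ b ≠ P.κ a ∧
      P.sg a' = -P.sg a ∧ P.sg b' = -P.sg b ∧ ∀ e ∈ q, e = a ∨ e = a' ∨ e = b ∨ e = b' := by
  obtain ⟨x₀, x₁, x₂, x₃, rfl, h1, h2, h3, h4, h5⟩ := hG.four q hq
  simp only [List.mem_cons, List.not_mem_nil, or_false] at ha
  rcases ha with rfl | rfl | rfl | rfl
  · exact ⟨x₂, x₁, x₃, ⟨_, _, _, _, rfl, Or.inl ⟨rfl, rfl⟩⟩,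
      ⟨_, _, _, _, rfl, Or.inr (Or.inr (Or.inl ⟨rfl, rfl⟩))⟩, h3, h4, Ne.symm h5, h1, h2,
      fun e he => by simp only [List.mem_cons, List.not_mem_nil, or_false] at he; tauto⟩
  · exact ⟨x₃, x₀, x₂, ⟨_, _, _, _, rfl, Or.inr (Or.inr (Or.inl ⟨rfl, rfl⟩))⟩,
      ⟨_, _, _, _, rfl, Or.inl ⟨rfl, rfl⟩⟩, h4, h3, h5, h2, h1,
      fun e he => by simp only [List.mem_cons, List.not_mem_nil, or_false] at he; tauto⟩
  · exact ⟨x₀, x₁, x₃, ⟨_, _, _, _, rfl, Or.inr (Or.inl ⟨rfl, rfl⟩)⟩,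
      ⟨_, _, _, _, rfl, Or.inr (Or.inr (Or.inl ⟨rfl, rfl⟩))⟩, h3.symm, h4,
      fun h => h5 (by rw [h, h3]), by rw [h1]; ring, h2,
      fun e he => by simp only [List.mem_cons, List.not_mem_nil, or_false] at he; tauto⟩
  · exact ⟨x₁, x₀, x₂, ⟨_, _, _, _, rfl, Or.inr (Or.inr (Or.inr ⟨rfl, rfl⟩))⟩,
      ⟨_, _, _, _, rfl, Or.inl ⟨rfl, rfl⟩⟩, h4.symm, h3, fun h => h5 (by rw [h, h4]),
      by rw [h2]; ring, h1,
      fun e he => by simp only [List.mem_cons, List.not_mem_nil, or_false] at he; tauto⟩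

theorem Good.oppU (hG : P.Good) {q q' : List X} {a b b' : X} (hq : q ∈ P.Q) (hq' : q' ∈ P.Q)
    (h : Opp q a b) (h' : Opp q' a b') : b = b' := by
  have := hG.uniqQ hq hq' h.mem h'.mem
  subst this
  have hn := hG.nodupQ hq
  obtain ⟨x₀, x₁, x₂, x₃, rfl, h⟩ := h
  obtain ⟨y₀, y₁, y₂, y₃, e, h'⟩ := h'
  simp only [List.cons.injEq, and_true] at e
  obtain ⟨rfl, rfl, rfl, rfl⟩ := e
  simp only [List.nodup_cons, List.mem_cons, List.not_mem_nil, or_false, not_or,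
    not_false_eq_true, List.nodup_nil, and_true] at hn
  obtain ⟨⟨n1, n2, n3⟩, ⟨n4, n5⟩, n6⟩ := hn
  rcases h with ⟨rfl, rfl⟩ | ⟨rfl, rfl⟩ | ⟨rfl, rfl⟩ | ⟨rfl, rfl⟩ <;>
  rcases h' with ⟨h1, rfl⟩ | ⟨h1, rfl⟩ | ⟨h1, rfl⟩ | ⟨h1, rfl⟩ <;>
  first
  | rfl
  | exact absurd h1 n1
  | exact absurd h1 n2
  | exact absurd h1 n3
  | exact absurd h1 n4
  | exact absurd h1 n5
  | exact absurd h1 n6
  | exact absurd h1.symm n1
  | exact absurd h1.symm n2
  | exact absurd h1.symm n3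
  | exact absurd h1.symm n4
  | exact absurd h1.symm n5
  | exact absurd h1.symm n6

theorem Good.oppF (hG : P.Good) {q : List X} {a b : X} (hq : q ∈ P.Q) (h : Opp q a b) :
    P.κ b = P.κ a ∧ P.sg b = -P.sg a := by
  obtain ⟨a', c, c', h1, -, h2, -, -, h3, -⟩ := hG.frame hq h.mem
  have := hG.oppU hq hq h h1
  subst this
  exact ⟨h2, h3⟩

open Classical in
/-- the flow along a set -/
noncomputable def fl (P : Pic X K) (S : Set X) (x : X) : ℤ := if x ∈ S then P.sg x else 0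

theorem fl_mem {S : Set X} {x : X} (h : x ∈ S) : P.fl S x = P.sg x := by
  unfold fl; rw [if_pos h]

theorem fl_not {S : Set X} {x : X} (h : x ∉ S) : P.fl S x = 0 := by
  unfold fl; rw [if_neg h]

theorem Closed.σiff (hG : P.Good) {S : Set X} (hS : ∀ d ∈ S, P.σ d ∈ S) {x : X}
    (hx : P.dart x) : P.σ x ∈ S ↔ x ∈ S :=
  ⟨fun h => by have := hS _ h; rwa [hG.invσ x hx] at this, fun h => hS x h⟩

theorem fl_σ (hG : P.Good) {S : Set X} (hS : ∀ d ∈ S, P.σ d ∈ S) {x : X} (hx : P.dart x) :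
    P.fl S (P.σ x) = -P.fl S x := by
  by_cases h : x ∈ S
  · rw [fl_mem h, fl_mem (hS x h), hG.sgσ x hx]
  · rw [fl_not h, fl_not (fun h' => h ((Closed.σiff hG hS hx).1 h')), neg_zero]

theorem sum_q {f : X → ℤ} {q : List X} {a a' b b' : X} (h : Opp q a a') (h' : Opp q b b')
    (hn : q.Nodup) (hab : a ≠ b) (hab' : a ≠ b') : (q.map f).sum = f a + f a' + f b + f b' := by
  obtain ⟨x₀, x₁, x₂, x₃, rfl, h⟩ := h
  obtain ⟨y₀, y₁, y₂, y₃, e, h'⟩ := h'
  simp only [List.cons.injEq, and_true] at e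
  obtain ⟨rfl, rfl, rfl, rfl⟩ := e
  rcases h with ⟨rfl, rfl⟩ | ⟨rfl, rfl⟩ | ⟨rfl, rfl⟩ | ⟨rfl, rfl⟩ <;>
  rcases h' with ⟨rfl, rfl⟩ | ⟨rfl, rfl⟩ | ⟨rfl, rfl⟩ | ⟨rfl, rfl⟩ <;>
  first
  | exact absurd rfl hab
  | exact absurd rfl hab'
  | (simp only [List.map_cons, List.map_nil, List.sum_cons, List.sum_nil]; ring)

theorem fl_flow (hG : P.Good) {S : Set X} (hS : P.Closed S) : P.Flow (P.fl S) := by
  refine ⟨fun x hx => fl_σ hG hS.2.1 hx, fun q hq => ?_⟩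
  obtain ⟨x₀, x₁, x₂, x₃, rfl, h1, h2, h3, h4, h5⟩ := hG.four q hq
  have o1 : Opp [x₀, x₁, x₂, x₃] x₀ x₂ := ⟨_, _, _, _, rfl, Or.inl ⟨rfl, rfl⟩⟩
  have o2 : Opp [x₀, x₁, x₂, x₃] x₁ x₃ := ⟨_, _, _, _, rfl, Or.inr (Or.inr (Or.inl ⟨rfl, rfl⟩))⟩
  have k : ∀ a b, Opp [x₀, x₁, x₂, x₃] a b → P.sg b = -P.sg a → P.fl S b = -P.fl S a := by
    intro a b o hs
    by_cases h : a ∈ S
    · rw [fl_mem h, fl_mem (hS.2.2 _ hq _ _ o h), hs]
    · rw [fl_not h, fl_not (fun h' => h (hS.2.2 _ hq _ _ o.symm h')), neg_zero]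
  simp only [List.map_cons, List.map_nil, List.sum_cons, List.sum_nil, k _ _ o1 h1, k _ _ o2 h2]
  ring

/-- the identity for a flow with two boundary darts -/
theorem ident (hG : P.Good) {f g : X → ℤ} (hf : P.Flow f) (hg : P.Flow g) {A M C : List X}
    {x z : X} (hW : A ++ x :: (M ++ z :: C) ∈ P.B)
    (hfb : ∀ d ∈ P.B.flatten, d ≠ x → d ≠ z → f d = 0) (hz : f z = -f x) :
    f x * (2 * (M.map g).sum + g x + g z) + (P.Q.map (om f g)).sum = 0 := by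
  have hn := hG.nodupB hW
  have h0 := hG.om0 f g hf hg
  rw [List.map_append, List.sum_append] at h0
  have hmem : ∀ d ∈ A ++ x :: (M ++ z :: C), d ∈ P.B.flatten := fun d hd =>
    List.mem_flatten.2 ⟨_, hW, hd⟩
  have hnB := (List.nodup_append.1 hG.nd).1
  obtain ⟨B₁, B₂, hB⟩ := List.append_of_mem hW
  have ho := flatten_other (B₁ := B₁) (B₂ := B₂) (W := A ++ x :: (M ++ z :: C))
    (by rw [← hB]; exact hnB)
  have hz' : ∀ W', W' ∈ B₁ ∨ W' ∈ B₂ → om f g W' = 0 := by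
    intro W' hW'
    refine om_zero fun d hd => hfb d ?_ ?_ ?_
    · rw [hB]
      refine List.mem_flatten.2 ⟨W', ?_, hd⟩
      rcases hW' with h | h <;> simp [h]
    · rintro rfl; exact ho W' hW' _ hd (by simp)
    · rintro rfl; exact ho W' hW' _ hd (by simp)
  rw [hB, sum_single _ _ _ _ (fun b hb => hz' b (Or.inl hb)) (fun b hb => hz' b (Or.inr hb))] at h0
  rw [List.nodup_append, List.nodup_cons, List.nodup_append, List.nodup_cons] at hn
  obtain ⟨-, ⟨n1, -, ⟨n2, -⟩, n3⟩, n4⟩ := hn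
  rw [om_key (fun d hd => hfb d (hmem d (by simp [hd])) (fun h => n4 d hd x (by simp) h)
    (fun h => n4 d hd z (by simp) h))
    (fun d hd => hfb d (hmem d (by simp [hd])) (fun h => n1 (by rw [← h]; simp [hd]))
    (fun h => n3 d hd z (by simp) h))
    (fun d hd => hfb d (hmem d (by simp [hd])) (fun h => n1 (by rw [← h]; simp [hd]))
    (fun h => n2 (by rw [← h]; exact hd))) hz] at h0
  exact h0

theorem circ_zero {f g : X → ℤ} (h : ∀ q ∈ P.Q, om f g q = 0) : (P.Q.map (om f g)).sum = 0 :=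
  sum_zero h

theorem circ_one (hG : P.Good) {f g : X → ℤ} {q : List X} (hq : q ∈ P.Q)
    (h : ∀ q' ∈ P.Q, q' ≠ q → om f g q' = 0) : (P.Q.map (om f g)).sum = om f g q := by
  have hnQ := (List.nodup_append.1 hG.nd).2.1
  obtain ⟨Q₁, Q₂, hQ⟩ := List.append_of_mem hq
  have ho := flatten_other (B₁ := Q₁) (B₂ := Q₂) (W := q) (by rw [← hQ]; exact hnQ)
  have key : ∀ q', q' ∈ Q₁ ∨ q' ∈ Q₂ → om f g q' = 0 := by
    intro q' hq'
    have hm : q' ∈ P.Q := by rw [hQ]; rcases hq' with h | h <;> simp [h]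
    refine h q' hm fun he => ?_
    obtain ⟨x₀, x₁, x₂, x₃, e, -⟩ := hG.four q' hm
    exact ho q' hq' x₀ (by rw [e]; simp) (by rw [← he, e]; simp)
  rw [hQ, sum_single _ _ _ _ (fun b hb => key b (Or.inl hb)) (fun b hb => key b (Or.inr hb))]

/-- the value at a crossing -/
theorem om_q {f g : X → ℤ} {q : List X} {u u' v v' : X} (h : Opp q u u') (h' : Opp q v v')
    (huv : u ≠ v) (huv' : u ≠ v') (f1 : f u' = -f u) (f2 : f v = 0) (f3 : f v' = 0)
    (g1 : g u = 0) (g2 : g u' = 0) (g3 : g v' = -g v) :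
    om f g q = 2 * (f u * g v) ∨ om f g q = -(2 * (f u * g v)) := by
  obtain ⟨x₀, x₁, x₂, x₃, rfl, h⟩ := h
  obtain ⟨y₀, y₁, y₂, y₃, e, h'⟩ := h'
  simp only [List.cons.injEq, and_true] at e
  obtain ⟨rfl, rfl, rfl, rfl⟩ := e
  rcases h with ⟨rfl, rfl⟩ | ⟨rfl, rfl⟩ | ⟨rfl, rfl⟩ | ⟨rfl, rfl⟩ <;>
  rcases h' with ⟨rfl, rfl⟩ | ⟨rfl, rfl⟩ | ⟨rfl, rfl⟩ | ⟨rfl, rfl⟩ <;>
  first
  | exact absurd rfl huv
  | exact absurd rfl huv'
  | (left; simp only [om, List.map_cons, List.map_nil, List.sum_cons, List.sum_nil, f1, f2, f3, g1,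
      g2, g3]; ring1)
  | (right; simp only [om, List.map_cons, List.map_nil, List.sum_cons, List.sum_nil, f1, f2, f3,
      g1, g2, g3]; ring1)

end Pic

end Pool.Agent.Y874.TP2
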