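import Pool.Agent.Y874.TP2.Lift
import Pool.Agent.Y874.TP.Normal

/-! Project TP2: symmetries of the circles of a triple point. -/

namespace Pool.Agent.Y874.TP2

open Pool.Agent.Y468.SR
open Pool.Agent.Y874.TP

theorem invM_ceq {D E E' O : Code} {m : ℕ → ℕ} (h : CEq E E') (hi : InvM (D ++ (E ++ O)) m) :
    InvM (D ++ (E' ++ O)) m := by
  have h1 : InvM (E ++ (D ++ O)) m := invM_perm (by
    rw [← List.append_assoc, ← List.append_assoc]
    exact List.Perm.append_right _ List.perm_append_comm) hi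
  have h2 : InvM (E' ++ (D ++ O)) m := by
    refine invM_of (fun r => ?_) (fun G _ o u hn b => ?_) h1
    · simp only [passes_append', List.mem_append, h.1 r]
    · have := hn b
      rw [vals_append, bv_append] at this ⊢
      exact h.2.2 G o u b _ this
  exact invM_perm (by
    rw [← List.append_assoc, ← List.append_assoc]
    exact List.Perm.append_right _ List.perm_append_comm) h2

/-- the two descriptions belong to the same circles -/
structure TR (T T' : Tri) : Prop where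
  ok : T.Ok → T'.Ok
  col : T.Col → T'.Col
  prs : T.Col → (tprs T).Perm (tprs T')
  ceq : CEq T.code T'.code

theorem TR.refl (T : Tri) : TR T T := ⟨id, id, fun _ => List.Perm.refl _, CEq.refl _⟩

theorem TR.trans {T T' T'' : Tri} (h : TR T T') (h' : TR T' T'') : TR T T'' :=
  ⟨fun k => h'.ok (h.ok k), fun k => h'.col (h.col k),
    fun k => (h.prs k).trans (h'.prs (h.col k)), h.ceq.trans h'.ceq⟩

theorem tr_swapA (T : Tri) : TR T T.swapA := by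
  refine ⟨(Tri.tr_swapA T).ok, (Tri.tr_swapA T).col, ?_, (Tri.tr_swapA T).ceq⟩
  rintro ⟨h1, h2, h3⟩
  simp only [tprs, kap, lc, Tri.pa₁, Tri.pb₁, Tri.pc₁, Pass.mate, Tri.swapA, h1]
  exact List.Perm.refl _

theorem tr_swapB (T : Tri) : TR T T.swapB := by
  refine ⟨(Tri.tr_swapB T).ok, (Tri.tr_swapB T).col, ?_, (Tri.tr_swapB T).ceq⟩
  rintro ⟨h1, h2, h3⟩
  simp only [tprs, kap, lc, Tri.pa₁, Tri.pb₁, Tri.pc₁, Pass.mate, Tri.swapB, h2]
  exact List.Perm.refl _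

theorem tr_tij (T : Tri) : TR T T.tij := by
  refine ⟨(Tri.tr_tij T).ok, (Tri.tr_tij T).col, ?_, (Tri.tr_tij T).ceq⟩
  intro _
  have e : tprs T.tij = [s(kap T.pa₁.mate, kap T.pc₁), s(kap T.pa₁, kap T.pb₁),
      s(kap T.pb₁.mate, kap T.pc₁.mate)] := by
    simp only [tprs, kap, lc, Tri.pa₁, Tri.pb₁, Tri.pc₁, Pass.mate, Tri.tij, Bool.not_not]
    rw [Sym2.eq_swap (a := (colour T.c₁, !T.tc || colour T.c₁ % 2 == 0))]
  rw [e]
  exact List.Perm.swap _ _ _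

theorem tr_tjk (T : Tri) : TR T T.tjk := by
  refine ⟨(Tri.tr_tjk T).ok, (Tri.tr_tjk T).col, ?_, (Tri.tr_tjk T).ceq⟩
  intro _
  have e : tprs T.tjk = [s(kap T.pa₁, kap T.pb₁), s(kap T.pb₁.mate, kap T.pc₁.mate),
      s(kap T.pa₁.mate, kap T.pc₁)] := by
    simp only [tprs, kap, lc, Tri.pa₁, Tri.pb₁, Tri.pc₁, Pass.mate, Tri.tjk, Bool.not_not]
    rw [Sym2.eq_swap (a := (colour T.b₁, T.tb || colour T.b₁ % 2 == 0))]
  rw [e]
  exact List.Perm.cons _ (List.Perm.swap _ _ _)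

theorem normal_i {T : Tri} {r p : Pass} (h : Cyc r p T.wi) :
    ∃ T' : Tri, T'.ei = true ∧ p = T'.pa₁ ∧ r = T'.pb₁ ∧ TR T T' := by
  unfold Tri.wi word4 at h
  split_ifs at h with he
  · rcases Tri.cyc4 h with ⟨rfl, rfl⟩ | ⟨rfl, rfl⟩ | ⟨rfl, rfl⟩ | ⟨rfl, rfl⟩
    · exact ⟨T.swapA.swapB, by simp [Tri.swapA, Tri.swapB, he], by simp [Tri.swapA, Tri.swapB, Tri.pa₁, Tri.pa₂],
        by simp [Tri.swapA, Tri.swapB, Tri.pb₁, Tri.pb₂], (tr_swapA T).trans (tr_swapB _)⟩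
    · exact ⟨T.tjk.swapB, by simp [Tri.tjk, Tri.swapB, he], by simp [Tri.tjk, Tri.swapB, Tri.pa₁, Tri.pb₁],
        by simp [Tri.tjk, Tri.swapB, Tri.pb₁, Tri.pa₂], (tr_tjk T).trans (tr_swapB _)⟩
    · exact ⟨T, he, rfl, rfl, TR.refl T⟩
    · exact ⟨T.tjk.swapA, by simp [Tri.tjk, Tri.swapA, he], by simp [Tri.tjk, Tri.swapA, Tri.pa₁, Tri.pb₂],
        by simp [Tri.tjk, Tri.swapA, Tri.pb₁, Tri.pa₁], (tr_tjk T).trans (tr_swapA _)⟩
  · have he : T.ei = false := by simpa using he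
    rcases Tri.cyc4 h with ⟨rfl, rfl⟩ | ⟨rfl, rfl⟩ | ⟨rfl, rfl⟩ | ⟨rfl, rfl⟩
    · exact ⟨T.tjk.swapA.swapB, by simp [Tri.tjk, Tri.swapA, Tri.swapB, he],
        by simp [Tri.tjk, Tri.swapA, Tri.swapB, Tri.pa₁, Tri.pb₂], by simp [Tri.tjk, Tri.swapA, Tri.swapB, Tri.pb₁, Tri.pa₂],
        ((tr_tjk T).trans (tr_swapA _)).trans (tr_swapB _)⟩
    · exact ⟨T.swapB, by simp [Tri.swapB, he], by simp [Tri.swapB, Tri.pa₁], by simp [Tri.swapB, Tri.pb₁, Tri.pb₂],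
        tr_swapB T⟩
    · exact ⟨T.tjk, by simp [Tri.tjk, he], by simp [Tri.tjk, Tri.pa₁, Tri.pb₁], by simp [Tri.tjk, Tri.pb₁, Tri.pa₁], tr_tjk T⟩
    · exact ⟨T.swapA, by simp [Tri.swapA, he], by simp [Tri.swapA, Tri.pa₁, Tri.pa₂], by simp [Tri.swapA, Tri.pb₁],
        tr_swapA T⟩

theorem normal {T : Tri} {W : List Pass} (hW : W ∈ [T.wi, T.wj, T.wk]) {r p : Pass}
    (h : Cyc r p W) : ∃ T' : Tri, T'.ei = true ∧ p = T'.pa₁ ∧ r = T'.pb₁ ∧ TR T T' := by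
  simp only [List.mem_cons, List.not_mem_nil, or_false] at hW
  rcases hW with rfl | rfl | rfl
  · exact normal_i h
  · obtain ⟨T', h1, h2, h3, h4⟩ := normal_i (T := T.tij) h
    exact ⟨T', h1, h2, h3, (tr_tij T).trans h4⟩
  · obtain ⟨T', h1, h2, h3, h4⟩ := normal_i (T := T.tjk.tij) h
    exact ⟨T', h1, h2, h3, ((tr_tjk T).trans (tr_tij _)).trans h4⟩

end Pool.Agent.Y874.TP2
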