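import Mathlib

/-!
# Pictures: planar arrangements of curves described by words

`X` is the set of darts, `B` the boundary words, `Q` the words (of length four) around the crossings
of curves, `σ` leads to the other end of an edge, `sg` is an orientation of the curves, `κ` a
colouring of the curves.
-/

namespace Pool.Agent.Y874.TP2

variable {X K : Type}

/-- `(r, p)` are cyclically consecutive in `W` -/
def CycL (r p : X) (W : List X) : Prop :=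
  (∃ u v, W = u ++ r :: p :: v) ∨ ∃ u, W = p :: (u ++ [r])

/-- the sum of `f i * g j - f j * g i` for `i` before `j` -/
def om (f g : X → ℤ) : List X → ℤ
  | [] => 0
  | x :: W => om f g W + f x * (W.map g).sum - g x * (W.map f).sum

structure Pic (X K : Type) where
  B : List (List X)
  Q : List (List X)
  σ : X → X
  sg : X → ℤ
  κ : X → K

/-- `a` and `b` are opposite in the word `q` of length four -/
def Opp (q : List X) (a b : X) : Prop := ∃ x₀ x₁ x₂ x₃, q = [x₀, x₁, x₂, x₃] ∧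
  ((a = x₀ ∧ b = x₂) ∨ (a = x₂ ∧ b = x₀) ∨ (a = x₁ ∧ b = x₃) ∨ (a = x₃ ∧ b = x₁))

namespace Pic
variable (P : Pic X K)

def dart (x : X) : Prop := x ∈ P.B.flatten ∨ x ∈ P.Q.flatten

def Flow (f : X → ℤ) : Prop :=
  (∀ x, P.dart x → f (P.σ x) = -f x) ∧ ∀ q ∈ P.Q, (q.map f).sum = 0

structure Good : Prop where
  nd : (P.B.flatten ++ P.Q.flatten).Nodup
  four : ∀ q ∈ P.Q, ∃ x₀ x₁ x₂ x₃, q = [x₀, x₁, x₂, x₃] ∧ P.sg x₂ = -P.sg x₀ ∧
    P.sg x₃ = -P.sg x₁ ∧ P.κ x₂ = P.κ x₀ ∧ P.κ x₃ = P.κ x₁ ∧ P.κ x₀ ≠ P.κ x₁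
  dartσ : ∀ x, P.dart x → P.dart (P.σ x)
  invσ : ∀ x, P.dart x → P.σ (P.σ x) = x
  sg1 : ∀ x, P.dart x → P.sg x = 1 ∨ P.sg x = -1
  sgσ : ∀ x, P.dart x → P.sg (P.σ x) = -P.sg x
  κσ : ∀ x, P.dart x → P.κ (P.σ x) = P.κ x
  /-- curves of two given colours cross at most once -/
  once : ∀ q ∈ P.Q, ∀ q' ∈ P.Q, ∀ a ∈ q, ∀ b ∈ q, ∀ a' ∈ q', ∀ b' ∈ q', P.κ a ≠ P.κ b →
    P.κ a' = P.κ a → P.κ b' = P.κ b → q = q'
  sum0 : ∀ f, P.Flow f → ∀ W ∈ P.B, (W.map f).sum = 0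
  om0 : ∀ f g, P.Flow f → P.Flow g → ((P.B ++ P.Q).map (om f g)).sum = 0

/-- a walk along a curve, starting with the edge from the dart `x`, with the list of darts met, up
to the boundary dart `z` -/
inductive Walk : X → List X → X → Prop
  | done (x : X) (h : P.σ x ∈ P.B.flatten) : Walk x [x, P.σ x] (P.σ x)
  | step (x x' z : X) (q L : List X) (hq : q ∈ P.Q) (ho : Opp q (P.σ x) x') (h : Walk x' L z) :
      Walk x (x :: P.σ x :: L) z

/-- unions of curves -/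
def Closed (S : Set X) : Prop :=
  (∀ d ∈ S, P.dart d) ∧ (∀ d ∈ S, P.σ d ∈ S) ∧ ∀ q ∈ P.Q, ∀ d e, Opp q d e → d ∈ S → e ∈ S

/-- two neighbouring boundary darts are the ends of an edge, or there is a triangle -/
def Junc : Prop := ∃ W ∈ P.B, ∃ A x y C, W = A ++ x :: y :: C ∧
  (P.σ x = y ∨ ∃ q ∈ P.Q, CycL (P.σ y) (P.σ x) q)

end Pic

/-- WALK-1: each dart starts a walk or lies on closed curves -/
def S_W1 : Prop := ∀ (X K : Type) (P : Pic X K), P.Good → ∀ x, P.dart x →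
  (∃ L z, P.Walk x L z) ∨ ∃ S, P.Closed S ∧ x ∈ S ∧ (∀ d ∈ S, P.κ d = P.κ x) ∧
    ∀ d ∈ S, d ∉ P.B.flatten

/-- WALK-2: elementary properties of walks -/
def S_W2 : Prop := ∀ (X K : Type) (P : Pic X K), P.Good → ∀ x L z, P.dart x → P.Walk x L z →
  x ∈ L ∧ z ∈ L ∧ z ∈ P.B.flatten ∧ P.sg z = -P.sg x ∧ (∀ d ∈ L, P.dart d ∧ P.κ d = P.κ x) ∧
  (∀ d ∈ L, P.σ d ∈ L) ∧ (∀ d ∈ L, d ∈ P.B.flatten → d = x ∨ d = z) ∧
  (∀ q ∈ P.Q, ∀ d e, Opp q d e → d ∈ L → d ≠ x → e ∈ L)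

/-- WALK-3: connectedness of walks -/
def S_W3 : Prop := ∀ (X K : Type) (P : Pic X K), P.Good → ∀ x L z, P.dart x → P.Walk x L z →
  ∀ S, P.Closed S → (∃ e ∈ L, e ∈ S) → ∀ e ∈ L, e ∈ S

/-- WALK-4: a walk starting at a crossing does not return to it -/
def S_W4 : Prop := ∀ (X K : Type) (P : Pic X K), P.Good → ∀ x L z, P.Walk x L z →
  ∀ q ∈ P.Q, ∀ x', Opp q x x' → ∃ L', P.Walk x L' z ∧ x' ∉ L'

/-- the junction lemma for pictures -/
def S_PJ : Prop := ∀ (X K : Type) (P : Pic X K), P.Good → (∃ W ∈ P.B, W ≠ []) → P.Junc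

end Pool.Agent.Y874.TP2
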