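import Pool.Agent.Y874.TP2.Normal
import Pool.Agent.Y874.TP.Reduce

/-! Project TP2: the reduction. -/

namespace Pool.Agent.Y874.TP2

open Pool.Agent.Y468.SR
open Pool.Agent.Y874.TP

set_option linter.unusedSimpArgs false
set_option linter.unusedVariables false

/-- The result of one step of the reduction. -/
def Red3 (D : Code) (Ts : List Tri) : Prop :=
  ∃ D' Ts', (Ts'.length < Ts.length ∨
      (Ts'.length = Ts.length ∧ (passes D').length < (passes D).length)) ∧
    Classical D' ∧ (D'.map Prod.snd).Nodup ∧ Inv3 D' Ts' ∧ Movie true false D D'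

theorem CReid.reid {r3 : Bool} {E E' : List (Pass ⊕ ℕ)} (h : CReid E E') : Reid r3 E E' := by
  cases h with
  | one A B p hc => exact Reid.one A B p
  | twoSame A B C p q h ho hs hc => exact Reid.twoSame A B C p q h ho hs
  | twoOpp A B C p q h ho hs hc => exact Reid.twoOpp A B C p q h ho hs

theorem caseA3 (hreid : S_REID) {D : Code} {Ts : List Tri} (hD : Classical D)
    (hn : (D.map Prod.snd).Nodup) (h3 : Inv3 D Ts) {C : List Pass × ℕ} (hC : C ∈ D)
    {a c : List Pass} {p q : Pass} (h : C.1 = a ++ p :: q :: c)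
    (h1 : q.crossing = p.crossing) (h2 : q.isOver = !p.isOver) (hc : colour p.crossing % 2 = 0) :
    Red3 D Ts := by
  have hp : p ∈ passes D := mem_passes.2 ⟨C, hC, by simp [h]⟩
  have hq : q ∈ passes D := mem_passes.2 ⟨C, hC, by simp [h]⟩
  have hqp : q = p.mate := by
    rcases hD.1.eq_mate hp hq h1 with rfl | rfl
    · simp at h2
    · rfl
  subst hqp
  obtain ⟨D', A, B, e1, e2, e3⟩ := exists_remove hC h
  have hperm : (passes D).Perm ([p, p.mate] ++ passes D') := by
    rw [← pl_enc, ← pl_enc, e1, e2]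
    simp only [pl_append, pl_two, List.append_assoc]
    rw [← List.append_assoc, ← List.append_assoc]
    exact List.Perm.append_right _ List.perm_append_comm
  have hW : WF ([p, p.mate] ++ passes D') := WF.perm hperm hD.1
  have hW' : WF (passes D') := hW.remove (by simp)
  have hD' : Classical D' := by
    refine ⟨hW', planar_iff.2 ?_⟩
    rw [e2]
    refine planarE_one (p := p) (fun r hr => ?_) ?_
    · rw [← e2, pl_enc] at hr
      exact hW.ne_crossing (by simp) (by simp) hr
    · rw [← e1]; exact planar_iff.1 hD.2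
  have hR : CReid (enc D) (enc D') := by
    rw [e1, e2]; exact CReid.one A B p hc
  have hI : InvC (D' ++ TC Ts) := by
    refine (hreid (D ++ TC Ts) (D' ++ TC Ts) h3.wf ?_).1 h3.inv
    rw [enc_append, enc_append]
    exact creid_append hR _
  have hWe : WF (passes (D' ++ TC Ts)) := by
    refine WF.remove (k := [p, p.mate]) (WF.perm ?_ h3.wf) (by simp)
    rw [passes_append', passes_append', ← List.append_assoc]
    exact List.Perm.append_right _ hperm
  refine ⟨D', Ts, Or.inr ⟨rfl, ?_⟩, hD', by rw [e3]; exact hn,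
    ⟨hWe, h3.ok, h3.dg, h3.nd, hI⟩,
    Movie.head hD hD' (Step.reid D D' hR.reid) Relation.ReflTransGen.refl⟩
  rw [hperm.length_eq]; simp

theorem same_facts {Ts' Ts : List Tri} (h : List.Forall₂ SameTri Ts' Ts) :
    Ts'.length = Ts.length ∧ Ts'.flatMap tprs = Ts.flatMap tprs ∧
    passes (TC Ts') = passes (TC Ts) ∧
    ((∀ T ∈ Ts, T.Ok ∧ T.Col) → ∀ T ∈ Ts', T.Ok ∧ T.Col) := by
  induction h with
  | nil => exact ⟨rfl, rfl, rfl, fun _ T hT => absurd hT (by simp)⟩
  | @cons T' T Ts' Ts h _ ih =>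
    obtain ⟨i, j, k, rfl⟩ := h
    obtain ⟨h1, h2, h3, h4⟩ := ih
    refine ⟨by simp [h1], ?_, ?_, fun h => ?_⟩
    · rw [List.flatMap_cons, List.flatMap_cons, h2]; rfl
    · rw [TC_cons, TC_cons, passes_append', passes_append', h3]; rfl
    · intro T₁ hT₁
      rcases List.mem_cons.1 hT₁ with rfl | hT₁
      · exact h T (by simp)
      · exact h4 (fun T hT => h T (by simp [hT])) T₁ hT₁

theorem creid_after {p q : Pass} {y z : List Pass} {R : Code} {b₁ b₂ : ℕ}
    (hD₄ : Classical ((p :: q :: z, b₁) :: (y, b₂) :: R)) (hpq : p.crossing ≠ q.crossing)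
    (h2 : q.isOver = p.isOver) (hs : q.isPos = !p.isPos)
    (hcol : colour p.crossing = colour q.crossing) {C₃ : List Pass × ℕ}
    (hC₃ : C₃ ∈ ((z, b₁) :: (y, b₂) :: R)) {a₃ c₃ : List Pass}
    (h₃ : C₃.1 = a₃ ++ p.mate :: q.mate :: c₃) :
    ∃ D', Classical D' ∧
      D'.map Prod.snd = ((p :: q :: z, b₁) :: (y, b₂) :: R).map Prod.snd ∧
      (passes ((p :: q :: z, b₁) :: (y, b₂) :: R)).Perm ([p, q, p.mate, q.mate] ++ passes D') ∧
      CReid (enc ((p :: q :: z, b₁) :: (y, b₂) :: R)) (enc D') := by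
  obtain ⟨D', A, B, f1, f2, f3⟩ := exists_remove hC₃ h₃
  have g1 : enc ((p :: q :: z, b₁) :: (y, b₂) :: R) =
      [] ++ two p q ++ A ++ two p.mate q.mate ++ B := by
    have : enc ((p :: q :: z, b₁) :: (y, b₂) :: R) = two p q ++ enc ((z, b₁) :: (y, b₂) :: R) := by
      simp [two]
    rw [this, f1]; simp
  have g2 : enc D' = [] ++ A ++ B := by rw [f2]; simp
  have hperm₅ : (passes ((p :: q :: z, b₁) :: (y, b₂) :: R)).Perm
      ([p, q, p.mate, q.mate] ++ passes D') := by
    rw [← pl_enc, ← pl_enc, g1, g2]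
    simp only [pl_append, pl_two, List.append_assoc, pl_nil, List.nil_append, List.cons_append]
    refine List.Perm.cons _ (List.Perm.cons _ ?_)
    have : (pl A ++ (p.mate :: (q.mate :: pl B))).Perm (p.mate :: (pl A ++ (q.mate :: pl B))) :=
      List.perm_middle
    exact this.trans (List.Perm.cons _ List.perm_middle)
  have hW₅ : WF ([p, q, p.mate, q.mate] ++ passes D') := WF.perm hperm₅ hD₄.1
  have hW₆ : WF (passes D') := hW₅.remove (by simp)
  have hD' : Classical D' := by
    refine ⟨hW₆, planar_iff.2 ?_⟩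
    rw [g2]
    refine planarE_two (p := p) (q := q) (fun r hr => ?_) hpq h2.symm hs ?_
    · rw [← g2, pl_enc] at hr
      exact ⟨hW₅.ne_crossing (by simp) (by simp) hr, hW₅.ne_crossing (by simp) (by simp) hr⟩
    · rw [← g1]; exact planar_iff.1 hD₄.2
  refine ⟨D', hD', ?_, hperm₅, ?_⟩
  · rw [f3]; simp
  · rw [g1, g2]
    exact CReid.twoSame [] A B p q hpq h2.symm hs hcol

theorem caseB3' (hreid : S_REID) (hcut : S_CUT) {p q : Pass} {v : List Pass} {b : ℕ} {R : Code}
    {Ts : List Tri} (hD : Classical ((p :: v, b) :: R))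
    (hn : (((p :: v, b) :: R).map Prod.snd).Nodup) (h3 : Inv3 ((p :: v, b) :: R) Ts)
    {m : ℕ → ℕ} (hm : InvM ((p :: v, b) :: R ++ TC Ts) m)
    {C : List Pass × ℕ} (hC : C ∈ ((p :: v, b) :: R)) {a c : List Pass}
    (h : C.1 = a ++ p.mate :: q.mate :: c) (h0 : m p.crossing ≠ p.crossing)
    (h1 : q.crossing = m p.crossing) (h2 : q.isOver = p.isOver) : Red3 ((p :: v, b) :: R) Ts := by
  have hp : p ∈ passes ((p :: v, b) :: R) := by simp
  have hq' : q.mate ∈ passes ((p :: v, b) :: R) := mem_passes.2 ⟨C, hC, by simp [h]⟩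
  have hq : q ∈ passes ((p :: v, b) :: R) := by simpa using hD.1.1 _ hq'
  have hin : ∀ r ∈ passes ((p :: v, b) :: R), r ∈ passes ((p :: v, b) :: R ++ TC Ts) := by
    intro r hr; rw [passes_append']; exact List.mem_append_left _ hr
  have hpq : p.crossing ≠ q.crossing := by rw [h1]; exact Ne.symm h0
  have hmq : m q.crossing = p.crossing := by rw [h1]; exact matching_invol hm.1 (hin p hp)
  have hs : q.isPos = !p.isPos := by
    obtain ⟨q₀, g1, g2, g3, g4⟩ := hm.1 p (hin p hp)
    rw [WellFormed.sign_eq (D := (p :: v, b) :: R ++ TC Ts) h3.wf g1 (hin q hq) (by rw [g2, h1])]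
    exact g4 (by rw [g2]; exact h0)
  have hcol : colour p.crossing = colour q.crossing := by
    rw [h1]; exact ((hm.2.1 p (hin p hp)).1).symm
  have e1 : p.mate ≠ p := by intro h; simpa using congrArg Pass.isOver h
  have e2 : q.mate ≠ q := by intro h; simpa using congrArg Pass.isOver h
  have e3 : p.mate ≠ q := fun h => hpq (congrArg Pass.crossing h : p.mate.crossing = q.crossing)
  have e4 : q.mate ≠ p := fun h =>
    hpq (congrArg Pass.crossing h : q.mate.crossing = p.crossing).symm
  have e5 : p ≠ q := fun h => hpq (congrArg Pass.crossing h)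
  have hnd := WF.nodup hD.1
  have hpv : p ∉ v := by
    rw [passes_cons, List.cons_append, List.nodup_cons] at hnd
    exact fun h => hnd.1 (by simp [h])
  have hRb : ∀ C ∈ R, C.2 ≠ b := by
    intro C hC he
    rw [List.map_cons, List.nodup_cons] at hn
    exact hn.1 (List.mem_map.2 ⟨C, hC, he⟩)
  -- the passages of one type at the two crossings belong to the same component
  have hqv : q ∈ v := by
    by_contra hqv
    have hv1 : Valid (passes ((p :: v, b) :: R ++ TC Ts)) m (fun _ => (1 : Multiplicative ℤ))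
        (fun _ => 1) := fun r _ => by simp
    have := hm.2.2 _ _ _ (valid_tw hv1 hm.1 h1.symm hmq hpq (Multiplicative.ofAdd 1) p.isOver) b
    rw [vals_append, bv_append] at this
    simp only [vals, List.map_cons] at this
    rw [bv_cons, if_pos rfl] at this
    have hb1 := bv_vals_nil (o := tw p.crossing q.crossing (Multiplicative.ofAdd (1 : ℤ)) p.isOver
      fun _ => 1) (u := tw p.crossing q.crossing (Multiplicative.ofAdd (1 : ℤ)) (!p.isOver)
      fun _ => 1) hRb
    unfold vals at hb1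
    rw [hb1, List.cons_append, List.nil_append] at this
    have h4 : ∀ w : List Pass, wval (fun _ => (1 : Multiplicative ℤ)) (fun _ => 1) w = 1 := by
      intro w
      induction w with
      | nil => rfl
      | cons r v ih => rw [wval_cons, ih]; simp [val]
    have h5 := cn_ones (fun y hy => ?_) this
    · simp only [wval_cons] at h5
      have h3 : wval (tw p.crossing q.crossing (Multiplicative.ofAdd (1 : ℤ)) p.isOver fun _ => 1)
          (tw p.crossing q.crossing (Multiplicative.ofAdd (1 : ℤ)) (!p.isOver) fun _ => 1) v =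
          wval (fun _ => 1) (fun _ => 1) v := by
        refine wval_congr fun r hr => ?_
        rw [val_tw]
        split_ifs with k1 k2 k3
        · exact absurd (hD.1.eq_of (by simp [hr]) hp k2 k1 ▸ hr) hpv
        · exact absurd (hD.1.eq_of (by simp [hr]) hq k3 (k1.trans h2.symm) ▸ hr) hqv
        · rfl
        · rfl
      rw [h3, h4, val_tw, if_pos rfl, if_pos rfl, mul_one] at h5
      have := congrArg Multiplicative.toAdd h5
      simp at this
    · simp only [bv, List.mem_map, List.mem_filter] at hy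
      obtain ⟨x, ⟨⟨C', hC', rfl⟩, -⟩, rfl⟩ := hy
      simp only
      refine Eq.trans (wval_congr (o' := fun _ => 1) (u' := fun _ => 1) fun r hr => ?_) (h4 C'.1)
      have hr' : r ∈ passes (TC Ts) := mem_passes.2 ⟨C', hC', hr⟩
      have k4 := sep hD.1 h3.wf hp hr'
      have k5 := sep hD.1 h3.wf hq hr'
      rw [val_tw, if_neg k4, if_neg k5, ite_self]
  obtain ⟨y, z, rfl⟩ := List.append_of_mem hqv
  obtain ⟨b', hb'⟩ := Infinite.exists_notMem_finset
    (((p :: (y ++ q :: z), b) :: R ++ TC Ts).map Prod.snd).toFinset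
  have hb'' : b' ≠ b ∧ ∀ C ∈ R ++ TC Ts, C.2 ≠ b' := by
    simp only [List.cons_append, List.map_cons, List.mem_toFinset, List.mem_cons, not_or,
      List.mem_map, not_exists, not_and] at hb'
    exact ⟨hb'.1, hb'.2⟩
  have hb' : b' ≠ b ∧ ∀ C ∈ R, C.2 ≠ b' := ⟨hb''.1, fun C hC => hb''.2 C (by simp [hC])⟩
  -- the factor
  have hfac : ∃ C₃ ∈ ((z, b) :: (y, b') :: R), ∃ a₃ c₃, C₃.1 = a₃ ++ p.mate :: q.mate :: c₃ := by
    rcases List.mem_cons.1 hC with rfl | hC
    · rcases a with _ | ⟨s, a⟩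
      · simp only [List.nil_append, List.cons.injEq] at h
        exact absurd h.1.symm e1
      · simp only [List.cons_append, List.cons.injEq] at h
        rcases fac_mid h.2 e3.symm e2.symm with ⟨a', c', h⟩ | ⟨a', c', h⟩
        · exact ⟨(y, b'), by simp, a', c', h⟩
        · exact ⟨(z, b), by simp, a', c', h⟩
    · exact ⟨C, by simp [hC], a, c, h⟩
  obtain ⟨C₃, hC₃, a₃, c₃, h₃⟩ := hfac
  obtain ⟨hperm₄, hD₄, hmov⟩ := cut_movie hD hpq h2 hs hb' (b₁ := b) (b₂ := b')
    (Or.inl ⟨rfl, rfl⟩) hC₃ h₃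
  obtain ⟨D', hD', f3, hperm₅, hRe⟩ := creid_after hD₄ hpq h2 hs hcol hC₃ h₃
  obtain ⟨S', s1, s2, s3⟩ := hcut p q y z b b' (R ++ TC Ts) m h3.wf hm h0 h1 h2 hb'.1.symm hb''.2
  obtain ⟨Ts', rfl, s4⟩ := split_labels R S' s1 s2 hRb
  obtain ⟨t1, t2, t3, t4⟩ := same_facts s4
  have hW₄ : WF (passes ((p :: q :: z, b) :: (y, b') :: R ++ TC Ts')) := by
    have := h3.wf
    rw [passes_append'] at this ⊢
    rw [t3]
    exact WF.perm (List.Perm.append_right _ hperm₄) this
  have hI : InvC (D' ++ TC Ts') := by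
    refine (hreid ((p :: q :: z, b) :: (y, b') :: R ++ TC Ts') (D' ++ TC Ts') hW₄ ?_).1 ⟨m, s3⟩
    rw [enc_append, enc_append]
    exact creid_append hRe _
  have hW₅ : WF (passes (D' ++ TC Ts')) := by
    refine WF.remove (k := [p, q, p.mate, q.mate]) (WF.perm ?_ hW₄) (by simp)
    rw [passes_append', passes_append', ← List.append_assoc]
    exact List.Perm.append_right _ hperm₅
  refine ⟨D', Ts', Or.inr ⟨t1, ?_⟩, hD', ?_, ⟨hW₅, t4 h3.ok, by rw [t2]; exact h3.dg,
    by rw [t2]; exact h3.nd, hI⟩,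
    (movie_mono hmov).trans (Movie.head hD₄ hD' (Step.reid _ D' hRe.reid)
      Relation.ReflTransGen.refl)⟩
  · rw [hperm₄.length_eq, hperm₅.length_eq]; simp; omega
  · rw [f3]
    simp only [List.map_cons, List.nodup_cons, List.mem_cons, not_or] at hn ⊢
    refine ⟨⟨hb'.1.symm, hn.1⟩, fun h => ?_, hn.2⟩
    obtain ⟨C, hC, h⟩ := List.mem_map.1 h
    exact hb'.2 C hC h

theorem inv3_perm {D D' : Code} {Ts : List Tri} (hp : D.Perm D') (h : Inv3 D Ts) : Inv3 D' Ts where
  wf := by
    have := h.wf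
    rw [passes_append'] at this ⊢
    exact WF.perm (List.Perm.append_right _ (passes_perm hp)) this
  ok := h.ok
  dg := h.dg
  nd := h.nd
  inv := invC_perm (hp.append_right _) h.inv

theorem inv3_rotate {x y : List Pass} {b : ℕ} {R : Code} {Ts : List Tri}
    (h : Inv3 ((x ++ y, b) :: R) Ts) : Inv3 ((y ++ x, b) :: R) Ts where
  wf := by
    have := h.wf
    rw [passes_append', passes_cons] at this ⊢
    exact WF.perm (List.Perm.append_right _ (List.Perm.append_right _ List.perm_append_comm)) this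
  ok := h.ok
  dg := h.dg
  nd := h.nd
  inv := by
    obtain ⟨m, hm⟩ := h.inv
    exact ⟨m, by simpa using invM_rotate (R := R ++ TC Ts) (by simpa using hm)⟩

theorem caseB3 (hreid : S_REID) (hcut : S_CUT) {D : Code} {Ts : List Tri} (hD : Classical D)
    (hn : (D.map Prod.snd).Nodup) (h3 : Inv3 D Ts) {m : ℕ → ℕ} (hm : InvM (D ++ TC Ts) m)
    {C : List Pass × ℕ} (hC : C ∈ D)
    {a c : List Pass} {p q : Pass} (h : C.1 = a ++ p :: q :: c) (h0 : m p.crossing ≠ p.crossing)
    (h1 : q.crossing = m p.crossing) (h2 : q.isOver = p.isOver) : Red3 D Ts := by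
  have hp : p ∈ passes D := mem_passes.2 ⟨C, hC, by simp [h]⟩
  have hpq : p.crossing ≠ q.crossing := by rw [h1]; exact Ne.symm h0
  obtain ⟨⟨w, b⟩, hC', hpC'⟩ := mem_passes.1 (hD.1.1 p hp)
  obtain ⟨D₁, D₂, rfl⟩ := List.append_of_mem hC'
  obtain ⟨x, v, rfl⟩ := List.append_of_mem hpC'
  have hperm : (D₁ ++ (x ++ p.mate :: v, b) :: D₂).Perm ((x ++ p.mate :: v, b) :: (D₁ ++ D₂)) :=
    List.perm_middle
  have c1 := classical_perm hperm hD
  have c2 : Classical ((p.mate :: v ++ x, b) :: (D₁ ++ D₂)) := classical_rotate c1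
  have i1 := inv3_perm hperm h3
  have i2 : Inv3 ((p.mate :: v ++ x, b) :: (D₁ ++ D₂)) Ts := inv3_rotate i1
  have m1 : InvM ((x ++ p.mate :: v, b) :: (D₁ ++ D₂) ++ TC Ts) m :=
    invM_perm (hperm.append_right _) hm
  have m2 : InvM ((p.mate :: v ++ x, b) :: (D₁ ++ D₂) ++ TC Ts) m := by
    simpa using invM_rotate (R := D₁ ++ D₂ ++ TC Ts) (x := x) (y := p.mate :: v)
      (by simpa using m1)
  have hperm2 : (passes ((x ++ p.mate :: v, b) :: (D₁ ++ D₂))).Perm
      (passes ((p.mate :: v ++ x, b) :: (D₁ ++ D₂))) := by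
    rw [passes_cons, passes_cons]
    exact List.Perm.append_right _ List.perm_append_comm
  have l1 : (((p.mate :: (v ++ x), b) :: (D₁ ++ D₂)).map Prod.snd).Nodup := by
    have := (hperm.map Prod.snd).nodup hn
    simpa using this
  have hfac : ∃ C' ∈ ((p.mate :: (v ++ x), b) :: (D₁ ++ D₂)), ∃ a' c',
      C'.1 = a' ++ p :: q :: c' := by
    rcases List.mem_cons.1 (hperm.subset hC) with rfl | hC
    · have k1 : p.mate ≠ p := by intro h; simpa using congrArg Pass.isOver h
      have k2 : p.mate ≠ q := fun h => hpq (congrArg Pass.crossing h : p.mate.crossing = q.crossing)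
      rcases fac_mid h k1 k2 with ⟨a', c', h⟩ | ⟨a', c', h⟩
      · exact ⟨_, List.mem_cons_self, p.mate :: v ++ a', c', by simp [h]⟩
      · exact ⟨_, List.mem_cons_self, p.mate :: a', c' ++ x, by simp [h]⟩
    · exact ⟨C, List.mem_cons_of_mem _ hC, a, c, h⟩
  obtain ⟨C', hC', a', c', h'⟩ := hfac
  obtain ⟨D', Ts', r1, r2, r3, r4, r5⟩ := caseB3' hreid hcut (p := p.mate) (q := q.mate) c2 l1 i2 m2
    hC' (a := a') (c := c') (by simpa using h') h0 h1 (by simp [h2])
  refine ⟨D', Ts', ?_, r2, r3, r4, Movie.head hD c1 (Step.perm _ _ hperm) (Movie.head c1 c2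
    (Step.rotate x (p.mate :: v) b (D₁ ++ D₂)) r5)⟩
  rw [(passes_perm hperm).length_eq, hperm2.length_eq]
  exact r1

theorem remT (hout : S_OUT) (hmid : S_MID) (houtp : S_OUTP) (hmove : S_MOVE) {D : Code}
    {Ts : List Tri} (hD : Classical D) (hn : (D.map Prod.snd).Nodup) (h3 : Inv3 D Ts) {m : ℕ → ℕ}
    (hm : InvM (D ++ TC Ts) m) {C : List Pass × ℕ} (hC : C ∈ D) {a c : List Pass} {p r : Pass}
    (h : C.1 = a ++ p :: r :: c) {T : Tri} (hT : T ∈ Ts) {W : List Pass}
    (hW : W ∈ [T.wi, T.wj, T.wk]) {p' r' : Pass} (hcyc : Cyc r' p' W)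
    (e1 : p'.crossing = m p.crossing) (e2 : p'.isOver = p.isOver)
    (e3 : r'.crossing = m r.crossing) (e4 : r'.isOver = r.isOver) : Red3 D Ts := by
  obtain ⟨T', g1, rfl, rfl, g4⟩ := normal hW hcyc
  obtain ⟨l₁, l₂, rfl⟩ := List.append_of_mem hT
  obtain ⟨hok, hco⟩ := h3.ok T hT
  have hperm : (D ++ TC (l₁ ++ T :: l₂)).Perm (D ++ (T.code ++ TC (l₁ ++ l₂))) := by
    refine List.Perm.append_left _ ?_
    simp only [TC, List.flatMap_append, List.flatMap_cons]
    rw [← List.append_assoc, ← List.append_assoc]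
    exact List.Perm.append_right _ List.perm_append_comm
  have hm' : InvM (D ++ (T'.code ++ TC (l₁ ++ l₂))) m := invM_ceq g4.ceq (invM_perm hperm hm)
  have hW' : WF (passes (D ++ (T'.code ++ TC (l₁ ++ l₂)))) :=
    wf_ceq g4.ceq (WF.perm (passes_perm hperm) h3.wf)
  have hok' := g4.ok hok
  have hco' := g4.col hco
  have hcn : T'.a₁ ≠ T'.b₁ := by
    intro h
    have h1 := hW'.2
    have h2 : (passes T'.code).Nodup := by
      have := WF.nodup hW'
      rw [passes_append', passes_append'] at this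
      exact (List.nodup_append.1 (List.nodup_append.1 this).2.1).1
    have h3 : ∀ P Q : Pass, P ∈ passes (D ++ (T'.code ++ TC (l₁ ++ l₂))) →
        Q ∈ passes (D ++ (T'.code ++ TC (l₁ ++ l₂))) → P.crossing = Q.crossing →
        P.isOver = Q.isOver → P = Q := fun P Q hP hQ hc ho =>
      List.inj_on_of_nodup_map h1 hP hQ (by simp [hc, ho])
    have hmem : ∀ P ∈ passes T'.code, P ∈ passes (D ++ (T'.code ++ TC (l₁ ++ l₂))) := by
      intro P hP
      rw [passes_append', passes_append']; simp [hP]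
    by_cases ho : T'.ta = T'.tb
    · have e := h3 T'.pa₁ T'.pb₁ (hmem _ (by rw [mem_code]; simp)) (hmem _ (by rw [mem_code]; simp))
        h ho
      rw [Tri.code, passes_cons] at h2
      have h4 := (List.nodup_append.1 h2).1
      unfold Tri.wi word4 at h4
      rw [if_pos g1, e] at h4
      simp at h4
    · have e := h3 T'.pa₁.mate T'.pb₁ (hmem _ (by rw [mem_code]; simp))
        (hmem _ (by rw [mem_code]; simp)) h (by
          change (!T'.ta) = T'.tb
          cases h5 : T'.ta <;> cases h6 : T'.tb <;> simp_all)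
      rw [Tri.code, passes_cons, passes_cons] at h2
      refine (List.nodup_append.1 h2).2.2 T'.pb₁ ?_ T'.pa₁.mate ?_ e.symm
      · unfold Tri.wi word4; rw [if_pos g1]; simp
      · unfold Tri.wj word4; split_ifs <;> simp
  obtain ⟨K, hK⟩ := exists_bound (passes (D ++ (T'.code ++ TC (l₁ ++ l₂))))
  have hfr : ∀ k, ∀ q ∈ passes (D ++ (T'.code ++ TC (l₁ ++ l₂))),
      q.crossing ≠ Nat.pair (colour T'.c₁) (K + k) := by
    intro k p hp he
    have := hK p hp
    rw [he, Nat.unpair_pair] at this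
    simp only at this
    omega
  have hcol : ∀ k, colour (Nat.pair (colour T'.c₁) (K + k)) = colour T'.c₁ := fun k => by
    rw [colour, Nat.unpair_pair]
  have hne : Nat.pair (colour T'.c₁) (K + 0) ≠ Nat.pair (colour T'.c₁) (K + 1) := by
    intro h
    have := (Nat.pair_eq_pair.1 h).2
    omega
  have hpr : p.crossing ≠ r.crossing := by
    intro he
    have : T'.a₁ = T'.b₁ := by
      have h1 : T'.a₁ = m p.crossing := e1
      have h2 : T'.b₁ = m r.crossing := e3
      rw [h1, h2, he]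
    exact hcn this
  have htc : T'.tc = r.isOver ∨ p.isOver = r.isOver := by
    rw [← e4, ← e2]
    exact hok'.1
  set na := Nat.pair (colour T'.c₁) (K + 0) with hna
  set nb := Nat.pair (colour T'.c₁) (K + 1) with hnb
  obtain ⟨o1, o2⟩ := hout D (TC (l₁ ++ l₂)) T' m p r C a c na nb hok' hco' g1 hD.1 hW' hm' hC h
    e1.symm e2.symm e3.symm e4.symm hne (fun q hq => ⟨hfr 0 q hq, hfr 1 q hq⟩) (hcol 0) (hcol 1)
  have hfrD : ∀ q ∈ passes D, q.crossing ≠ na ∧ q.crossing ≠ nb := by
    intro q hq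
    have : q ∈ passes (D ++ (T'.code ++ TC (l₁ ++ l₂))) := by
      rw [passes_append']; exact List.mem_append_left _ hq
    exact ⟨hfr 0 q this, hfr 1 q this⟩
  have k1 := hmid D p r T'.tc C a c na nb hD hC h hpr hne hfrD
  have k2 := houtp D p r T'.tc C a c na nb hD hC h hpr hne hfrD
  obtain ⟨k3, k4⟩ := hmove D p r T'.tc C a c na nb hD.1 hC h hpr htc hne hfrD
  refine ⟨out p r T'.tc na nb D, l₁ ++ l₂, Or.inl ?_, k2, ?_, ⟨o1, ?_, ?_, ?_, o2⟩,
    Movie.head hD k1 (Step.reidInv _ _ k3) (Movie.head k1 k2 (Step.reid _ _ k4)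
      Relation.ReflTransGen.refl)⟩
  · simp only [List.length_append, List.length_cons]; omega
  · have : (out p r T'.tc na nb D).map Prod.snd = D.map Prod.snd := by simp [out]
    rw [this]; exact hn
  · intro T₁ hT₁
    refine h3.ok T₁ ?_
    rcases List.mem_append.1 hT₁ with h | h
    · simp [h]
    · simp [h]
  · intro e he
    refine h3.dg e ?_
    simp only [List.flatMap_append, List.flatMap_cons, List.mem_append] at he ⊢
    tauto
  · have := h3.nd
    rw [List.flatMap_append, List.flatMap_cons] at this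
    rw [List.flatMap_append]
    refine this.sublist ?_
    exact List.Sublist.append (List.Sublist.refl _) (List.sublist_append_right _ _)

theorem reduce3 (hreid : S_REID) (hcut : S_CUT) (hout : S_OUT) (hmid : S_MID) (houtp : S_OUTP)
    (hmove : S_MOVE) (hjunc : S_JUNC) {D : Code} {Ts : List Tri} (hD : Classical D)
    (hn : (D.map Prod.snd).Nodup) (h3 : Inv3 D Ts) (h : passes D ≠ []) : Red3 D Ts := by
  obtain ⟨m, hm⟩ := h3.inv
  obtain ⟨C, hC, a, c, p, r, hpr, hcase⟩ := hjunc D Ts m hn hD.1 h3.wf hm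
    (fun T hT => (h3.ok T hT).2) h3.dg h3.nd h
  rcases hcase with (⟨k1, k2, k3⟩ | ⟨k1, k2, k3⟩) | ⟨T, hT, W, hW, p', r', hcyc, e1, e2, e3, e4⟩
  · refine caseA3 hreid hD hn h3 hC hpr k2 k3 ?_
    by_contra h0
    refine (hm.2.1 p ?_).2 h0 k1
    rw [passes_append']
    exact List.mem_append_left _ (mem_passes.2 ⟨C, hC, by simp [hpr]⟩)
  · exact caseB3 hreid hcut hD hn h3 hm hC hpr k1 k2 k3
  · exact remT hout hmid houtp hmove hD hn h3 hm hC hpr hT hW hcyc e1 e2 e3 e4

theorem movie_of_inv3 (hreid : S_REID) (hcut : S_CUT) (hout : S_OUT) (hmid : S_MID)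
    (houtp : S_OUTP) (hmove : S_MOVE) (hjunc : S_JUNC) (n : ℕ) : ∀ (l : ℕ) (D : Code)
    (Ts : List Tri), Ts.length = n → (passes D).length = l → Classical D →
    (D.map Prod.snd).Nodup → Inv3 D Ts → Movie true false D [] := by
  induction n using Nat.strong_induction_on with
  | _ n ihn =>
    intro l
    induction l using Nat.strong_induction_on with
    | _ l ihl =>
      intro D Ts h1 h2 hD hn h3
      by_cases h : passes D = []
      · exact movie_mono (deaths hn h)
      · obtain ⟨D', Ts', r1, r2, r3, r4, r5⟩ := reduce3 hreid hcut hout hmid houtp hmove hjunc hD hn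
          h3 h
        refine r5.trans ?_
        rcases r1 with r1 | ⟨r1, r1'⟩
        · exact ihn Ts'.length (by omega) _ D' Ts' rfl rfl r2 r3 r4
        · exact ihl (passes D').length (by omega) D' Ts' (by omega) rfl r2 r3 r4

/-- Links bounding discs by movies without monogons and bigons are ribbon links. -/
theorem ribbon_of_smovie (hreid : S_REID) (hren : S_REN) (hthree : S_THREE) (hcut : S_CUT)
    (hout : S_OUT) (hmid : S_MID) (houtp : S_OUTP) (hmove : S_MOVE) (hjunc : S_JUNC) {D : Code}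
    {T : List (Sym2 (ℕ × Bool))} (h : SMovie D T) (hn : (D.map Prod.snd).Nodup) :
    Movie true false D [] := by
  obtain ⟨Ts, h1, -⟩ := smovie_inv hreid hren hthree h
  exact movie_of_inv3 hreid hcut hout hmid houtp hmove hjunc _ _ D Ts rfl rfl h.classical hn h1

end Pool.Agent.Y874.TP2
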