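import Pool.Agent.Y874.TP2.Lem

/-! Pictures: innermost arcs. -/

namespace Pool.Agent.Y874.TP2

variable {X K : Type}

namespace Pic
variable {P : Pic X K}

/-- the two boundary darts are the ends of a curve -/
def HD (P : Pic X K) (A : List X) (x : X) (M : List X) (z : X) (C : List X) : Prop :=
  (A ++ x :: (M ++ z :: C)) ∈ P.B ∧ ∃ S : Set X, P.Closed S ∧ x ∈ S ∧ z ∈ S ∧
    (∀ d ∈ S, P.κ d = P.κ x) ∧ (∀ d ∈ S, d ∈ P.B.flatten → d = x ∨ d = z) ∧ P.sg z = -P.sg x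

/-- the curves starting at the boundary darts `x` and `z` cross, and this is the first crossing on
the curve starting at `x`; they do not end in `M` -/
def TD (P : Pic X K) (x z : X) (M : List X) : Prop :=
  ∃ q ∈ P.Q, ∃ y y' L, ∃ S S' : Set X, P.σ x ∈ q ∧ Opp q y y' ∧ P.κ y ≠ P.κ x ∧ P.Walk y L z ∧
    y' ∉ L ∧ P.Closed S ∧ x ∈ S ∧ (∀ d ∈ S, P.κ d = P.κ x) ∧ (∀ d ∈ M, d ∉ S) ∧
    P.Closed S' ∧ z ∈ S' ∧ (∀ d ∈ S', P.κ d = P.κ y) ∧ ∀ d ∈ M, d ∉ S'

def Cfg (P : Pic X K) (n : ℕ) : Prop := ∃ A x M z C, M.length = n ∧ (P.HD A x M z C ∨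
  ((A ++ x :: (M ++ z :: C)) ∈ P.B ∧ (P.TD x z M ∨ P.TD z x M)))

theorem closed_walk (w2 : S_W2) (hG : P.Good) {x : X} {L : List X} {z : X}
    (hx : x ∈ P.B.flatten) (hw : P.Walk x L z) : P.Closed {e | e ∈ L} := by
  obtain ⟨h1, h2, h3, h4, h5, h6, h7, h8⟩ := w2 X K P hG x L z (Or.inl hx) hw
  refine ⟨fun d hd => (h5 d hd).1, h6, fun q hq d e ho hd => h8 q hq d e ho hd ?_⟩
  rintro rfl
  exact hG.disj hq ho.mem hx

theorem closed_union (w2 : S_W2) (hG : P.Good) {q : List X} (hq : q ∈ P.Q) {y y' : X}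
    (ho : Opp q y y') {L₁ L₂ : List X} {k₁ k₂ : X} (hw₁ : P.Walk y L₁ k₁)
    (hw₂ : P.Walk y' L₂ k₂) : P.Closed {e | e ∈ L₁ ∨ e ∈ L₂} ∧
      (∀ d, d ∈ L₁ ∨ d ∈ L₂ → P.κ d = P.κ y) ∧
      (∀ d, d ∈ L₁ ∨ d ∈ L₂ → d ∈ P.B.flatten → d = k₁ ∨ d = k₂) := by
  have hy : P.dart y := dartQ hq ho.mem
  have hy' : P.dart y' := dartQ hq ho.symm.mem
  obtain ⟨h1, h2, h3, h4, h5, h6, h7, h8⟩ := w2 X K P hG y L₁ k₁ hy hw₁
  obtain ⟨g1, g2, g3, g4, g5, g6, g7, g8⟩ := w2 X K P hG y' L₂ k₂ hy' hw₂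
  refine ⟨⟨?_, ?_, ?_⟩, ?_, ?_⟩
  · rintro d (hd | hd)
    · exact (h5 d hd).1
    · exact (g5 d hd).1
  · rintro d (hd | hd)
    · exact Or.inl (h6 d hd)
    · exact Or.inr (g6 d hd)
  · rintro q' hq' d e ho' (hd | hd)
    · by_cases hdy : d = y
      · subst hdy
        rw [hG.oppU hq' hq ho' ho]
        exact Or.inr g1
      · exact Or.inl (h8 q' hq' d e ho' hd hdy)
    · by_cases hdy : d = y'
      · subst hdy
        rw [hG.oppU hq' hq ho' ho.symm]
        exact Or.inl h1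
      · exact Or.inr (g8 q' hq' d e ho' hd hdy)
  · rintro d (hd | hd)
    · exact (h5 d hd).2
    · rw [(g5 d hd).2, (hG.oppF hq ho).1]
  · rintro d (hd | hd) hb
    · rcases h7 d hd hb with rfl | rfl
      · exact absurd hb (hG.disj hq ho.mem)
      · exact Or.inl rfl
    · rcases g7 d hd hb with rfl | rfl
      · exact absurd hb (hG.disj hq ho.symm.mem)
      · exact Or.inr rfl

/-- a curve starting next to `x` which does not leave gives a smaller arc -/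
theorem sub_arc (w2 : S_W2) (hG : P.Good) {A M C : List X} {x z : X}
    (hW : (A ++ x :: (M ++ z :: C)) ∈ P.B) {d : X} {M' : List X} (hM : M = d :: M')
    {L : List X} {d' : X} (hw : P.Walk d L d')
    (hg : (M.map (P.fl {e | e ∈ L})).sum = 0) : ∃ m < M.length, P.Cfg m := by
  subst hM
  have hn := hG.nodupB hW
  have hdB : d ∈ P.B.flatten := List.mem_flatten.2 ⟨_, hW, by simp⟩
  obtain ⟨h1, h2, h3, h4, h5, h6, h7, h8⟩ := w2 X K P hG d L d' (Or.inl hdB) hw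
  have hd' : d' ∈ M' := by
    by_contra hd'
    rw [List.map_cons, List.sum_cons, fl_mem (show d ∈ {e | e ∈ L} from h1), sum_zero,
      add_zero] at hg
    · exact hG.sg0 (Or.inl hdB) hg
    · intro e he
      refine fl_not fun heL => ?_
      have heB : e ∈ P.B.flatten := List.mem_flatten.2 ⟨_, hW, by simp [he]⟩
      rcases h7 e heL heB with rfl | rfl
      · rw [List.nodup_append, List.nodup_cons, List.cons_append, List.nodup_cons] at hn
        exact hn.2.1.2.1 (by simp [he])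
      · exact hd' he
  obtain ⟨M₁, M₂, rfl⟩ := List.append_of_mem hd'
  refine ⟨M₁.length, by simp, A ++ [x], d, M₁, d', M₂ ++ z :: C, rfl, Or.inl ⟨?_, {e | e ∈ L},
    closed_walk w2 hG hdB hw, h1, h2, fun e he => (h5 e he).2, h7, h4⟩⟩
  simpa using hW

theorem sum_two {g : X → ℤ} {M : List X} {k₁ k₂ : X} (hM : M.Nodup) (h1 : k₁ ∈ M) (h2 : k₂ ∈ M)
    (hk : k₁ ≠ k₂) (h : ∀ d ∈ M, d ≠ k₁ → d ≠ k₂ → g d = 0) : (M.map g).sum = g k₁ + g k₂ := by
  obtain ⟨M₁, M₂, rfl⟩ := List.append_of_mem h1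
  have hp : (M₁ ++ k₁ :: M₂).Perm (k₁ :: (M₁ ++ M₂)) := List.perm_middle
  have hn := hp.nodup_iff.1 hM
  rw [List.nodup_cons] at hn
  have h3 : k₂ ∈ M₁ ++ M₂ := by
    have := hp.mem_iff.1 h2
    rcases List.mem_cons.1 this with h | h
    · exact absurd h.symm hk
    · exact h
  obtain ⟨N₁, N₂, hN⟩ := List.append_of_mem h3
  rw [hN] at hn
  rw [(hp.map g).sum_eq, List.map_cons, List.sum_cons, hN, List.map_append, List.sum_append,
    List.map_cons, List.sum_cons, sum_zero, sum_zero]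
  · ring
  · intro d hd
    refine h d ?_ ?_ ?_
    · rw [hp.mem_iff, hN]; simp [hd]
    · rintro rfl; exact hn.1 (by simp [hd])
    · rintro rfl
      have h4 := hn.2
      rw [List.nodup_append, List.nodup_cons] at h4
      exact h4.2.1.1 hd
  · intro d hd
    refine h d ?_ ?_ ?_
    · rw [hp.mem_iff, hN]; simp [hd]
    · rintro rfl; exact hn.1 (by simp [hd])
    · rintro rfl
      have h4 := hn.2
      rw [List.nodup_append] at h4
      exact h4.2.2 _ hd _ (by simp) rfl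

/-- a curve crossing an arc once ends inside on exactly one side -/
theorem pick (w2 : S_W2) (w4 : S_W4) (hG : P.Good) {q : List X} (hq : q ∈ P.Q) {y y' : X}
    (ho : Opp q y y') {L₁ L₂ : List X} {k₁ k₂ : X} (hw₁ : P.Walk y L₁ k₁)
    (hw₂ : P.Walk y' L₂ k₂) {M : List X} (hM : M.Nodup) (hMB : ∀ d ∈ M, d ∈ P.B.flatten)
    (hg : (M.map (P.fl {e | e ∈ L₁ ∨ e ∈ L₂})).sum ≠ 0) :
    ∃ l M₁ M₂ y₁ y₁' L, M = M₁ ++ l :: M₂ ∧ Opp q y₁ y₁' ∧ P.κ y₁ = P.κ y ∧ P.Walk y₁ L l ∧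
      y₁' ∉ L ∧ (l ∈ L₁ ∨ l ∈ L₂) ∧ ∀ d ∈ M₁ ++ M₂, ¬(d ∈ L₁ ∨ d ∈ L₂) := by
  have hy : P.dart y := dartQ hq ho.mem
  have hy' : P.dart y' := dartQ hq ho.symm.mem
  obtain ⟨c1, c2, c3⟩ := closed_union w2 hG hq ho hw₁ hw₂
  obtain ⟨h1, h2, h3, h4, -, -, -, -⟩ := w2 X K P hG y L₁ k₁ hy hw₁
  obtain ⟨g1, g2, g3, g4, -, -, -, -⟩ := w2 X K P hG y' L₂ k₂ hy' hw₂
  have hs := (hG.oppF hq ho).2
  have hk : k₁ ≠ k₂ := by
    intro h
    rw [h, g4, hs] at h4
    have := hG.sg0 hy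
    omega
  have key : ∀ (l l' : X) (y₁ y₁' : X) (L₃ : List X), l ∈ M → l' ∉ M →
      (∀ d, d ∈ L₁ ∨ d ∈ L₂ → d ∈ P.B.flatten → d = l ∨ d = l') →
      Opp q y₁ y₁' → P.κ y₁ = P.κ y → P.Walk y₁ L₃ l → (l ∈ L₁ ∨ l ∈ L₂) →
      ∃ l M₁ M₂ y₁ y₁' L, M = M₁ ++ l :: M₂ ∧ Opp q y₁ y₁' ∧ P.κ y₁ = P.κ y ∧ P.Walk y₁ L l ∧
      y₁' ∉ L ∧ (l ∈ L₁ ∨ l ∈ L₂) ∧ ∀ d ∈ M₁ ++ M₂, ¬(d ∈ L₁ ∨ d ∈ L₂) := by
    intro l l' y₁ y₁' L₃ hl hl' hb ho' hκ hw hlL
    obtain ⟨M₁, M₂, rfl⟩ := List.append_of_mem hl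
    obtain ⟨L, hL, hL'⟩ := w4 X K P hG y₁ L₃ l hw q hq y₁' ho'
    refine ⟨l, M₁, M₂, y₁, y₁', L, rfl, ho', hκ, hL, hL', hlL, fun d hd hdL => ?_⟩
    have hd' : d ∈ M₁ ++ l :: M₂ := by
      rcases List.mem_append.1 hd with h | h <;> simp [h]
    rcases hb d hdL (hMB d hd') with rfl | rfl
    · rw [List.nodup_middle, List.nodup_cons] at hM
      exact hM.1 hd
    · exact hl' hd'
  by_cases m1 : k₁ ∈ M
  · by_cases m2 : k₂ ∈ M
    · exfalso
      apply hg
      rw [sum_two hM m1 m2 hk, fl_mem (S := {e | e ∈ L₁ ∨ e ∈ L₂}) (Or.inl h2),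
        fl_mem (S := {e | e ∈ L₁ ∨ e ∈ L₂}) (Or.inr g2), h4, g4, hs]
      · ring
      · intro d hd e1 e2
        refine fl_not fun h => ?_
        rcases c3 d h (hMB d hd) with h | h
        · exact e1 h
        · exact e2 h
    · exact key k₁ k₂ y y' L₁ m1 m2 c3 ho rfl hw₁ (Or.inl h2)
  · by_cases m2 : k₂ ∈ M
    · exact key k₂ k₁ y' y L₂ m2 m1 (fun d hd hb => (c3 d hd hb).symm) ho.symm
        (hG.oppF hq ho).1 hw₂ (Or.inr g2)
    · exfalso
      apply hg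
      refine sum_zero fun d hd => fl_not fun h => ?_
      rcases c3 d h (hMB d hd) with rfl | rfl
      · exact m1 hd
      · exact m2 hd

/-- two unions of curves crossing at one crossing only -/
theorem cross (hG : P.Good) {S S' : Set X} (hS : P.Closed S) (hS' : P.Closed S') {q : List X}
    (hq : q ∈ P.Q) {a b : X} (ha : a ∈ q) (hb : b ∈ q) (haS : a ∈ S) (hbS : b ∈ S')
    (hκ : ∀ d ∈ S, P.κ d = P.κ a) (hκ' : ∀ d ∈ S', P.κ d = P.κ b) (hab : P.κ a ≠ P.κ b) :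
    (P.Q.map (om (P.fl S) (P.fl S'))).sum ≠ 0 := by
  rw [circ_one hG hq]
  · obtain ⟨a', c, c', o1, o2, k1, k2, k3, s1, s2, hall⟩ := hG.frame hq ha
    have hb' : b = c ∨ b = c' := by
      rcases hall b hb with rfl | rfl | h | h
      · exact absurd rfl hab
      · exact absurd k1.symm hab
      · exact Or.inl h
      · exact Or.inr h
    have hcb : P.κ c = P.κ b := by
      rcases hb' with rfl | rfl
      · rfl
      · exact k2.symm
    have hcS : c ∈ S' := by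
      rcases hb' with rfl | rfl
      · exact hbS
      · exact hS'.2.2 q hq _ _ o2.symm hbS
    have hc'S : c' ∈ S' := hS'.2.2 q hq _ _ o2 hcS
    have ha'S : a' ∈ S := hS.2.2 q hq _ _ o1 haS
    have n1 : c ∉ S := fun h => k3 (hκ c h)
    have n2 : c' ∉ S := fun h => k3 (k2.symm.trans (hκ c' h))
    have n3 : a ∉ S' := fun h => hab (hκ' a h)
    have n4 : a' ∉ S' := fun h => hab (k1.symm.trans (hκ' a' h))
    have e := om_q (f := P.fl S) (g := P.fl S') o1 o2 (fun h => n1 (h ▸ haS))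
      (fun h => n2 (h ▸ haS)) (by rw [fl_mem ha'S, fl_mem haS, s1]) (fl_not n1) (fl_not n2)
      (fl_not n3) (fl_not n4) (by rw [fl_mem hc'S, fl_mem hcS, s2])
    rw [fl_mem haS, fl_mem hcS] at e
    have e1 := hG.sg1 a (dartQ hq ha)
    have e2 := hG.sg1 c (dartQ hq o2.mem)
    rcases e1 with e1 | e1 <;> rcases e2 with e2 | e2 <;> rw [e1, e2] at e <;> omega
  · intro q' hq' hne
    by_cases h1 : ∃ a' ∈ q', a' ∈ S
    · by_cases h2 : ∃ b' ∈ q', b' ∈ S'
      · obtain ⟨a', m1, m2⟩ := h1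
        obtain ⟨b', m3, m4⟩ := h2
        exact absurd (hG.once q hq q' hq' a ha b hb a' m1 b' m3 hab (hκ a' m2) (hκ' b' m4)).symm hne
      · push Not at h2
        exact om_zero' fun d hd => fl_not (h2 d hd)
    · push Not at h1
      exact om_zero fun d hd => fl_not (h1 d hd)

theorem stepHD (w1 : S_W1) (w2 : S_W2) (w4 : S_W4) (hG : P.Good) {A M C : List X} {x z : X}
    (h : P.HD A x M z C) : P.Junc ∨ ∃ m < M.length, P.Cfg m := by
  obtain ⟨hW, S, hS, hx, hz, hκ, hb, hs⟩ := h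
  have hxB : x ∈ P.B.flatten := List.mem_flatten.2 ⟨_, hW, by simp⟩
  have hzB : z ∈ P.B.flatten := List.mem_flatten.2 ⟨_, hW, by simp⟩
  have hn := hG.nodupB hW
  by_cases hσ : P.σ x ∈ P.B.flatten
  · have hσx : P.σ x = z := (hb _ (hS.2.1 x hx) hσ).resolve_left (hG.σne (Or.inl hxB))
    have hσz : P.σ z = x := by rw [← hσx, hG.invσ x (Or.inl hxB)]
    rcases M with _ | ⟨d, M'⟩
    · left
      exact ⟨_, hW, A, x, z, C, by simp, Or.inl hσx⟩
    · right
      have hdB : d ∈ P.B.flatten := List.mem_flatten.2 ⟨_, hW, by simp⟩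
      rcases w1 X K P hG d (Or.inl hdB) with ⟨L, d', hw⟩ | ⟨S', -, h1, -, h2⟩
      · refine sub_arc w2 hG hW rfl hw ?_
        have hc : P.Closed ({x, z} : Set X) := by
          refine ⟨?_, ?_, ?_⟩
          · rintro e (rfl | rfl)
            · exact Or.inl hxB
            · exact Or.inl hzB
          · rintro e (rfl | rfl)
            · rw [hσx]; simp
            · rw [hσz]; simp
          · rintro q hq e e' ho (rfl | rfl)
            · exact absurd hxB (hG.disj hq ho.mem)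
            · exact absurd hzB (hG.disj hq ho.mem)
        have hid := ident hG (fl_flow hG hc) (fl_flow hG (closed_walk w2 hG hdB hw)) hW
          (fun e _ h1 h2 => fl_not (by simp [h1, h2]))
          (by rw [fl_mem (by simp), fl_mem (by simp), hs])
        rw [circ_zero fun q hq => om_zero fun e he => fl_not ?_, fl_mem (by simp)] at hid
        · have h3 : P.fl {e | e ∈ L} z = -P.fl {e | e ∈ L} x := by
            rw [← hσx]
            exact fl_σ hG (closed_walk w2 hG hdB hw).2.1 (Or.inl hxB)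
          rw [h3] at hid
          have h4 : P.sg x ≠ 0 := hG.sg0 (Or.inl hxB)
          have h5 : P.sg x * (2 * ((d :: M').map (P.fl {e | e ∈ L})).sum) = 0 := by linarith
          rcases mul_eq_zero.1 h5 with h5 | h5
          · exact absurd h5 h4
          · omega
        · rintro (rfl | rfl)
          · exact hG.disj hq he hxB
          · exact hG.disj hq he hzB
      · exact absurd hdB (h2 d h1)
  · right
    have hσQ : P.σ x ∈ P.Q.flatten := (hG.dartσ x (Or.inl hxB)).resolve_left hσ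
    obtain ⟨q, hq, hxq⟩ := List.mem_flatten.1 hσQ
    have hκx := hG.κσ x (Or.inl hxB)
    obtain ⟨a', y, y', o1, o2, k1, k2, k3, s1, s2, hall⟩ := hG.frame hq hxq
    rw [hκx] at k3
    have hκS : ∀ d ∈ S, P.κ d = P.κ (P.σ x) := fun d hd => (hκ d hd).trans hκx.symm
    have hno : ∀ S' : Set X, P.Closed S' → (y ∈ S' ∨ y' ∈ S') → (∀ d ∈ S', P.κ d = P.κ y) →
        (∀ d ∈ S', d ∉ P.B.flatten) → False := by
      intro S' c1 c2 c3 c4
      have hy : y ∈ S' := by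
        rcases c2 with h | h
        · exact h
        · exact c1.2.2 q hq _ _ o2.symm h
      have hid := ident hG (fl_flow hG hS) (fl_flow hG c1) hW
        (fun e he h1 h2 => fl_not fun h3 => (hb e h3 he).elim h1 h2)
        (by rw [fl_mem hx, fl_mem hz, hs])
      have hcr := cross hG hS c1 hq hxq o2.mem (hS.2.1 x hx) hy hκS c3
        (by rw [hκx]; exact Ne.symm k3)
      have h0 : ∀ d ∈ P.B.flatten, P.fl S' d = 0 := fun d hd => fl_not fun h => c4 d h hd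
      rw [h0 x hxB, h0 z hzB, sum_zero fun d hd => h0 d (List.mem_flatten.2 ⟨_, hW, by simp [hd]⟩)]
        at hid
      apply hcr
      linarith
    have hw₁ : ∃ L₁ k₁, P.Walk y L₁ k₁ := by
      rcases w1 X K P hG y (dartQ hq o2.mem) with h | ⟨S', c1, c2, c3, c4⟩
      · exact h
      · exact (hno S' c1 (Or.inl c2) c3 c4).elim
    have hw₂ : ∃ L₂ k₂, P.Walk y' L₂ k₂ := by
      rcases w1 X K P hG y' (dartQ hq o2.symm.mem) with h | ⟨S', c1, c2, c3, c4⟩
      · exact h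
      · exact (hno S' c1 (Or.inr c2) (fun d hd => (c3 d hd).trans k2) c4).elim
    obtain ⟨L₁, k₁, hw₁⟩ := hw₁
    obtain ⟨L₂, k₂, hw₂⟩ := hw₂
    obtain ⟨c1, c2, c3⟩ := closed_union w2 hG hq o2 hw₁ hw₂
    have hyL : y ∈ L₁ := (w2 X K P hG y L₁ k₁ (dartQ hq o2.mem) hw₁).1
    have hid := ident hG (fl_flow hG hS) (fl_flow hG c1) hW
      (fun e he h1 h2 => fl_not fun h3 => (hb e h3 he).elim h1 h2)
      (by rw [fl_mem hx, fl_mem hz, hs])
    have hcr := cross hG hS c1 hq hxq o2.mem (hS.2.1 x hx) (Or.inl hyL) hκS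
      (fun d hd => c2 d hd) (by rw [hκx]; exact Ne.symm k3)
    have g1 : P.fl {e | e ∈ L₁ ∨ e ∈ L₂} x = 0 := fl_not fun h => k3 (c2 x h).symm
    have g2 : P.fl {e | e ∈ L₁ ∨ e ∈ L₂} z = 0 := fl_not fun h =>
      k3 ((c2 z h).symm.trans (hκ z hz))
    rw [g1, g2] at hid
    have hg : (M.map (P.fl {e | e ∈ L₁ ∨ e ∈ L₂})).sum ≠ 0 := by
      intro h0
      rw [h0] at hid
      apply hcr
      linarith
    have hMn : M.Nodup := by
      rw [List.nodup_append, List.nodup_cons, List.nodup_append] at hn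
      exact hn.2.1.2.1
    obtain ⟨l, M₁, M₂, y₁, y₁', L, rfl, p1, p2, p3, p4, p5, p6⟩ := pick w2 w4 hG hq o2 hw₁ hw₂ hMn
      (fun d hd => List.mem_flatten.2 ⟨_, hW, by simp [hd]⟩) hg
    refine ⟨M₁.length, by simp, A, x, M₁, l, M₂ ++ z :: C, rfl, Or.inr ⟨by simpa using hW,
      Or.inl ⟨q, hq, y₁, y₁', L, S, {e | e ∈ L₁ ∨ e ∈ L₂}, hxq, p1, by rw [p2]; exact k3, p3, p4,
      hS, hx, hκ, fun d hd hdS => ?_, c1, p5, fun d hd => (c2 d hd).trans p2.symm,
      fun d hd => p6 d (by simp [hd])⟩⟩⟩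
    have hdB : d ∈ P.B.flatten := List.mem_flatten.2 ⟨_, hW, by simp [hd]⟩
    rw [List.nodup_append, List.nodup_cons, List.nodup_append] at hn
    obtain ⟨-, ⟨n1, -, -, n2⟩, -⟩ := hn
    rcases hb d hdS hdB with rfl | rfl
    · exact n1 (by simp [hd])
    · exact n2 d (by simp [hd]) d (by simp) rfl

end Pic

end Pool.Agent.Y874.TP2
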