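import Pool.Agent.Y874.TP2.StepA

/-! Pictures: innermost triangles. -/

namespace Pool.Agent.Y874.TP2

variable {X K : Type}

theorem orient {f g : X → ℤ} {q : List X} {u u' v v' : X} {s : ℤ} (h : Opp q u u')
    (h' : Opp q v v') (huv : u ≠ v) (huv' : u ≠ v') (f1 : f u = -s) (f2 : f u' = 0)
    (f3 : f v = s) (f4 : f v' = 0) (g1 : g u = -s) (g2 : g u' = s) (g3 : g v = 0) (g4 : g v' = 0)
    (hs : s * s = 1) (hom : om f g q = -1) : CycL v u q := by
  obtain ⟨x₀, x₁, x₂, x₃, rfl, h⟩ := h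
  obtain ⟨y₀, y₁, y₂, y₃, e, h'⟩ := h'
  simp only [List.cons.injEq, and_true] at e
  obtain ⟨rfl, rfl, rfl, rfl⟩ := e
  rcases h with ⟨rfl, rfl⟩ | ⟨rfl, rfl⟩ | ⟨rfl, rfl⟩ | ⟨rfl, rfl⟩ <;>
  rcases h' with ⟨rfl, rfl⟩ | ⟨rfl, rfl⟩ | ⟨rfl, rfl⟩ | ⟨rfl, rfl⟩ <;>
  first
  | exact absurd rfl huv
  | exact absurd rfl huv'
  | exact Or.inl ⟨[], _, rfl⟩
  | exact Or.inl ⟨[_], _, rfl⟩
  | exact Or.inl ⟨[_, _], _, rfl⟩
  | exact Or.inr ⟨[_, _], rfl⟩
  | (exfalso
     simp only [om, List.map_cons, List.map_nil, List.sum_cons, List.sum_nil, f1, f2, f3, f4, g1,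
      g2, g3, g4] at hom
     nlinarith)

namespace Pic
variable {P : Pic X K}

/-- the flow along a path turning at a crossing -/
noncomputable def tf (P : Pic X K) (x y : X) (T : Set X) (e : X) : ℤ :=
  P.fl {x, P.σ x} e + P.sg x * P.sg y * P.fl T e

theorem tf_flow (hG : P.Good) {x y y' x₁ : X} {T : Set X} {q : List X} (hx : x ∈ P.B.flatten)
    (hq : q ∈ P.Q) (hxq : P.σ x ∈ q) (hox : Opp q (P.σ x) x₁) (ho : Opp q y y')
    (n1 : P.σ x ≠ y) (n2 : P.σ x ≠ y') (hT1 : ∀ d ∈ T, P.σ d ∈ T) (hy : y ∈ T) (hy' : y' ∉ T)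
    (hxT : P.σ x ∉ T) (hx₁ : x₁ ∉ T)
    (hT2 : ∀ q' ∈ P.Q, q' ≠ q → ∀ d e, Opp q' d e → d ∈ T → e ∈ T) : P.Flow (P.tf x y T) := by
  have hxd : P.dart x := Or.inl hx
  have hc : ∀ d ∈ ({x, P.σ x} : Set X), P.σ d ∈ ({x, P.σ x} : Set X) := by
    rintro d (rfl | rfl)
    · simp
    · rw [hG.invσ x hxd]; simp
  refine ⟨fun e he => ?_, fun q' hq' => ?_⟩
  · unfold tf
    rw [fl_σ hG hc he, fl_σ hG hT1 he]; ring
  · by_cases hqq : q' = q
    · subst hqq
      have e1 : x ∉ q' := fun h => hG.disj hq h hx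
      have m1 : y ∉ ({x, P.σ x} : Set X) := by
        rintro (h | h)
        · exact e1 (h ▸ ho.mem)
        · exact n1 h.symm
      have m2 : y' ∉ ({x, P.σ x} : Set X) := by
        rintro (h | h)
        · exact e1 (h ▸ ho.symm.mem)
        · exact n2 h.symm
      have m3 : x₁ ∉ ({x, P.σ x} : Set X) := by
        rintro (h | h)
        · exact e1 (h ▸ hox.symm.mem)
        · have := (hG.oppF hq hox).2
          rw [h] at this
          have h0 := hG.sg0 (dartQ hq hxq)
          omega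
      rw [sum_q hox ho (hG.nodupQ hq) n1 n2]
      unfold tf
      rw [fl_not m1, fl_not m2, fl_not m3, fl_mem (x := P.σ x) (S := {x, P.σ x}) (by simp),
        fl_not hxT, fl_not hx₁, fl_mem hy, fl_not hy', hG.sgσ x hxd]
      have := hG.sgsg (dartQ hq ho.mem)
      linear_combination (P.sg x) * this
    · have k0 : ∀ d ∈ q', P.fl {x, P.σ x} d = 0 := by
        intro d hd
        refine fl_not ?_
        rintro (h | h)
        · exact hG.disj hq' hd (by rw [h]; exact hx)
        · exact hqq (hG.uniqQ hq' hq hd (by rw [h]; exact hxq))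
      obtain ⟨x₀, x₁, x₂, x₃, rfl, h1, h2, h3, h4, h5⟩ := hG.four q' hq'
      have o1 : Opp [x₀, x₁, x₂, x₃] x₀ x₂ := ⟨_, _, _, _, rfl, Or.inl ⟨rfl, rfl⟩⟩
      have o2 : Opp [x₀, x₁, x₂, x₃] x₁ x₃ :=
        ⟨_, _, _, _, rfl, Or.inr (Or.inr (Or.inl ⟨rfl, rfl⟩))⟩
      have k : ∀ a b, Opp [x₀, x₁, x₂, x₃] a b → P.sg b = -P.sg a → P.fl T b = -P.fl T a := by
        intro a b o hs
        by_cases h : a ∈ T
        · rw [fl_mem h, fl_mem (hT2 _ hq' hqq _ _ o h), hs]
        · rw [fl_not h, fl_not (fun h' => h (hT2 _ hq' hqq _ _ o.symm h')), neg_zero]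
      simp only [List.map_cons, List.map_nil, List.sum_cons, List.sum_nil, tf,
        k0 x₀ (by simp), k0 x₁ (by simp), k0 x₂ (by simp), k0 x₃ (by simp), k _ _ o1 h1,
        k _ _ o2 h2]
      ring

theorem stepTD (w1 : S_W1) (w2 : S_W2) (w3 : S_W3) (w4 : S_W4) (hG : P.Good) {A M C : List X}
    {x z : X} (hW : (A ++ x :: (M ++ z :: C)) ∈ P.B) (h : P.TD x z M) :
    P.Junc ∨ ∃ m < M.length, P.Cfg m := by
  obtain ⟨q, hq, y, y', L, S, S', hxq, ho, hκ, hw, hyL, hS, hx, hκS, hMS, hS', hz, hκS', hMS'⟩ := h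
  have hxB : x ∈ P.B.flatten := List.mem_flatten.2 ⟨_, hW, by simp⟩
  have hzB : z ∈ P.B.flatten := List.mem_flatten.2 ⟨_, hW, by simp⟩
  have hn := hG.nodupB hW
  have hyd : P.dart y := dartQ hq ho.mem
  obtain ⟨a1, a2, a3, a4, a5, a6, a7, a8⟩ := w2 X K P hG y L z hyd hw
  have hκz : P.κ z = P.κ y := (a5 z a2).2
  have hκx : P.κ (P.σ x) = P.κ x := hG.κσ x (Or.inl hxB)
  have hκσz : P.κ (P.σ z) = P.κ y := (hG.κσ z (Or.inl hzB)).trans hκz
  obtain ⟨x₁, c, c', o1, o2, k1, k2, k3, s1, s2, hall⟩ := hG.frame hq hxq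
  have hall' : ∀ e ∈ q, e = P.σ x ∨ e = x₁ ∨ e = y ∨ e = y' := by
    have hyc : y = c ∨ y = c' := by
      rcases hall y ho.mem with h | h | h | h
      · exact absurd (by rw [h, hκx]) hκ
      · exact absurd (by rw [h, k1, hκx]) hκ
      · exact Or.inl h
      · exact Or.inr h
    intro e he
    rcases hyc with h | h
    · have h' : y' = c' := hG.oppU hq hq ho (h ▸ o2)
      rw [h, h']; exact hall e he
    · have h' : y' = c := hG.oppU hq hq ho (h ▸ o2.symm)
      rw [h, h']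
      rcases hall e he with h | h | h | h
      · exact Or.inl h
      · exact Or.inr (Or.inl h)
      · exact Or.inr (Or.inr (Or.inr h))
      · exact Or.inr (Or.inr (Or.inl h))
  have hκy' : P.κ y' = P.κ y := (hG.oppF hq ho).1
  have hκx₁ : P.κ x₁ = P.κ x := k1.trans hκx
  have n1 : P.σ x ≠ y := fun h => hκ (by rw [← h, hκx])
  have n2 : P.σ x ≠ y' := fun h => hκ (by rw [← hκy', ← h, hκx])
  have hxz : x ≠ z := fun h => hκ (by rw [← hκz, h])
  have hxx₁ : P.σ x ∉ P.B.flatten := hG.disj hq hxq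
  have hsx : P.sg x ≠ 0 := hG.sg0 (Or.inl hxB)
  have hsy : P.sg y ≠ 0 := hG.sg0 hyd
  have hyy := hG.sgsg hyd
  have hss := hG.sgsg (Or.inl hxB : P.dart x)
  have hflx : ∀ e, e ≠ x → e ≠ P.σ x → P.fl {x, P.σ x} e = 0 := fun e h1 h2 =>
    fl_not (by rintro (h | h); exacts [h1 h, h2 h])
  by_cases hσz : P.σ z ∈ q
  · have hzy : P.σ z = y := by
      rcases hall' _ hσz with h | h | h | h
      · exact absurd (by rw [← hκσz, h, hκx]) hκ
      · exact absurd (by rw [← hκσz, h, hκx₁]) hκ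
      · exact h
      · exfalso
        have e1 := hG.sgσ z (Or.inl hzB)
        rw [h, (hG.oppF hq ho).2, a4] at e1
        omega
    have hyz : P.σ y = z := by rw [← hzy, hG.invσ z (Or.inl hzB)]
    have hzQ : ∀ q' ∈ P.Q, z ∉ q' := fun q' hq' h => hG.disj hq' h hzB
    have hfl : P.Flow (P.tf x y {y, z}) := by
      refine tf_flow hG hxB hq hxq o1 ho n1 n2 ?_ (by simp) ?_ ?_ ?_ ?_
      · rintro d (rfl | rfl)
        · rw [hyz]; simp
        · rw [hzy]; simp
      · rintro (h | h)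
        · have := (hG.oppF hq ho).2
          rw [h] at this; omega
        · exact hzQ q hq (h ▸ ho.symm.mem)
      · rintro (h | h)
        · exact n1 h
        · exact hzQ q hq (h ▸ hxq)
      · rintro (h | h)
        · exact hκ (by rw [← h, hκx₁])
        · exact hzQ q hq (h ▸ o1.symm.mem)
      · rintro q' hq' hne d e hod (h | h)
        · exact absurd (hG.uniqQ hq' hq hod.mem (by rw [h]; exact ho.mem)) hne
        · exact absurd (h ▸ hod.mem) (hzQ q' hq')
    have hfb : ∀ d ∈ P.B.flatten, d ≠ x → d ≠ z → P.tf x y {y, z} d = 0 := by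
      intro d hd h1 h2
      unfold tf
      rw [hflx d h1 (fun h => hxx₁ (h ▸ hd)), fl_not (S := {y, z})]
      · ring
      · rintro (h | h)
        · exact hG.disj hq ho.mem (h ▸ hd)
        · exact h2 h
    have hfx : P.tf x y {y, z} x = P.sg x := by
      unfold tf
      rw [fl_mem (S := {x, P.σ x}) (by simp), fl_not (S := {y, z})]
      · ring
      · rintro (h | h)
        · exact hG.disj hq ho.mem (h ▸ hxB)
        · exact hxz h
    have hfz : P.tf x y {y, z} z = -P.tf x y {y, z} x := by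
      rw [hfx]
      unfold tf
      rw [hflx z hxz.symm (fun h => hxx₁ (h ▸ hzB)), fl_mem (S := {y, z}) (by simp), a4]
      linear_combination (-P.sg x) * hyy
    have hfo : ∀ q' ∈ P.Q, q' ≠ q → ∀ d ∈ q', P.tf x y {y, z} d = 0 := by
      intro q' hq' hne d hd
      unfold tf
      rw [hflx d (fun h => hG.disj hq' hd (h ▸ hxB))
        (fun h => hne (hG.uniqQ hq' hq hd (h ▸ hxq))), fl_not (S := {y, z})]
      · ring
      · rintro (h | h)
        · exact hne (hG.uniqQ hq' hq hd (h ▸ ho.mem))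
        · exact hzQ q' hq' (h ▸ hd)
    rcases M with _ | ⟨d, M'⟩
    · left
      refine ⟨_, hW, A, x, z, C, by simp, Or.inr ⟨q, hq, ?_⟩⟩
      have hid := ident hG hfl (fl_flow hG hS) hW hfb hfz
      have hzS : z ∉ S := fun h => hκ (by rw [← hκz, hκS z h])
      rw [circ_one hG hq (fun q' hq' hne => om_zero (hfo q' hq' hne)), hfx, fl_mem hx,
        fl_not hzS] at hid
      simp only [List.map_nil, List.sum_nil, mul_zero, zero_add, add_zero, hss] at hid
      have hσxS : P.σ x ∈ S := hS.2.1 x hx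
      have hx₁S : x₁ ∈ S := hS.2.2 q hq _ _ o1 hσxS
      have hyS : y ∉ S := fun h => hκ (hκS y h)
      have hy'S : y' ∉ S := fun h => hκ (hκy'.symm.trans (hκS y' h))
      rw [hzy]
      refine orient (s := P.sg x) (f := P.tf x y {y, z}) (g := P.fl S) o1 ho n1 n2 ?_ ?_ ?_ ?_ ?_ ?_
        (fl_not hyS) (fl_not hy'S) hss (by linarith)
      · unfold tf
        rw [fl_mem (S := {x, P.σ x}) (by simp), fl_not (S := {y, z}), hG.sgσ x (Or.inl hxB)]
        · ring
        · rintro (h | h)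
          · exact n1 h
          · exact hzQ q hq (h ▸ hxq)
      · unfold tf
        rw [hflx x₁ (fun h => hG.disj hq o1.symm.mem (h ▸ hxB)) (fun h => ?_),
          fl_not (S := {y, z})]
        · ring
        · rintro (h | h)
          · exact hκ (by rw [← h, hκx₁])
          · exact hzQ q hq (h ▸ o1.symm.mem)
        · rw [h] at s1
          have h0 := hG.sg0 (dartQ hq hxq)
          omega
      · unfold tf
        rw [hflx y (fun h => hG.disj hq ho.mem (h ▸ hxB)) n1.symm, fl_mem (S := {y, z}) (by simp)]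
        linear_combination (P.sg x) * hyy
      · unfold tf
        rw [hflx y' (fun h => hG.disj hq ho.symm.mem (h ▸ hxB)) n2.symm, fl_not (S := {y, z})]
        · ring
        · rintro (h | h)
          · have := (hG.oppF hq ho).2
            rw [h] at this; omega
          · exact hzQ q hq (h ▸ ho.symm.mem)
      · rw [fl_mem hσxS, hG.sgσ x (Or.inl hxB)]
      · rw [fl_mem hx₁S, s1, hG.sgσ x (Or.inl hxB)]; ring
    · right
      have hdB : d ∈ P.B.flatten := List.mem_flatten.2 ⟨_, hW, by simp⟩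
      rcases w1 X K P hG d (Or.inl hdB) with ⟨Ld, d', hwd⟩ | ⟨S'', -, h1, -, h2⟩
      · refine sub_arc w2 hG hW rfl hwd ?_
        have hdL := (w2 X K P hG d Ld d' (Or.inl hdB) hwd).1
        have e1 : ∀ e ∈ S, e ∉ Ld := fun e he heL => hMS d (by simp)
          (w3 X K P hG d Ld d' (Or.inl hdB) hwd S hS ⟨e, heL, he⟩ d hdL)
        have e2 : ∀ e ∈ S', e ∉ Ld := fun e he heL => hMS' d (by simp)
          (w3 X K P hG d Ld d' (Or.inl hdB) hwd S' hS' ⟨e, heL, he⟩ d hdL)
        have hid := ident hG hfl (fl_flow hG (closed_walk w2 hG hdB hwd)) hW hfb hfz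
        have hyS' : y ∈ S' := hzy ▸ hS'.2.1 z hz
        rw [circ_zero fun q' hq' => ?_, hfx, fl_not (S := {e | e ∈ Ld}) (e1 x hx),
          fl_not (S := {e | e ∈ Ld}) (e2 z hz)] at hid
        · have h5 : P.sg x * (2 * ((d :: M').map (P.fl {e | e ∈ Ld})).sum) = 0 := by linarith
          rcases mul_eq_zero.1 h5 with h5 | h5
          · exact absurd h5 hsx
          · omega
        · by_cases hne : q' = q
          · subst hne
            refine om_zero' fun e he => fl_not ?_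
            rcases hall' e he with rfl | rfl | rfl | rfl
            · exact e1 _ (hS.2.1 x hx)
            · exact e1 _ (hS.2.2 _ hq _ _ o1 (hS.2.1 x hx))
            · exact e2 _ hyS'
            · exact e2 _ (hS'.2.2 _ hq _ _ ho hyS')
          · exact om_zero (hfo q' hq' hne)
      · exact absurd hdB (h2 d h1)
  · right
    have hσzB : P.σ z ∉ P.B.flatten := by
      intro h
      rcases a7 _ (a6 z a2) h with h' | h'
      · exact hG.disj hq ho.mem (h' ▸ h)
      · exact hG.σne (Or.inl hzB) h'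
    obtain ⟨q₂, hq₂, hzq₂⟩ := List.mem_flatten.1 ((hG.dartσ z (Or.inl hzB)).resolve_left hσzB)
    have hqq : q₂ ≠ q := fun h => hσz (h ▸ hzq₂)
    obtain ⟨z₁, e, e', o3, o4, l1, l2, l3, t1, t2, hall₂⟩ := hG.frame hq₂ hzq₂
    rw [hκσz] at l1 l3
    have hex : P.κ e ≠ P.κ x := by
      intro h
      refine hqq (hG.once q₂ hq₂ q hq e o4.mem (P.σ z) hzq₂ (P.σ x) hxq y ho.mem ?_ ?_ ?_)
      · rw [hκσz]; exact l3
      · rw [hκx, h]
      · exact hκσz.symm
    have hlm : P.κ e' = P.κ e := l2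
    have hxL : ∀ d, P.κ d = P.κ x → d ∉ L := fun d h1 h2 => hκ ((a5 d h2).2.symm.trans h1)
    have hσzy : P.σ z ≠ y := fun h => hσz (h ▸ ho.mem)
    have hz₁L : z₁ ∈ L := a8 q₂ hq₂ _ _ o3 (a6 z a2) hσzy
    have hfl : P.Flow (P.tf x y {e | e ∈ L}) := by
      refine tf_flow hG hxB hq hxq o1 ho n1 n2 a6 a1 hyL (hxL _ hκx) (hxL _ hκx₁) ?_
      intro q' hq' hne d d' hod hd
      exact a8 q' hq' d d' hod hd fun h => hne (hG.uniqQ hq' hq hod.mem (h ▸ ho.mem))
    have hfb : ∀ d ∈ P.B.flatten, d ≠ x → d ≠ z → P.tf x y {e | e ∈ L} d = 0 := by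
      intro d hd h1 h2
      unfold tf
      rw [hflx d h1 (fun h => hxx₁ (h ▸ hd)), fl_not (S := {e | e ∈ L})]
      · ring
      · intro h
        rcases a7 d h hd with h' | h'
        · exact hG.disj hq ho.mem (h' ▸ hd)
        · exact h2 h'
    have hfx : P.tf x y {e | e ∈ L} x = P.sg x := by
      unfold tf
      rw [fl_mem (S := {x, P.σ x}) (by simp), fl_not (S := {e | e ∈ L}) (hxL x rfl)]
      ring
    have hfz : P.tf x y {e | e ∈ L} z = -P.tf x y {e | e ∈ L} x := by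
      rw [hfx]
      unfold tf
      rw [hflx z hxz.symm (fun h => hxx₁ (h ▸ hzB)), fl_mem (S := {e | e ∈ L}) a2, a4]
      linear_combination (-P.sg x) * hyy
    have hcr : ∀ S'' : Set X, P.Closed S'' → e ∈ S'' → (∀ d ∈ S'', P.κ d = P.κ e) →
        (P.Q.map (om (P.tf x y {e | e ∈ L}) (P.fl S''))).sum ≠ 0 := by
      intro S'' c1 c2 c3
      rw [circ_one hG hq₂]
      · have c2' : e' ∈ S'' := c1.2.2 q₂ hq₂ _ _ o4 c2
        have hnq : ∀ d ∈ q₂, P.fl {x, P.σ x} d = 0 := fun d hd =>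
          hflx d (fun h => hG.disj hq₂ hd (h ▸ hxB)) (fun h => hqq (hG.uniqQ hq₂ hq hd (h ▸ hxq)))
        have f1 : P.tf x y {e | e ∈ L} (P.σ z) = P.sg x * P.sg y * P.sg (P.σ z) := by
          unfold tf
          rw [hnq _ hzq₂, fl_mem (S := {e | e ∈ L}) (a6 z a2), zero_add]
        have f2 : P.tf x y {e | e ∈ L} z₁ = -P.tf x y {e | e ∈ L} (P.σ z) := by
          rw [f1]
          unfold tf
          rw [hnq _ o3.symm.mem, fl_mem (S := {e | e ∈ L}) hz₁L, t1]; ring
        have f3 : P.tf x y {e | e ∈ L} e = 0 := by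
          unfold tf
          rw [hnq _ o4.mem, fl_not (S := {e | e ∈ L}) (fun h => l3 (a5 e h).2)]; ring
        have f4 : P.tf x y {e | e ∈ L} e' = 0 := by
          unfold tf
          rw [hnq _ o4.symm.mem,
            fl_not (S := {e | e ∈ L}) (fun h => l3 (hlm.symm.trans (a5 e' h).2))]; ring
        have m1 : P.σ z ∉ S'' := fun h => l3 ((c3 _ h).symm.trans hκσz)
        have m2 : z₁ ∉ S'' := fun h => l3 ((c3 _ h).symm.trans l1)
        have h5 := om_q (f := P.tf x y {e | e ∈ L}) (g := P.fl S'') o3 o4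
          (fun h => m1 (h ▸ c2)) (fun h => m1 (h ▸ c2')) f2 f3 f4 (fl_not m1) (fl_not m2)
          (by rw [fl_mem c2, fl_mem c2', t2])
        rw [f1, fl_mem c2] at h5
        have e1 := hG.sg1 x (Or.inl hxB)
        have e2 := hG.sg1 y hyd
        have e3 := hG.sg1 (P.σ z) (dartQ hq₂ hzq₂)
        have e4 := hG.sg1 e (dartQ hq₂ o4.mem)
        rcases e1 with e1 | e1 <;> rcases e2 with e2 | e2 <;> rcases e3 with e3 | e3 <;>
          rcases e4 with e4 | e4 <;> rw [e1, e2, e3, e4] at h5 <;> omega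
      · intro q' hq' hne
        by_cases hqq' : q' = q
        · subst hqq'
          refine om_zero' fun d hd => fl_not fun h => ?_
          have h6 := c3 d h
          rcases hall' d hd with rfl | rfl | rfl | rfl
          · exact hex (h6.symm.trans hκx)
          · exact hex (h6.symm.trans hκx₁)
          · exact l3 h6.symm
          · exact l3 (h6.symm.trans hκy')
        · by_cases h1 : ∃ a' ∈ q', a' ∈ L
          · by_cases h2 : ∃ b' ∈ q', b' ∈ S''
            · obtain ⟨a', m1, m2⟩ := h1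
              obtain ⟨b', m3, m4⟩ := h2
              exact absurd (hG.once q₂ hq₂ q' hq' (P.σ z) hzq₂ e o4.mem a' m1 b' m3
                (by rw [hκσz]; exact Ne.symm l3) ((a5 a' m2).2.trans hκσz.symm) (c3 b' m4)).symm
                hne
            · push Not at h2
              exact om_zero' fun d hd => fl_not (h2 d hd)
          · push Not at h1
            refine om_zero fun d hd => ?_
            unfold tf
            rw [hflx d (fun h => hG.disj hq' hd (h ▸ hxB))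
              (fun h => hqq' (hG.uniqQ hq' hq hd (h ▸ hxq))),
              fl_not (S := {e | e ∈ L}) (h1 d hd)]
            ring
    have hno : ∀ S'' : Set X, P.Closed S'' → e ∈ S'' → (∀ d ∈ S'', P.κ d = P.κ e) →
        (∀ d ∈ S'', d ∉ P.B.flatten) → False := by
      intro S'' c1 c2 c3 c4
      have hid := ident hG hfl (fl_flow hG c1) hW hfb hfz
      have h0 : ∀ d ∈ P.B.flatten, P.fl S'' d = 0 := fun d hd => fl_not fun h => c4 d h hd
      rw [h0 x hxB, h0 z hzB, sum_zero fun d hd => h0 d (List.mem_flatten.2 ⟨_, hW, by simp [hd]⟩)]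
        at hid
      apply hcr S'' c1 c2 c3
      linarith
    have hw₁ : ∃ L₁ k₁, P.Walk e L₁ k₁ := by
      rcases w1 X K P hG e (dartQ hq₂ o4.mem) with h | ⟨S'', c1, c2, c3, c4⟩
      · exact h
      · exact (hno S'' c1 c2 c3 c4).elim
    have hw₂ : ∃ L₂ k₂, P.Walk e' L₂ k₂ := by
      rcases w1 X K P hG e' (dartQ hq₂ o4.symm.mem) with h | ⟨S'', c1, c2, c3, c4⟩
      · exact h
      · exact (hno S'' c1 (c1.2.2 q₂ hq₂ _ _ o4.symm c2) (fun d hd => (c3 d hd).trans hlm)
          c4).elim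
    obtain ⟨L₁, k₁, hw₁⟩ := hw₁
    obtain ⟨L₂, k₂, hw₂⟩ := hw₂
    obtain ⟨c1, c2, c3⟩ := closed_union w2 hG hq₂ o4 hw₁ hw₂
    have heL : e ∈ L₁ := (w2 X K P hG e L₁ k₁ (dartQ hq₂ o4.mem) hw₁).1
    have hid := ident hG hfl (fl_flow hG c1) hW hfb hfz
    have g1 : P.fl {e | e ∈ L₁ ∨ e ∈ L₂} x = 0 := fl_not fun h => hex (c2 x h).symm
    have g2 : P.fl {e | e ∈ L₁ ∨ e ∈ L₂} z = 0 := fl_not fun h =>
      l3 ((c2 z h).symm.trans hκz)
    rw [g1, g2] at hid
    have hg : (M.map (P.fl {e | e ∈ L₁ ∨ e ∈ L₂})).sum ≠ 0 := by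
      intro h0
      rw [h0] at hid
      apply hcr _ c1 (Or.inl heL) (fun d hd => c2 d hd)
      linarith
    have hMn : M.Nodup := by
      rw [List.nodup_append, List.nodup_cons, List.nodup_append] at hn
      exact hn.2.1.2.1
    obtain ⟨l, M₁, M₂, y₁, y₁', L₄, rfl, p1, p2, p3, p4, p5, p6⟩ := pick w2 w4 hG hq₂ o4 hw₁ hw₂
      hMn (fun d hd => List.mem_flatten.2 ⟨_, hW, by simp [hd]⟩) hg
    refine ⟨M₂.length, by simp; omega, A ++ x :: M₁, l, M₂, z, C, rfl, Or.inr ⟨by simpa using hW,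
      Or.inr ⟨q₂, hq₂, y₁, y₁', L₄, S', {e | e ∈ L₁ ∨ e ∈ L₂}, hzq₂, p1, ?_, p3, p4, hS', hz,
      fun d hd => (hκS' d hd).trans hκz.symm, fun d hd => hMS' d (by simp [hd]), c1, p5,
      fun d hd => (c2 d hd).trans p2.symm, fun d hd => p6 d (by simp [hd])⟩⟩⟩
    rw [p2, hκz]; exact l3

end Pic

end Pool.Agent.Y874.TP2
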