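import Pool.Agent.Y874.TP2.Defs
import Pool.Agent.Y874.TP2.Pic
import Pool.Agent.Y874.TP.Stm

/-! Statements of the lemmas of project TP2. -/

namespace Pool.Agent.Y874.TP2

open Pool.Agent.Y468.SR
open Pool.Agent.Y874.TP (colour TriAt NullV Tri TC Cyc out)

/-- FLOW: the planarity condition in terms of two flows (apply it to a Heisenberg group) -/
def S_FLOW : Prop := ∀ (D Q : Code) (m : ℕ → ℕ) (f g : Pass → ℤ), (D.map Prod.snd).Nodup →
  WF (passes (D ++ Q)) → Matching (passes (D ++ Q)) m → NullV (D ++ Q) m →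
  (∀ p ∈ passes (D ++ Q), f (part m p) = -f p ∧ g (part m p) = -g p) →
  (∀ C ∈ Q, (C.1.map f).sum = 0 ∧ (C.1.map g).sum = 0) →
  (∀ C ∈ D, (C.1.map f).sum = 0) ∧ ((D ++ Q).map fun C => om f g C.1).sum = 0

/-- the picture given by a diagram with circles -/
def pic (D : Code) (Ts : List Tri) (m : ℕ → ℕ) : Pic Pass (ℕ × Bool) where
  B := D.map Prod.fst
  Q := (TC Ts).map Prod.fst
  σ := part m
  sg := sg
  κ := kap

/-- INST: it is a picture -/
def S_INST : Prop := ∀ (D : Code) (Ts : List Tri) (m : ℕ → ℕ), (D.map Prod.snd).Nodup →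
  WF (passes (D ++ TC Ts)) → InvM (D ++ TC Ts) m → (∀ T ∈ Ts, T.Col) →
  (∀ e ∈ Ts.flatMap tprs, ¬e.IsDiag) → (Ts.flatMap tprs).Nodup → (pic D Ts m).Good

end Pool.Agent.Y874.TP2
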